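import Pool.Agent.MD.S.Inst2
import Pool.Agent.MD.S.SymK
import Pool.Agent.LD.E.Zeta
import Pool.Agent.H73.AL.Final
import Pool.Agent.THF.A.Defs

/-!
# THF/K-Defs: definitions on the number field side

Everything is for a fixed finite set of primes `T`, `D : LocData T`, `a : ℕ → ℝ`.
-/

namespace Pool.Agent.THF

open NumberField IsDedekindDomain Pool.Agent.HWR Pool.Agent.QD Pool.Agent.QD.In Pool.Agent.LD
  Pool.Agent.MD

section field

variable {K : Type} [Field K] [NumberField K] {T : Finset ℕ} (D : LocData T) (a : ℕ → ℝ)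

/-- the completed Euler product of `K(√x)` (of `K × K` if `x` is a square), `Re s > 3/2` -/
noncomputable def LX (x : Kˣ) (s : ℂ) : ℂ :=
  ((dd x ^ 2 * cdx D x : ℝ) : ℂ) ^ (s / 2) * gam1 s ^ (2 * Module.finrank ℚ K) *
    ((∏' v : {v : HeightOneSpectrum (𝓞 K) // Away K T v}, FF a (nrm v.1) (tt x v.1) s) /
      plx D x s)

open Classical in
/-- the factor between `LX` and `Ls * Lu` -/
noncomputable def UX (S : Finset (HeightOneSpectrum (𝓞 K))) (x : Kˣ) (s : ℂ) : ℂ :=
  ((dd x ^ 2 * cdx D x : ℝ) : ℂ) ^ (-s / 2) * (gam1 s)⁻¹ ^ (2 * Module.finrank ℚ K) *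
    plx D x s * ∏ v ∈ S with Away K T v, (FF a (nrm v) (tt x v) s)⁻¹

/-- totally negative, and a local square at no place of `V` -/
def KN (V : Finset (HeightOneSpectrum (𝓞 K))) (x : Kˣ) : Prop :=
  (∀ v ∈ V, ¬ LSq v x) ∧ ∀ φ : K →+* ℝ, φ (x : K) < 0

/-- the classes of `G_S` which are totally negative and local squares at no place of `V` -/
def KNc (S V : Finset (HeightOneSpectrum (𝓞 K))) : Set (GS S) :=
  {c | KN V (Quotient.out c)}

/-- Hasse-Weil for the fields `K(√x)`, `KN V x` -/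
def HWN (V : Finset (HeightOneSpectrum (𝓞 K))) : Prop :=
  ∀ x : Kˣ, KN V x → ∀ (L : Type) [Field L] [NumberField L] [Algebra K L] (θ : L),
    Module.finrank K L = 2 → θ ^ 2 = algebraMap K L (x : K) → D.HW a L

/-- Hasse-Weil for all quadratic extensions of the fields `K(√x)`, `KN V x` -/
def HWN4 (V : Finset (HeightOneSpectrum (𝓞 K))) : Prop :=
  ∀ x : Kˣ, KN V x → ∀ (L : Type) [Field L] [NumberField L] [Algebra K L] (θ : L),
    Module.finrank K L = 2 → θ ^ 2 = algebraMap K L (x : K) →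
    ∀ (M : Type) [Field M] [NumberField M] [Algebra L M], Module.finrank L M = 2 → D.HW a M

end field

section glob

variable {T : Finset ℕ} (D : LocData T) (a : ℕ → ℝ)

/-- the standing hypothesis: every number field has a set `V` with `HWN`, `HWN4` -/
def Glob : Prop :=
  ∀ (F : Type) [Field F] [NumberField F], ∃ V : Finset (HeightOneSpectrum (𝓞 F)),
    V.Nonempty ∧ (∀ v ∈ V, Away F T v) ∧ HWN D a V ∧ HWN4 D a V

/-- `R` is the continuation of the completed L-function of `F` to `Re s > 1` -/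
def IsRF (F : Type) [Field F] [NumberField F] (R : ℂ → ℂ) : Prop :=
  DifferentiableOn ℂ R {s : ℂ | 1 < s.re} ∧ ∀ s : ℂ, 3 / 2 < s.re → R s = D.Lam a F s

/-- the completed L-function continues to `Re s > 1` -/
def RH (F : Type) [Field F] [NumberField F] : Prop := ∃ R, IsRF D a F R

/-- the continuation to `Re s > 1` (by choice) -/
noncomputable def RF (F : Type) [Field F] [NumberField F] : ℂ → ℂ :=
  Classical.epsilon (IsRF D a F)

open Classical in
/-- the continuation of `LX x` to `Re s > 1` -/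
noncomputable def RX {K : Type} [Field K] [NumberField K] (x : Kˣ) : ℂ → ℂ :=
  if h : IsSquare x then fun s => RF D a K s ^ 2 else RF D a (qf h).L

/-- the `N`-th power of the completed function is a quotient of entire functions of finite order -/
def MERn (F : Type) [Field F] [NumberField F] (N : ℕ) : Prop :=
  ∃ f g : ℂ → ℂ, Differentiable ℂ f ∧ Differentiable ℂ g ∧ FinOrd f ∧ FinOrd g ∧
    (∀ s : ℂ, 3 / 2 < s.re → g s ≠ 0) ∧
    (∃ c : ℝ, 0 < c ∧ ∃ k : ℕ, ∀ s : ℂ, s.re = 3 → c * Real.exp (-(1 + |s.im|) ^ k) ≤ ‖g s‖) ∧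
    (∀ s : ℂ, 3 / 2 < s.re → g s * D.Lam a F s ^ N = f s) ∧
    ∃ w : ℂ, (w = 1 ∨ w = -1) ∧ ∀ s : ℂ, f s * g (2 - s) = w * (f (2 - s) * g s)

/-- the completed function is meromorphic, with functional equation up to a sign -/
def MERk (F : Type) [Field F] [NumberField F] : Prop :=
  ∃ H g : ℂ → ℂ, Differentiable ℂ H ∧ Differentiable ℂ g ∧
    (∀ s : ℂ, 3 / 2 < s.re → g s ≠ 0) ∧
    (∀ s : ℂ, 3 / 2 < s.re → g s * D.Lam a F s = H s) ∧
    ∃ w : ℂ, (w = 1 ∨ w = -1) ∧ ∀ s : ℂ, H s * g (2 - s) = w * (H (2 - s) * g s)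

end glob

theorem RF_spec {T : Finset ℕ} (D : LocData T) (a : ℕ → ℝ) {F : Type} [Field F] [NumberField F]
    (h : RH D a F) : IsRF D a F (RF D a F) := Classical.epsilon_spec h

theorem mem_KNc {K : Type} [Field K] [NumberField K] {S V : Finset (HeightOneSpectrum (𝓞 K))}
    (hV : V ⊆ S) (x : Kˣ) : (QuotientGroup.mk x : GS S) ∈ KNc S V ↔ KN V x := by
  have h1 := out_div S x
  have h2 : ∀ v ∈ S, LSq v ((Quotient.out (QuotientGroup.mk x : GS S)) / x) := h1.1
  have h3 := h1.2
  constructor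
  · rintro ⟨h4, h5⟩
    refine ⟨fun v hv hx => h4 v hv ?_, fun φ => ?_⟩
    · have h6 := LSq_mul (h2 v (hV hv)) hx
      rwa [div_mul_cancel] at h6
    · have h6 := h3 φ
      have h7 := h5 φ
      rw [Units.val_div_eq_div_val, map_div₀] at h6
      by_contra hcon
      push Not at hcon
      have h8 := div_nonpos_of_nonpos_of_nonneg h7.le hcon
      linarith
  · rintro ⟨h4, h5⟩
    refine ⟨fun v hv hx => h4 v hv ?_, fun φ => ?_⟩
    · have h6 := LSq_div hx (h2 v (hV hv))
      rwa [div_div_cancel] at h6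
    · have h6 := h3 φ
      have h7 := h5 φ
      rw [Units.val_div_eq_div_val, map_div₀] at h6
      by_contra hcon
      push Not at hcon
      have h8 := div_nonpos_of_nonneg_of_nonpos hcon h7.le
      have h9 : φ ((Quotient.out (QuotientGroup.mk x : GS S) : Kˣ) : K) /
        φ (x : K) ≤ 0 := h8
      linarith

end Pool.Agent.THF
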