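import Pool.Agent.THF.K.Defs
import Pool.Agent.MD.F.Cho

/-!
# THF/K-Ex: existence of elements with `KN V`, local squares at `T`

PLAN.  `d = 1 - 8 * ∏ p ∈ T, p` (a negative integer, nonzero in `K`): totally negative, and a local square at every place `v` which is not away from `T`: `v` contains a prime `p ∈ T`, so
`d - 1 = -8 ∏ p` and `LSq_of_close`-like lemma: `closeOne v (2 * e2 v + 1) d` (`8 ∏ T` has order `≥ 3 e2 v + 1` at `v` : if `p ≠ 2` then `ord_v (8 ∏) ≥ 1 = 2 e2 v + 1` (`e2 v = 0`), if `p = 2` then `ord_v (8 * 2) = 4 e2 v`, `e2 v ≥ 1`), see QD/N3/Weak.lean, QD/N3/Hensel.lean (`LSq_of_close`).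
`choose1` (MD/F/Cho) is the model: `approx_many ST V hd d y` (MD/I/Apx) with `ST` the finite set of the places not away from `T` (`not_away_finite`, QD/In/Ex) and `y v` = a nonsquare unit (`exists_nonres`, LD/I/Inst; `2 ∉ v` for `v ∈ V` as `2 ∈ T`): `z / d ∈ HSub ST`, so `z` is totally negative and a local square at
`ST`; `LSq v (z / y v)` so `uK v z = -1` for `v ∈ V`.
-/

namespace Pool.Agent.THF

open NumberField IsDedekindDomain Pool.Agent.HWR Pool.Agent.QD Pool.Agent.QD.In Pool.Agent.LD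
  Pool.Agent.MD

private theorem ex_nsq {K : Type} [Field K] [NumberField K] {w : HeightOneSpectrum (𝓞 K)} {x : Kˣ}
    (hx : uK w x = -1) : ¬ LSq w x := by
  intro h
  have h1 : uK w x = 1 := uK_of_LSq h
  rw [hx] at h1
  norm_num at h1

private theorem ex_close {K : Type} [Field K] [NumberField K] {T : Finset ℕ}
    (v : HeightOneSpectrum (𝓞 K)) (hv : ¬ Away K T v) :
    closeOne v (2 * e2 v + 1) ((1 : K) - 8 * ((∏ p ∈ T, p : ℕ) : K)) := by
  classical
  unfold Away at hv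
  push Not at hv
  obtain ⟨p, hp, hpv⟩ := hv
  have h1 : ((∏ p ∈ T, p : ℕ) : 𝓞 K) ∈ v.asIdeal := by
    rw [← Finset.mul_prod_erase T (fun p => p) hp, Nat.cast_mul]
    exact Ideal.mul_mem_right _ _ hpv
  have h2 : v.valuation K ((∏ p ∈ T, p : ℕ) : K) ≤ WithZero.exp (-(1 : ℤ)) := by
    have h3 : ((∏ p ∈ T, p : ℕ) : K) = algebraMap (𝓞 K) K ((∏ p ∈ T, p : ℕ) : 𝓞 K) := by
      rw [map_natCast]
    rw [h3, v.valuation_of_algebraMap]
    have h4 := (v.intValuation_le_pow_iff_mem ((∏ p ∈ T, p : ℕ) : 𝓞 K) 1).2 (by rwa [pow_one])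
    exact_mod_cast h4
  have h5 : v.valuation K (8 : K) = WithZero.exp (-(3 * (e2 v : ℤ))) := by
    have h6 : (8 : K) = 2 ^ 3 := by norm_num
    rw [h6, map_pow, val_two, ← WithZero.exp_nsmul]
    congr 1
    simp
  unfold closeOne
  have h7 : (1 : K) - 8 * ((∏ p ∈ T, p : ℕ) : K) - 1 = -(8 * ((∏ p ∈ T, p : ℕ) : K)) := by ring
  rw [h7, Valuation.map_neg, map_mul, h5]
  refine (mul_le_mul' le_rfl h2).trans ?_
  rw [← WithZero.exp_add, WithZero.exp_le_exp]
  push_cast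
  have h8 : (0 : ℤ) ≤ e2 v := by positivity
  linarith

theorem exists_KN (K : Type) [Field K] [NumberField K] (T : Finset ℕ) (hTp : ∀ p ∈ T, p.Prime)
    (h2 : 2 ∈ T) (V : Finset (HeightOneSpectrum (𝓞 K))) (hV : ∀ v ∈ V, Away K T v) :
    ∃ z : Kˣ, KN V z ∧ ∀ v, ¬ Away K T v → LSq v z := by
  classical
  have hfin := not_away_finite K T hTp
  have hd : ∀ v ∈ V, v ∉ hfin.toFinset := by
    intro v hv hv'
    exact (hfin.mem_toFinset.1 hv') (hV v hv)
  have hP : 0 < ∏ p ∈ T, p := Finset.prod_pos fun p hp => (hTp p hp).pos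
  have hd0 : (1 : K) - 8 * ((∏ p ∈ T, p : ℕ) : K) ≠ 0 := by
    intro h0
    have h3 : ((1 - 8 * ((∏ p ∈ T, p : ℕ) : ℤ) : ℤ) : K) = 0 := by
      push_cast
      push_cast at h0
      exact h0
    rw [Int.cast_eq_zero] at h3
    omega
  have hex : ∀ w : HeightOneSpectrum (𝓞 K), ∃ y : Kˣ, w ∈ V → uK w y = -1 := by
    intro w
    by_cases hw : w ∈ V
    · have h2w : (2 : 𝓞 K) ∉ w.asIdeal := by
        have := hV w hw 2 h2
        exact_mod_cast this
      obtain ⟨y, hy⟩ := Pool.Agent.LD.exists_nonres w h2w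
      exact ⟨y, fun _ => hy⟩
    · exact ⟨1, fun h => absurd h hw⟩
  choose y hy using hex
  obtain ⟨z, hz, hz'⟩ := approx_many hfin.toFinset V hd (Units.mk0 _ hd0) y
  have hz1 := mem_HSub.1 hz
  refine ⟨z, ⟨fun v hv hL => ?_, fun φ => ?_⟩, fun v hv => ?_⟩
  · have h3 := LSq_div hL (hz' v hv)
    rw [div_div_cancel] at h3
    exact ex_nsq (hy v hv) h3
  · have h3 := hz1.2 φ
    rw [Units.val_div_eq_div_val, map_div₀, Units.val_mk0] at h3
    have h4 : φ ((1 : K) - 8 * ((∏ p ∈ T, p : ℕ) : K)) = 1 - 8 * ((∏ p ∈ T, p : ℕ) : ℝ) := by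
      rw [map_sub, map_one, map_mul, map_ofNat, map_natCast]
    have h5 : (1 : ℝ) ≤ ((∏ p ∈ T, p : ℕ) : ℝ) := by exact_mod_cast hP
    rw [h4] at h3
    by_contra hcon
    push Not at hcon
    have h6 : (1 : ℝ) - 8 * ((∏ p ∈ T, p : ℕ) : ℝ) ≤ 0 := by linarith
    have h7 := div_nonpos_of_nonneg_of_nonpos hcon h6
    linarith
  · have h3 := hz1.1 v (hfin.mem_toFinset.2 hv)
    have h4 : LSq v (Units.mk0 _ hd0) := by
      apply LSq_of_close
      rw [Units.val_mk0]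
      exact ex_close v hv
    have h5 := LSq_mul h3 h4
    rwa [div_mul_cancel] at h5

end Pool.Agent.THF
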