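import Pool.Agent.THF.K.LXa
import Pool.Agent.MD.L.V4

/-!
# THF/K-Rel43: the relation of the biquadratic extension `K(√x, √z)`

PLAN.  `rel_v4` (MD/L/V4) with `a := z`, `b := x`, `Fa := L`, `F4 := M`, `Fb := (qf hx).L`, `Fc := (qf hxz).L` (for `z * x`): `Rel T [K, K, M] [L, Fb, Fc]`; `rel_Lam` (H73/AL/Final): `Lam K * (Lam K * (Lam M * 1)) = Lam L * (Lam Fb * (Lam Fc * 1))`; `LX_quad` for `x`, `z`, `x * z`.
-/

namespace Pool.Agent.THF

open NumberField IsDedekindDomain Pool.Agent.HWR Pool.Agent.QD Pool.Agent.QD.In Pool.Agent.LD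
  Pool.Agent.MD

private theorem rel43_aux {K : Type} [Field K] [NumberField K] {T : Finset ℕ}
    {x z : Kˣ} (hx : ¬ IsSquare x) (hz : ¬ IsSquare z)
    (hxz : ¬ IsSquare (x * z)) (hzT : ∀ v : HeightOneSpectrum (𝓞 K), ¬ Away K T v → LSq v z)
    (L : Type) [Field L] [NumberField L] [Algebra K L] (hL : Module.finrank K L = 2) (θ : L)
    (hθ : θ ^ 2 = algebraMap K L (z : K)) (M : Type) [Field M] [NumberField M] [Algebra L M]
    (hM : Module.finrank L M = 2) (η : M)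
    (hη : η ^ 2 = algebraMap L M (algebraMap K L (x : K)))
    (F : Type) [Field F] [NumberField F] [Algebra K F] (hF : Module.finrank K F = 2) (θF : F)
    (hθF : θF ^ 2 = algebraMap K F (x : K))
    (F' : Type) [Field F'] [NumberField F'] [Algebra K F'] (hF' : Module.finrank K F' = 2)
    (θF' : F') (hθF' : θF' ^ 2 = algebraMap K F' ((x * z : Kˣ) : K)) :
    Pool.Agent.H73.AL.Rel T [⟨K⟩, ⟨K⟩, ⟨M⟩] [⟨L⟩, ⟨F⟩, ⟨F'⟩] := by
  have hzx : ¬ IsSquare (z * x) := by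
    rw [mul_comm]
    exact hxz
  have h2 : θF' ^ 2 = algebraMap K F' ((z * x : Kˣ) : K) := by
    rw [mul_comm z x]
    exact hθF'
  exact rel_v4 T ⟨K⟩ ⟨L⟩ ⟨F⟩ ⟨F'⟩ ⟨M⟩ z x hz hx hzx θ θF θF' η hL hF hF' hM hθ hθF h2 hη hzT

theorem rel43 {K : Type} [Field K] [NumberField K] {T : Finset ℕ} (hTp : ∀ p ∈ T, p.Prime)
    (hT : ∀ p : ℕ, p.Prime → p < 101 → p ∈ T) (D : LocData T) {a : ℕ → ℝ}
    (ha : ∀ q : ℕ, |a q| ≤ 2 * Real.sqrt q) {x z : Kˣ} (hx : ¬ IsSquare x) (hz : ¬ IsSquare z)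
    (hxz : ¬ IsSquare (x * z)) (hzT : ∀ v : HeightOneSpectrum (𝓞 K), ¬ Away K T v → LSq v z)
    (L : Type) [Field L] [NumberField L] [Algebra K L] (hL : Module.finrank K L = 2) (θ : L)
    (hθ : θ ^ 2 = algebraMap K L (z : K)) (M : Type) [Field M] [NumberField M] [Algebra L M]
    (hM : Module.finrank L M = 2) (η : M)
    (hη : η ^ 2 = algebraMap L M (algebraMap K L (x : K))) {s : ℂ} (hs : 3 / 2 < s.re) :
    D.Lam a K s ^ 2 * D.Lam a M s = LX D a x s * LX D a z s * LX D a (x * z) s := by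
  have h := rel43_aux hx hz hxz hzT L hL θ hθ M hM η hη (qf hx).L (qf hx).deg (qf hx).θ
    (qf hx).sq (qf hxz).L (qf hxz).deg (qf hxz).θ (qf hxz).sq
  have h1 := Pool.Agent.H73.AL.rel_Lam D hTp hT ha h hs
  simp only [List.map_cons, List.map_nil, List.prod_cons, List.prod_nil, mul_one] at h1
  rw [LX_quad D hTp hT ha hz L hL θ hθ hs,
    LX_quad D hTp hT ha hx (qf hx).L (qf hx).deg (qf hx).θ (qf hx).sq hs,
    LX_quad D hTp hT ha hxz (qf hxz).L (qf hxz).deg (qf hxz).θ (qf hxz).sq hs]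
  linear_combination h1

/-- the same relation for the roots of unity `w`, and for a general family of fields -/
theorem rel43_w {K : Type} [Field K] [NumberField K] {T : Finset ℕ} (D : LocData T)
    {x z : Kˣ} (hx : ¬ IsSquare x) (hz : ¬ IsSquare z)
    (hxz : ¬ IsSquare (x * z)) (hzT : ∀ v : HeightOneSpectrum (𝓞 K), ¬ Away K T v → LSq v z)
    (L : Type) [Field L] [NumberField L] [Algebra K L] (hL : Module.finrank K L = 2) (θ : L)
    (hθ : θ ^ 2 = algebraMap K L (z : K)) (M : Type) [Field M] [NumberField M] [Algebra L M]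
    (hM : Module.finrank L M = 2) (η : M)
    (hη : η ^ 2 = algebraMap L M (algebraMap K L (x : K)))
    (F : Type) [Field F] [NumberField F] [Algebra K F] (hF : Module.finrank K F = 2) (θF : F)
    (hθF : θF ^ 2 = algebraMap K F (x : K))
    (F' : Type) [Field F'] [NumberField F'] [Algebra K F'] (hF' : Module.finrank K F' = 2)
    (θF' : F') (hθF' : θF' ^ 2 = algebraMap K F' ((x * z : Kˣ) : K)) :
    Pool.Agent.H73.AL.Rel T [⟨K⟩, ⟨K⟩, ⟨M⟩] [⟨L⟩, ⟨F⟩, ⟨F'⟩] :=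
  rel43_aux hx hz hxz hzT L hL θ hθ M hM η hη F hF θF hθF F' hF' θF' hθF'

end Pool.Agent.THF
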