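import Pool.Agent.THF.K.Defs
import Pool.Agent.MD.E.Pick

/-!
# THF/K-Many: many independent totally negative elements which are local squares at no place of `V`

PLAN.  Adapt MD/E/Pick.lean (`exists_many`): its proof gives `y_i : 𝓞 K` by the Chinese remainder theorem for the moduli `v²` (`v ∈ V`) and `w_j²`.  Subtract a rational integer `M > 0` which is divisible by all these moduli (product of the squares of the norms, times a large natural number) and larger than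
`|φ (y_i)|` for all real embeddings: `x_i = y_i - M` satisfies the same congruences and is totally negative.
-/

namespace Pool.Agent.THF

open NumberField IsDedekindDomain Pool.Agent.HWR Pool.Agent.QD Pool.Agent.QD.In Pool.Agent.LD
  Pool.Agent.MD

section many

variable {K : Type} [Field K] [NumberField K]

private theorem pk_unif (w : HeightOneSpectrum (𝓞 K)) : ∃ a : 𝓞 K, a ∈ w.asIdeal ^ 1 ∧ a ∉ w.asIdeal ^ 2 := by
  obtain ⟨a, ha⟩ := w.intValuation_exists_uniformizer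
  refine ⟨a, ?_, ?_⟩
  · rw [← w.intValuation_le_pow_iff_mem, ha]
    simp
  · rw [← w.intValuation_le_pow_iff_mem, ha, WithZero.exp_le_exp]
    norm_num

private theorem pk_inf : Infinite (HeightOneSpectrum (𝓞 K)) := by
  have h : ∀ p : Nat.Primes, ∃ w : HeightOneSpectrum (𝓞 K), ((p : ℕ) : 𝓞 K) ∈ w.asIdeal := by
    intro p
    have h1 : Ideal.span {((p : ℕ) : 𝓞 K)} ≠ ⊤ := by
      rw [Ne, Ideal.span_singleton_eq_top]
      intro hu
      have h3 : Ideal.absNorm (Ideal.span {((p : ℕ) : 𝓞 K)}) = 1 := by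
        rw [Ideal.absNorm_eq_one_iff, Ideal.span_singleton_eq_top]
        exact hu
      rw [Ideal.absNorm_span_natCast] at h3
      have h5 : 0 < Module.finrank ℤ (𝓞 K) := Module.finrank_pos
      have h6 := p.2.one_lt
      have h7 : 1 < (p : ℕ) ^ Module.finrank ℤ (𝓞 K) := Nat.one_lt_pow h5.ne' h6
      omega
    obtain ⟨M, hM, hle⟩ := Ideal.exists_le_maximal _ h1
    have h2 : ((p : ℕ) : 𝓞 K) ∈ M := hle (Ideal.mem_span_singleton_self _)
    refine ⟨⟨M, hM.isPrime, ?_⟩, h2⟩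
    rintro rfl
    rw [Ideal.mem_bot, Nat.cast_eq_zero] at h2
    exact p.2.ne_zero h2
  choose w hw using h
  refine Infinite.of_injective w ?_
  intro p q hpq
  by_contra hne
  have hne' : (p : ℕ) ≠ (q : ℕ) := fun h => hne (Subtype.ext h)
  have hco : IsCoprime (((p : ℕ) : ℤ)) (((q : ℕ) : ℤ)) :=
    Nat.isCoprime_iff_coprime.2 ((Nat.coprime_primes p.2 q.2).2 hne')
  obtain ⟨a, b, hab⟩ := hco
  have h1 := hw p
  have h2 := hw q
  rw [← hpq] at h2
  apply (w p).isPrime.ne_top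
  rw [Ideal.eq_top_iff_one]
  have h3 : (1 : 𝓞 K) = (a : 𝓞 K) * ((p : ℕ) : 𝓞 K) + (b : 𝓞 K) * ((q : ℕ) : 𝓞 K) := by
    exact_mod_cast (congrArg (Int.cast : ℤ → 𝓞 K) hab).symm
  rw [h3]
  exact (w p).asIdeal.add_mem (Ideal.mul_mem_left _ _ h1) (Ideal.mul_mem_left _ _ h2)

private theorem pk_one {w : HeightOneSpectrum (𝓞 K)} {x : Kˣ} {y a : 𝓞 K}
    (hx : (x : K) = algebraMap (𝓞 K) K y) (ha : a ∈ w.asIdeal ^ 1) (ha2 : a ∉ w.asIdeal ^ 2)
    (h : y - a ∈ w.asIdeal ^ 2) : ordK w x = 1 := by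
  have h1 : ((1 : ℕ) : ℤ) ≤ ordK w x := by
    rw [le_ordK_iff_of_int w x y hx]
    have h2 : y = (y - a) + a := by ring
    rw [h2]
    exact Ideal.add_mem _ (Ideal.pow_le_pow_right (by norm_num) h) ha
  have h2 : ¬ ((2 : ℕ) : ℤ) ≤ ordK w x := by
    rw [le_ordK_iff_of_int w x y hx]
    intro h3
    apply ha2
    have h4 : a = y - (y - a) := by ring
    rw [h4]
    exact Ideal.sub_mem _ h3 h
  push_cast at h1 h2
  omega

private theorem pk_zero {w : HeightOneSpectrum (𝓞 K)} {x : Kˣ} {y : 𝓞 K}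
    (hx : (x : K) = algebraMap (𝓞 K) K y) (h : y - 1 ∈ w.asIdeal ^ 2) : ordK w x = 0 := by
  apply ordK_eq_zero_of_not_mem w x y hx
  intro hy
  apply w.isPrime.ne_top
  rw [Ideal.eq_top_iff_one]
  have h4 : (1 : 𝓞 K) = y - (y - 1) := by ring
  rw [h4]
  exact Ideal.sub_mem _ hy (Ideal.pow_le_self two_ne_zero h)


private theorem pk_nat (S : Finset (HeightOneSpectrum (𝓞 K))) : ∃ N : ℕ, 0 < N ∧
    ∀ v ∈ S, ((N : ℕ) : 𝓞 K) ∈ v.asIdeal ^ 2 := by
  classical
  refine ⟨∏ v ∈ S, (Ideal.absNorm v.asIdeal) ^ 2, ?_, ?_⟩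
  · refine Finset.prod_pos fun v _ => pow_pos (Nat.pos_of_ne_zero ?_) 2
    intro h
    exact v.ne_bot (Ideal.absNorm_eq_zero_iff.1 h)
  · intro v hv
    obtain ⟨c, hc⟩ := Finset.dvd_prod_of_mem (fun v : HeightOneSpectrum (𝓞 K) =>
      (Ideal.absNorm v.asIdeal) ^ 2) hv
    rw [hc]
    push_cast
    exact Ideal.mul_mem_right _ _ (Ideal.pow_mem_pow (Ideal.absNorm_mem v.asIdeal) 2)

private theorem pk_big {n : ℕ} (y : Fin n → K) : ∃ B : ℕ, ∀ (i : Fin n) (φ : K →+* ℝ), φ (y i) < B := by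
  classical
  have : Finite (K →+* ℝ) := inferInstance
  have : Fintype (K →+* ℝ) := Fintype.ofFinite _
  obtain ⟨B, hB⟩ := exists_nat_gt (∑ p : Fin n × (K →+* ℝ), |p.2 (y p.1)|)
  refine ⟨B, fun i φ => lt_of_le_of_lt ?_ hB⟩
  refine (le_abs_self _).trans ?_
  exact Finset.single_le_sum (f := fun p : Fin n × (K →+* ℝ) => |p.2 (y p.1)|)
    (fun p _ => abs_nonneg _) (Finset.mem_univ (i, φ))

end many

theorem exists_manyN {K : Type} [Field K] [NumberField K]
    (V : Finset (HeightOneSpectrum (𝓞 K))) (n : ℕ) :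
    ∃ x : Fin n → Kˣ, (∀ i, KN V (x i)) ∧ (∀ i j, i ≠ j → ¬ IsSquare (x i * x j)) ∧
      ∀ i, ¬ IsSquare (x i) := by
  classical
  have hinf : Infinite (HeightOneSpectrum (𝓞 K)) := pk_inf
  have hinf2 : Infinite {w : HeightOneSpectrum (𝓞 K) // w ∉ V} :=
    Set.infinite_coe_iff.2 (V.finite_toSet.infinite_compl)
  let f := Infinite.natEmbedding {w : HeightOneSpectrum (𝓞 K) // w ∉ V}
  let w : Fin n → HeightOneSpectrum (𝓞 K) := fun i => (f (i : ℕ)).1
  have hwv : ∀ i, w i ∉ V := fun i => (f (i : ℕ)).2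
  have hw : Function.Injective w := fun i j hij => Fin.ext (f.injective (Subtype.ext hij))
  choose u hu1 hu2 using (pk_unif (K := K))
  have hex : ∀ i : Fin n, ∃ y : 𝓞 K, (∀ v ∈ V, y - u v ∈ v.asIdeal ^ 2) ∧ y - u (w i) ∈ (w i).asIdeal ^ 2 ∧
      ∀ j, j ≠ i → y - 1 ∈ (w j).asIdeal ^ 2 := by
    intro i
    obtain ⟨y, hy⟩ := IsDedekindDomain.exists_forall_sub_mem_ideal
      (s := V ∪ Finset.univ.image w)
      (fun w : HeightOneSpectrum (𝓞 K) => w.asIdeal) (fun _ => 2) (fun w _ => w.prime)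
      (fun w _ w' _ h h' => h (HeightOneSpectrum.ext h'))
      (fun z => if z.1 ∈ V ∨ z.1 = w i then u z.1 else 1)
    refine ⟨y, ?_, ?_, ?_⟩
    · intro v hv
      have h1 := hy v (Finset.mem_union_left _ hv)
      rwa [if_pos (Or.inl hv)] at h1
    · have h1 := hy (w i) (Finset.mem_union_right _ (Finset.mem_image_of_mem _ (Finset.mem_univ i)))
      rwa [if_pos (Or.inr rfl)] at h1
    · intro j hj
      have h1 := hy (w j) (Finset.mem_union_right _ (Finset.mem_image_of_mem _ (Finset.mem_univ j)))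
      rwa [if_neg] at h1
      rintro (h | h)
      · exact hwv j h
      · exact hj (hw h)
  choose y hy1 hy2 hy3 using hex
  obtain ⟨N, hN0, hN⟩ := pk_nat (V ∪ Finset.univ.image w)
  obtain ⟨B, hB⟩ := pk_big (fun i => algebraMap (𝓞 K) K (y i))
  have hM : ∀ v ∈ V ∪ Finset.univ.image w, ((N * (B + 1) : ℕ) : 𝓞 K) ∈ v.asIdeal ^ 2 := by
    intro v hv
    rw [Nat.cast_mul]
    exact Ideal.mul_mem_right _ _ (hN v hv)
  have hMw : ∀ j, ((N * (B + 1) : ℕ) : 𝓞 K) ∈ (w j).asIdeal ^ 2 := fun j =>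
    hM _ (Finset.mem_union_right _ (Finset.mem_image_of_mem _ (Finset.mem_univ j)))
  have hshift : ∀ (I : Ideal (𝓞 K)) (y a m : 𝓞 K), m ∈ I → y - a ∈ I → y - m - a ∈ I := by
    intro I y a m hm hy
    have h1 : y - m - a = (y - a) - m := by ring
    rw [h1]
    exact I.sub_mem hy hm
  have hz1 : ∀ i, ∀ v ∈ V, y i - ((N * (B + 1) : ℕ) : 𝓞 K) - u v ∈ v.asIdeal ^ 2 := fun i v hv =>
    hshift _ _ _ _ (hM v (Finset.mem_union_left _ hv)) (hy1 i v hv)
  have hz2 : ∀ i, y i - ((N * (B + 1) : ℕ) : 𝓞 K) - u (w i) ∈ (w i).asIdeal ^ 2 := fun i =>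
    hshift _ _ _ _ (hMw i) (hy2 i)
  have hz3 : ∀ i, ∀ j, j ≠ i → y i - ((N * (B + 1) : ℕ) : 𝓞 K) - 1 ∈ (w j).asIdeal ^ 2 := fun i j hj =>
    hshift _ _ _ _ (hMw j) (hy3 i j hj)
  have hneg : ∀ (i : Fin n) (φ : K →+* ℝ),
      φ (algebraMap (𝓞 K) K (y i - ((N * (B + 1) : ℕ) : 𝓞 K))) < 0 := by
    intro i φ
    rw [map_sub, map_sub, map_natCast, map_natCast]
    have h1 := hB i φ
    have h2 : (B : ℝ) ≤ ((N * (B + 1) : ℕ) : ℝ) := by
      exact_mod_cast (le_trans (Nat.le_succ B) (Nat.le_mul_of_pos_left (B + 1) hN0))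
    linarith
  generalize hMM : ((N * (B + 1) : ℕ) : 𝓞 K) = M at *
  have hy0 : ∀ i, algebraMap (𝓞 K) K (y i - M) ≠ 0 := by
    intro i h
    have h1 : y i - M = 0 := (FaithfulSMul.algebraMap_injective (𝓞 K) K) (by rw [h, map_zero])
    have h2 := hz2 i
    rw [h1, zero_sub, neg_mem_iff] at h2
    exact hu2 (w i) h2
  let x : Fin n → Kˣ := fun i => Units.mk0 _ (hy0 i)
  have hx : ∀ i, (x i : K) = algebraMap (𝓞 K) K (y i - M) := fun i => rfl
  refine ⟨x, ?_, ?_, ?_⟩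
  · intro i
    refine ⟨fun v hv h => ?_, fun φ => ?_⟩
    · have h1 := even_of_LSq h
      rw [pk_one (hx i) (hu1 v) (hu2 v) (hz1 i v hv)] at h1
      exact absurd h1 (by decide)
    · rw [hx i]
      exact hneg i φ
  · rintro i j hij ⟨r, hr⟩
    have h1 := pk_one (hx i) (hu1 (w i)) (hu2 (w i)) (hz2 i)
    have h2 := pk_zero (hx j) (hz3 j i hij)
    have h3 := congrArg (ordK (w i)) hr
    rw [ordK_mul, ordK_mul, h1, h2] at h3
    omega
  · rintro i ⟨r, hr⟩
    have h1 := pk_one (hx i) (hu1 (w i)) (hu2 (w i)) (hz2 i)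
    have h3 := congrArg (ordK (w i)) hr
    rw [ordK_mul, h1] at h3
    omega

end Pool.Agent.THF
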