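import Pool.Agent.THF.K.Defs

/-!
# THF/K-Iso: isomorphic fields

`Rel T [⟨F⟩] [⟨F'⟩]` (H73/AL/Defs): composition with the isomorphism is an equivariant bijection between the embeddings of `F` and `F'`
in `AlgebraicClosure ℚ`, so the marks agree; then `rel_Lam`, `rel_w` (H73/AL/Final) for these one element lists.
-/

namespace Pool.Agent.THF

open NumberField IsDedekindDomain Pool.Agent.HWR Pool.Agent.QD Pool.Agent.QD.In Pool.Agent.LD
  Pool.Agent.MD

variable {T : Finset ℕ} (D : LocData T) (a : ℕ → ℝ) {F F' : Type} [Field F] [NumberField F]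
  [Field F'] [NumberField F'] (e : F ≃+* F')

private theorem iso_mark (e : F ≃+* F') : Pool.Agent.H73.AL.mark F = Pool.Agent.H73.AL.mark F' := by
  unfold Pool.Agent.H73.AL.mark
  refine Pool.Agent.H73.DU.pch_congr
    { toFun := fun φ => φ.comp (e.symm : F' →+* F)
      invFun := fun ψ => ψ.comp (e : F →+* F')
      left_inv := fun φ => RingHom.ext fun x => congrArg φ (e.symm_apply_apply x)
      right_inv := fun ψ => RingHom.ext fun x => congrArg ψ (e.apply_symm_apply x) } fun g φ => ?_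
  rfl

theorem rel_iso (e : F ≃+* F') (T : Finset ℕ) : Pool.Agent.H73.AL.Rel T [⟨F⟩] [⟨F'⟩] := by
  intro U _
  simp only [List.map_cons, List.map_nil, List.sum_cons, List.sum_nil, add_zero]
  exact congrFun (iso_mark e) U

theorem Lam_iso (hTp : ∀ p ∈ T, p.Prime) (hT : ∀ p : ℕ, p.Prime → p < 101 → p ∈ T)
    (ha : ∀ q : ℕ, |a q| ≤ 2 * Real.sqrt q) (e : F ≃+* F') {s : ℂ} (hs : 3 / 2 < s.re) :
    D.Lam a F s = D.Lam a F' s := by
  have h := Pool.Agent.H73.AL.rel_Lam D hTp hT ha (rel_iso e T) hs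
  simp only [List.map_cons, List.map_nil, List.prod_cons, List.prod_nil, mul_one] at h
  exact h

private theorem iso_w (e : F ≃+* F') : D.w F = D.w F' := by
  have h := Pool.Agent.H73.AL.rel_w D (rel_iso e T)
  simp only [List.map_cons, List.map_nil, List.prod_cons, List.prod_nil, mul_one] at h
  exact h

theorem HW_iso (hTp : ∀ p ∈ T, p.Prime) (hT : ∀ p : ℕ, p.Prime → p < 101 → p ∈ T)
    (ha : ∀ q : ℕ, |a q| ≤ 2 * Real.sqrt q) (e : F ≃+* F') (h : D.HW a F) : D.HW a F' := by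
  obtain ⟨L, h1, h2, h3, h4⟩ := h
  exact ⟨L, h1, h2, fun s => (iso_w D e) ▸ h3 s, fun s hs => (h4 s hs).trans (Lam_iso D a hTp hT ha e hs)⟩

theorem RF_iso (hTp : ∀ p ∈ T, p.Prime) (hT : ∀ p : ℕ, p.Prime → p < 101 → p ∈ T)
    (ha : ∀ q : ℕ, |a q| ≤ 2 * Real.sqrt q) (e : F ≃+* F') : RF D a F = RF D a F' := by
  have h : IsRF D a F = IsRF D a F' := by
    funext R
    refine propext ⟨fun h => ⟨h.1, fun s hs => ?_⟩, fun h => ⟨h.1, fun s hs => ?_⟩⟩
    · exact (h.2 s hs).trans (Lam_iso D a hTp hT ha e hs)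
    · exact (h.2 s hs).trans (Lam_iso D a hTp hT ha e hs).symm
  unfold RF
  rw [h]

end Pool.Agent.THF
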