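import Pool.Agent.THF.K.Defs

/-!
# THF/K-OmK: the abstract data `OmD` from a family of functions on the number field side

PLAN.  `T'.e b c t = if h : Rel S b c then La h.choose t * UX D a S h.choose t else 0`.  `e_diff`: `UX` is differentiable for `Re t > 0`.. in fact entire: (`invgam1_diff`, QD/In/Gam; `plx` entire (`pl_diff`), `ffi_diff` (QD/In/LocF), power of a positive number); `La` on `Om`.  `e_eq`: for `Re t > 3/2`:
`La x t = om t * LX x t` and `LX x t * UX x t = (∏' v : Io S, ef a (nrm v) 1 t) * ∏' v : Io S, ef a (nrm v) (uK v x) t`: this is the computation in `ellX_eq` (QD/In/EllX; `tprod_FF`; the prefactors cancel as there: `gam1_ne`, `plx_ne`, `ff_ne`), and `= Ls t * Lu b c t` of `sys S D a` since `uc_of` (see `isSys` / `isKn` in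
QD/In/Sys, MD/I/Sys: field `ell_eq`).  `e_bd`: `IsFam.bd` gives `C (oddN S x)^A`, `oddN_eq` (QD/In/CongD): `oddN S x ≤ nJ b`; `‖UX x t‖ ≤ C' (nJ b)^A'` on the compact set: `‖(dd^2 cdx)^(-t/2)‖ = (dd^2 cdx)^(-Re t/2) ≤ C` as `Re t ≥ x0 > 0`.. and `dd^2 cdx ≥ c > 0` uniformly (`dd = D0 * oddN`, `oddN ≥ 1`, `D0`, `cdx`
depend only on the class: `D0_congr`, `cdx_congr`), the other factors depend only on the class of `x` in the finite group `GS S` (`plx_congr`, `tt_congr`) and are continuous.  `UX_ne`: `gam1 t ≠ 0`-inverse: `(gam1 t)⁻¹ ≠ 0` for `Re t > 0` (`gam1_ne`), `plx_ne`, `FF⁻¹ ≠ 0` for `Re t > 1/2`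
(`FF` has a value, `(FF)⁻¹` is a polynomial without zeros there: see `GGX_mid_ne`, MD/S/GMid.lean).  `UX_sq`: for squares all ingredients are given by `dif_pos` and do not depend on `x`.
-/

namespace Pool.Agent.THF

open NumberField IsDedekindDomain Pool.Agent.HWR Pool.Agent.QD Pool.Agent.QD.In Pool.Agent.LD
  Pool.Agent.MD

variable {K : Type} [Field K] [NumberField K] {T : Finset ℕ} (D : LocData T) (a : ℕ → ℝ)

/-- a family of functions `La x` on the half strip which are `om * LX x` for `Re t > 3/2`, with bounds -/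
structure IsFam (S : Finset (HeightOneSpectrum (𝓞 K))) (x0 y0 r : ℝ) (om : ℂ → ℂ)
    (La : Kˣ → ℂ → ℂ) : Prop where
  hr : 0 < r
  hx0 : 1 / 2 ≤ x0
  om_diff : DifferentiableOn ℂ om {t : ℂ | x0 < t.re ∧ |t.im - y0| < r}
  diff : ∀ x, DifferentiableOn ℂ (La x) {t : ℂ | x0 < t.re ∧ |t.im - y0| < r}
  eq : ∀ x, ∀ t : ℂ, x0 < t.re → |t.im - y0| < r → 3 / 2 < t.re → La x t = om t * LX D a x t
  bd : ∀ Q : Set ℂ, IsCompact Q → Q ⊆ {t : ℂ | x0 < t.re ∧ |t.im - y0| < r} →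
    ∃ A C : ℝ, 0 ≤ A ∧ 0 ≤ C ∧ ∀ x, ∀ t ∈ Q, ‖La x t‖ ≤ C * (oddN S x : ℝ) ^ A

private theorem ok_efi_ne {a : ℕ → ℝ} (ha : ∀ q : ℕ, |a q| ≤ 2 * Real.sqrt q) {q : ℕ}
    (hq : 101 ≤ q) {s : ℂ} (hs : 1 / 2 < s.re) : efi a q s ≠ 0 := by
  have hq1 : (1 : ℝ) < q := by exact_mod_cast (by omega : 1 < q)
  have hq0 : (0 : ℝ) < q := by linarith
  have h0 : (q : ℂ) ≠ 0 := by exact_mod_cast hq0.ne'
  have e1 : (q : ℂ) ^ (1 - 2 * s) = (((q : ℝ)) : ℂ) * ((q : ℂ) ^ (-s)) ^ 2 := by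
    have h1 : (1 : ℂ) - 2 * s = 1 + (-s + -s) := by ring
    rw [h1, Complex.cpow_add _ _ h0, Complex.cpow_one, Complex.cpow_add _ _ h0, pow_two,
      Complex.ofReal_natCast]
  unfold efi
  rw [e1]
  refine quad_ne (Real.sqrt_nonneg (q : ℝ)) (ha q) (Real.sq_sqrt hq0.le).symm ?_
  rw [Complex.norm_natCast_cpow_of_pos (by omega), Complex.neg_re, Real.sqrt_eq_rpow,
    ← Real.rpow_add hq0]
  exact Real.rpow_lt_one_of_one_lt_of_neg hq1 (by linarith)

private theorem ok_ffi_ne {a : ℕ → ℝ} (ha : ∀ q : ℕ, |a q| ≤ 2 * Real.sqrt q) {q : ℕ}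
    (hq : 101 ≤ q) (u : ℂ) {s : ℂ} (hs : 1 / 2 < s.re) : (FF a q u s)⁻¹ ≠ 0 := by
  rw [ffi_eq]
  have hq2 : 101 ≤ q ^ 2 := by nlinarith
  split_ifs
  · exact pow_ne_zero 2 (ok_efi_ne ha hq hs)
  · exact ok_efi_ne ha hq2 hs
  · exact ok_efi_ne ha hq hs

private theorem ok_gam1_ne {s : ℂ} (hs : 0 < s.re) : gam1 s ≠ 0 := by
  unfold gam1
  refine mul_ne_zero ?_ (Complex.Gamma_ne_zero_of_re_pos hs)
  rw [Complex.cpow_ne_zero_iff]
  left
  exact_mod_cast (by positivity : (2 * Real.pi : ℝ) ≠ 0)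

private theorem ok_AA_pos (x : Kˣ) : 0 < dd x ^ 2 * cdx D x :=
  mul_pos (pow_pos (dd_pos x) 2) (cdx_pos D x)

private theorem ok_DD_pos (S : Finset (HeightOneSpectrum (𝓞 K))) (x : Kˣ) :
    0 < D0 S x ^ 2 * cdx D x :=
  mul_pos (pow_pos (D0_pos S x) 2) (cdx_pos D x)

private theorem ok_plx_diff (x : Kˣ) : Differentiable ℂ (plx D x) := by
  by_cases h : IsSquare x
  · have : plx D x = fun s => D.pl K s ^ 2 := by
      funext s
      unfold plx
      rw [dif_pos h]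
    rw [this]
    exact (pl_diff D K).pow 2
  · have : plx D x = D.pl (qf h).L := by
      funext s
      unfold plx
      rw [dif_neg h]
    rw [this]
    exact pl_diff D _

private theorem ok_prodinv_diff (s : Finset (HeightOneSpectrum (𝓞 K))) (a : ℕ → ℝ) (x : Kˣ) :
    Differentiable ℂ fun z => ∏ v ∈ s, (FF a (nrm v) (tt x v) z)⁻¹ := by
  classical
  induction s using Finset.induction_on with
  | empty => simp only [Finset.prod_empty]; exact differentiable_const _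
  | insert v s hv ih =>
    simp only [Finset.prod_insert hv]
    exact (ffi_diff a (nrm_ne_zero v) _).mul ih

open Classical in
/-- the part of `UX` which depends only on the class -/
private noncomputable def ok_VX (S : Finset (HeightOneSpectrum (𝓞 K))) (x : Kˣ) (s : ℂ) : ℂ :=
  ((D0 S x ^ 2 * cdx D x : ℝ) : ℂ) ^ (-s / 2) * (gam1 s)⁻¹ ^ (2 * Module.finrank ℚ K) *
    plx D x s * ∏ v ∈ S with Away K T v, (FF a (nrm v) (tt x v) s)⁻¹

private theorem ok_cpow_diff {A : ℝ} (hA : 0 < A) :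
    Differentiable ℂ fun s : ℂ => (A : ℂ) ^ (-s / 2) := by
  have hA' : (A : ℂ) ≠ 0 := by exact_mod_cast hA.ne'
  exact (differentiable_id.neg.div_const 2).const_cpow (Or.inl hA')

private theorem ok_UX_diff (S : Finset (HeightOneSpectrum (𝓞 K))) (x : Kˣ) :
    Differentiable ℂ (UX D a S x) := by
  have h1 := ok_cpow_diff (ok_AA_pos D x)
  have h3 := ((h1.mul (invgam1_diff.pow (2 * Module.finrank ℚ K))).mul
    (ok_plx_diff D x)).mul
      (ok_prodinv_diff (open Classical in S.filter fun v => Away K T v) a x)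
  exact h3

private theorem ok_VX_diff (S : Finset (HeightOneSpectrum (𝓞 K))) (x : Kˣ) :
    Differentiable ℂ (ok_VX D a S x) := by
  have h1 := ok_cpow_diff (ok_DD_pos D S x)
  have h3 := ((h1.mul (invgam1_diff.pow (2 * Module.finrank ℚ K))).mul
    (ok_plx_diff D x)).mul
      (ok_prodinv_diff (open Classical in S.filter fun v => Away K T v) a x)
  exact h3

private theorem ok_VX_congr (S : Finset (HeightOneSpectrum (𝓞 K)))
    (h2 : ∀ v : HeightOneSpectrum (𝓞 K), (2 : 𝓞 K) ∈ v.asIdeal → v ∈ S)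
    (hST : ∀ v, ¬ Away K T v → v ∈ S) {x y : Kˣ} (h : x / y ∈ Pool.Agent.QD.HSub S) :
    ok_VX D a S x = ok_VX D a S y := by
  classical
  funext s
  unfold ok_VX
  rw [cdx_congr D hST h, plx_congr D hST h, D0_congr S h2 h]
  congr 1
  refine Finset.prod_congr rfl fun v hv => ?_
  rw [tt_congr h v (Finset.mem_filter.1 hv).1]

private theorem ok_UX_VX (S : Finset (HeightOneSpectrum (𝓞 K))) (x : Kˣ) (s : ℂ) :
    UX D a S x s = (((oddN S x : ℝ) ^ 2 : ℝ) : ℂ) ^ (-s / 2) * ok_VX D a S x s := by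
  have e1 : dd x ^ 2 * cdx D x = (oddN S x : ℝ) ^ 2 * (D0 S x ^ 2 * cdx D x) := by
    rw [dd_eq S x]
    ring
  unfold UX ok_VX
  rw [e1, Complex.ofReal_mul, Complex.mul_cpow_ofReal_nonneg (by positivity)
    (ok_DD_pos D S x).le]
  ring

private theorem ok_odd_norm (S : Finset (HeightOneSpectrum (𝓞 K))) (x : Kˣ) {s : ℂ}
    (hs : 0 ≤ s.re) : ‖(((oddN S x : ℝ) ^ 2 : ℝ) : ℂ) ^ (-s / 2)‖ ≤ 1 := by
  have h1 : (1 : ℝ) ≤ oddN S x := by exact_mod_cast (oddN_pos S x : 1 ≤ oddN S x)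
  have h2 : (1 : ℝ) ≤ (oddN S x : ℝ) ^ 2 := one_le_pow₀ h1
  rw [Complex.norm_cpow_eq_rpow_re_of_pos (by linarith)]
  refine Real.rpow_le_one_of_one_le_of_nonpos h2 ?_
  have h3 : (-s / 2).re = -s.re / 2 := by
    have h4 : -s / 2 = ((1 / 2 : ℝ) : ℂ) * (-s) := by
      push_cast
      ring
    rw [h4, Complex.re_ofReal_mul, Complex.neg_re]
    ring
  rw [h3]
  linarith

private theorem ok_UX_bd (S : Finset (HeightOneSpectrum (𝓞 K)))
    (h2 : ∀ v : HeightOneSpectrum (𝓞 K), (2 : 𝓞 K) ∈ v.asIdeal → v ∈ S)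
    (hST : ∀ v, ¬ Away K T v → v ∈ S) {Q : Set ℂ} (hQ : IsCompact Q)
    (hQ0 : ∀ t ∈ Q, 0 ≤ t.re) : ∃ C : ℝ, 0 ≤ C ∧ ∀ x : Kˣ, ∀ t ∈ Q, ‖UX D a S x t‖ ≤ C := by
  classical
  haveI : Fintype (GS S) := Fintype.ofFinite _
  have h1 : ∀ c : GS S, ∃ C : ℝ, 0 ≤ C ∧ ∀ t ∈ Q, ‖ok_VX D a S (Quotient.out c) t‖ ≤ C := by
    intro c
    obtain ⟨C, hC⟩ := hQ.exists_bound_of_continuousOn
      (ok_VX_diff D a S (Quotient.out c)).continuous.continuousOn
    exact ⟨|C|, abs_nonneg C, fun t ht => (hC t ht).trans (le_abs_self C)⟩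
  choose C hC0 hC using h1
  refine ⟨∑ c : GS S, C c, Finset.sum_nonneg fun c _ => hC0 c, fun x t ht => ?_⟩
  have h3 : ok_VX D a S x = ok_VX D a S (Quotient.out (QuotientGroup.mk x : GS S)) :=
    ok_VX_congr D a S h2 hST (div_out S x)
  rw [ok_UX_VX, norm_mul, h3]
  have h4 := hC (QuotientGroup.mk x : GS S) t ht
  have h5 : C (QuotientGroup.mk x : GS S) ≤ ∑ c : GS S, C c :=
    Finset.single_le_sum (f := C) (fun c _ => hC0 c) (Finset.mem_univ _)
  calc _ ≤ 1 * C (QuotientGroup.mk x : GS S) :=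
        mul_le_mul (ok_odd_norm S x (hQ0 t ht)) h4 (norm_nonneg _) zero_le_one
    _ ≤ _ := by rw [one_mul]; exact h5

/-- the product of `LX` and `UX` is the Euler product outside `S` -/
private theorem ok_LX_UX {a : ℕ → ℝ} (S : Finset (HeightOneSpectrum (𝓞 K)))
    (h2 : ∀ v : HeightOneSpectrum (𝓞 K), (2 : 𝓞 K) ∈ v.asIdeal → v ∈ S)
    (hST : ∀ v, ¬ Away K T v → v ∈ S)
    (hT : ∀ p : ℕ, p.Prime → p < 101 → p ∈ T)
    (ha : ∀ q : ℕ, |a q| ≤ 2 * Real.sqrt q) (ha2 : SqRel K T a) (x : Kˣ) {s : ℂ}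
    (hs : 3 / 2 < s.re) : LX D a x s * UX D a S x s =
      (∏' v : Io S, ef a (nrm v.1) 1 s) * ∏' v : Io S, ef a (nrm v.1) (uK v.1 x) s := by
  classical
  have hA := ok_AA_pos D x
  have hA' : ((dd x ^ 2 * cdx D x : ℝ) : ℂ) ≠ 0 := by exact_mod_cast hA.ne'
  have hg : gam1 s ≠ 0 := ok_gam1_ne (by linarith)
  have hp : plx D x s ≠ 0 := plx_ne D x (by linarith)
  have hF : (∏ v ∈ S with Away K T v, FF a (nrm v) (tt x v) s) ≠ 0 := by
    refine Finset.prod_ne_zero_iff.2 fun v hv => ?_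
    exact ff_ne ha (nrm_ge K T hT v (Finset.mem_filter.1 hv).2) _ (by linarith)
  have hc : ((dd x ^ 2 * cdx D x : ℝ) : ℂ) ^ (s / 2) *
      ((dd x ^ 2 * cdx D x : ℝ) : ℂ) ^ (-s / 2) = 1 := by
    rw [← Complex.cpow_add _ _ hA']
    have : s / 2 + -s / 2 = 0 := by ring
    rw [this, Complex.cpow_zero]
  unfold LX UX
  rw [tprod_FF S h2 hST hT ha ha2 x hs, Finset.prod_inv_distrib]
  set P := (∏' v : Io S, ef a (nrm v.1) 1 s) * ∏' v : Io S, ef a (nrm v.1) (uK v.1 x) s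
  set F := ∏ v ∈ S with Away K T v, FF a (nrm v) (tt x v) s
  set c1 := ((dd x ^ 2 * cdx D x : ℝ) : ℂ) ^ (s / 2)
  set c2 := ((dd x ^ 2 * cdx D x : ℝ) : ℂ) ^ (-s / 2)
  rw [inv_pow]
  have hgp := pow_ne_zero (2 * Module.finrank ℚ K) hg
  generalize gam1 s ^ (2 * Module.finrank ℚ K) = g at hgp
  generalize plx D x s = p at hp
  calc c1 * g * (F * P / p) * (c2 * g⁻¹ * p * F⁻¹)
      = (c1 * c2) * (g * g⁻¹) * (p * p⁻¹) * (F * F⁻¹) * P := by
        rw [div_eq_mul_inv]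
        ring
    _ = P := by
        rw [hc, mul_inv_cancel₀ hgp, mul_inv_cancel₀ hp, mul_inv_cancel₀ hF]
        ring

private theorem ok_odd_le (S : Finset (HeightOneSpectrum (𝓞 K))) {b : Io S →₀ ℕ} {x : Kˣ}
    (hx : ∀ v : Io S, ordK v.1 x = (b v : ℤ)) :
    oddN S x ≤ b.prod fun v k => nrm v.1 ^ k := by
  rw [oddN_eq S x b hx]
  unfold Finsupp.prod
  refine Finset.prod_le_prod' fun v _ => ?_
  have h1 : 1 ≤ nrm v.1 := Nat.one_le_iff_ne_zero.2 (nrm_ne_zero v.1)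
  show (if Odd (b v) then nrm v.1 else 1) ≤ nrm v.1 ^ (b v)
  split_ifs with h
  · exact Nat.le_self_pow h.pos.ne' _
  · exact Nat.one_le_pow _ _ h1

theorem UX_ne (S : Finset (HeightOneSpectrum (𝓞 K))) (hT : ∀ p : ℕ, p.Prime → p < 101 → p ∈ T)
    (ha : ∀ q : ℕ, |a q| ≤ 2 * Real.sqrt q) (x : Kˣ) {s : ℂ} (hs : 1 / 2 < s.re) :
    UX D a S x s ≠ 0 := by
  classical
  have hA : ((dd x ^ 2 * cdx D x : ℝ) : ℂ) ^ (-s / 2) ≠ 0 := by
    rw [Complex.cpow_ne_zero_iff]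
    left
    exact_mod_cast (ok_AA_pos D x).ne'
  unfold UX
  refine mul_ne_zero (mul_ne_zero (mul_ne_zero hA (pow_ne_zero _
    (inv_ne_zero (ok_gam1_ne (by linarith))))) (plx_ne D x hs)) ?_
  refine Finset.prod_ne_zero_iff.2 fun v hv => ?_
  exact ok_ffi_ne ha (nrm_ge K T hT v (Finset.mem_filter.1 hv).2) _ hs

theorem UX_sq (S : Finset (HeightOneSpectrum (𝓞 K))) {x y : Kˣ} (hx : IsSquare x)
    (hy : IsSquare y) (s : ℂ) : UX D a S x s = UX D a S y s := by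
  classical
  have h1 : dd x = dd y := by
    unfold dd
    rw [dif_pos hx, dif_pos hy]
  have h2 : cdx D x = cdx D y := by
    unfold cdx
    rw [dif_pos hx, dif_pos hy]
  have h3 : plx D x s = plx D y s := by
    unfold plx
    rw [dif_pos hx, dif_pos hy]
  have h4 : ∀ v, tt x v = tt y v := by
    intro v
    unfold tt
    rw [dif_pos hx, dif_pos hy]
  unfold UX
  simp only [h1, h2, h3, h4]

theorem exists_Om {T1 : Finset ℕ} {S : Finset (HeightOneSpectrum (𝓞 K))} (hS : Nic T1 S)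
    (hST : ∀ v, ¬ Away K T v → v ∈ S) (hT : ∀ p : ℕ, p.Prime → p < 101 → p ∈ T)
    (ha : ∀ q : ℕ, |a q| ≤ 2 * Real.sqrt q) (ha2 : SqRel K T a) {x0 y0 r : ℝ} {om : ℂ → ℂ}
    {La : Kˣ → ℂ → ℂ} (hF : IsFam D a S x0 y0 r om La) :
    ∃ T' : OmD (sys S D a), T'.x0 = x0 ∧ T'.y0 = y0 ∧ T'.r = r ∧ T'.om = om ∧
      IsOm (sys S D a) T' ∧ ∀ (b : (sys S D a).J) (c : (sys S D a).G), (sys S D a).R b c →
        ∃ x : Kˣ, (IsSquare x ↔ (sys S D a).Sq b c) ∧
          ∀ t : ℂ, T'.e b c t = La x t * UX D a S x t := by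
  classical
  have h2 : ∀ v : HeightOneSpectrum (𝓞 K), (2 : 𝓞 K) ∈ v.asIdeal → v ∈ S := by
    intro v hv
    by_contra h
    exact nic_two hS v h hv
  set e : (Io S →₀ ℕ) → GS S → ℂ → ℂ := fun b c t =>
    if h : Rel S b c then La h.choose t * UX D a S h.choose t else 0 with he
  have he1 : ∀ (b : Io S →₀ ℕ) (c : GS S), Rel S b c → ∃ x : Kˣ,
      (∀ v : Io S, ordK v.1 x = (b v : ℤ)) ∧ (QuotientGroup.mk x : GS S) = c ∧
        e b c = fun t => La x t * UX D a S x t := by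
    intro b c h
    refine ⟨h.choose, h.choose_spec.1, h.choose_spec.2, ?_⟩
    funext t
    rw [he]
    exact dif_pos h
  refine ⟨{ x0 := x0, y0 := y0, r := r, om := om, e := e }, rfl, rfl, rfl, rfl, ?_, ?_⟩
  · constructor
    · exact hF.hr
    · exact hF.om_diff
    · intro b c h
      obtain ⟨x, hx, hc, hex⟩ := he1 b c h
      show DifferentiableOn ℂ (e b c) {t : ℂ | x0 < t.re ∧ |t.im - y0| < r}
      rw [hex]
      exact (hF.diff x).mul (ok_UX_diff D a S x).differentiableOn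
    · intro b c h t ht ht2
      obtain ⟨x, hx, hc, hex⟩ := he1 b c h
      have ht' : x0 < t.re ∧ |t.im - y0| < r := ht
      show e b c t = om t * (_ * _)
      rw [hex]
      show La x t * UX D a S x t = _
      rw [hF.eq x t ht'.1 ht'.2 ht2, mul_assoc, ok_LX_UX D S h2 hST hT ha ha2 x ht2]
      congr 2
      refine tprod_congr fun v => ?_
      show _ = Pool.Agent.QD.In.ef a (nrm v.1) (uc S v b c) t
      rw [uc_of hS hx hc v]
    · intro Q hQ hQs
      obtain ⟨A, C, hA, hC, hb⟩ := hF.bd Q hQ hQs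
      obtain ⟨C', hC', hb'⟩ := ok_UX_bd D a S h2 hST hQ (fun t ht => by
        have h1 : x0 < t.re ∧ |t.im - y0| < r := hQs ht
        have h3 := hF.hx0
        linarith [h1.1])
      refine ⟨A, C * C', hA, mul_nonneg hC hC', fun b c h t ht => ?_⟩
      obtain ⟨x, hx, hc, hex⟩ := he1 b c h
      show ‖e b c t‖ ≤ _
      rw [hex]
      show ‖La x t * UX D a S x t‖ ≤ _
      rw [norm_mul]
      have h4 : (oddN S x : ℝ) ^ A ≤ ((sys S D a).nJ b : ℝ) ^ A := by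
        refine Real.rpow_le_rpow (Nat.cast_nonneg _) ?_ hA
        exact_mod_cast (ok_odd_le S hx)
      calc ‖La x t‖ * ‖UX D a S x t‖ ≤ (C * (oddN S x : ℝ) ^ A) * C' :=
            mul_le_mul (hb x t ht) (hb' x t ht) (norm_nonneg _)
              (mul_nonneg hC (Real.rpow_nonneg (Nat.cast_nonneg _) _))
        _ ≤ (C * ((sys S D a).nJ b : ℝ) ^ A) * C' := by gcongr
        _ = C * C' * ((sys S D a).nJ b : ℝ) ^ A := by ring
  · intro b c h
    obtain ⟨x, hx, hc, hex⟩ := he1 b c h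
    refine ⟨x, ?_, fun t => ?_⟩
    · rw [square_iff hS x]
      constructor
      · rintro ⟨h3, h4⟩
        refine ⟨?_, fun v => ?_⟩
        · exact hc.symm.trans h4
        · have h5 := h3 v
          rw [hx v] at h5
          exact_mod_cast h5
      · rintro ⟨h3, h4⟩
        refine ⟨fun v => ?_, ?_⟩
        · rw [hx v]
          exact_mod_cast (h4 v)
        · rw [hc]
          exact h3
    · show e b c t = _
      rw [hex]

end Pool.Agent.THF
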