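import Pool.Agent.THF.K.LXc
import Pool.Agent.THF.K.OmK

/-!
# THF/K-Fam1: the family for step 1 (`om = 1`, `Re t > 3/2`)

The family is `LX` itself (analytic by `LX_diff`, bounded on compact sets by `LX_up`, `gam1_up`).
-/

namespace Pool.Agent.THF

open NumberField IsDedekindDomain Pool.Agent.HWR Pool.Agent.QD Pool.Agent.QD.In Pool.Agent.LD
  Pool.Agent.MD

private theorem Fam1_two {K : Type} [Field K] [NumberField K] {T : Finset ℕ}
    {S : Finset (HeightOneSpectrum (𝓞 K))} (hST : ∀ v, ¬ Away K T v → v ∈ S)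
    (hT : ∀ p : ℕ, p.Prime → p < 101 → p ∈ T) (v : HeightOneSpectrum (𝓞 K))
    (hv : (2 : 𝓞 K) ∈ v.asIdeal) : v ∈ S := by
  refine hST v fun h => ?_
  refine h 2 (hT 2 Nat.prime_two (by norm_num)) ?_
  exact_mod_cast hv

theorem fam1 {K : Type} [Field K] [NumberField K] {T : Finset ℕ} (D : LocData T) {a : ℕ → ℝ}
    {T1 : Finset ℕ} {S : Finset (HeightOneSpectrum (𝓞 K))} (hS : Nic T1 S)
    (hST : ∀ v, ¬ Away K T v → v ∈ S) (hT : ∀ p : ℕ, p.Prime → p < 101 → p ∈ T)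
    (ha : ∀ q : ℕ, |a q| ≤ 2 * Real.sqrt q) (y0 : ℝ) :
    IsFam D a S (3 / 2) y0 1 (fun _ => 1) (LX D a) where
  hr := one_pos
  hx0 := by norm_num
  om_diff := differentiableOn_const _
  diff x := (LX_diff D hT ha x).mono fun t ht => ht.1
  eq x t _ _ _ := by rw [one_mul]
  bd Q hQ hQs := by
    rcases Q.eq_empty_or_nonempty with rfl | hne
    · exact ⟨0, 0, le_rfl, le_rfl, fun x t ht => ht.elim⟩
    obtain ⟨t1, ht1, hmin⟩ := hQ.exists_isMinOn hne Complex.continuous_re.continuousOn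
    obtain ⟨t2, ht2, hmax⟩ := hQ.exists_isMaxOn hne Complex.continuous_re.continuousOn
    have hx1 : 3 / 2 < t1.re := (hQs ht1).1
    obtain ⟨A, C, hA, hC, hb⟩ := LX_up D S (Fam1_two hST hT) hS hST hT ha (x2 := t2.re) hx1
    obtain ⟨G, hG, hg⟩ := gam1_up (x1 := t1.re) (x2 := t2.re) (by linarith)
    refine ⟨A, C * G ^ (2 * Module.finrank ℚ K), hA, by positivity, fun x t ht => ?_⟩
    have h1 : t1.re ≤ t.re := hmin ht
    have h2 : t.re ≤ t2.re := hmax ht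
    have h3 : ‖gam1 t‖ ^ (2 * Module.finrank ℚ K) ≤ G ^ (2 * Module.finrank ℚ K) :=
      pow_le_pow_left₀ (norm_nonneg _) (hg t h1 h2) _
    have h4 : 0 ≤ C * (oddN S x : ℝ) ^ A :=
      mul_nonneg hC (Real.rpow_nonneg (Nat.cast_nonneg _) _)
    calc ‖LX D a x t‖ ≤ C * (oddN S x : ℝ) ^ A * ‖gam1 t‖ ^ (2 * Module.finrank ℚ K) := hb x t h1 h2
      _ ≤ C * (oddN S x : ℝ) ^ A * G ^ (2 * Module.finrank ℚ K) := mul_le_mul_of_nonneg_left h3 h4
      _ = C * G ^ (2 * Module.finrank ℚ K) * (oddN S x : ℝ) ^ A := by ring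

end Pool.Agent.THF
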