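import Pool.Agent.THF.K.Defs

/-!
# THF/K-Std: the standard set of places containing `V`

PLAN.  `exists_good` (QD/In/Ex): `T1`, `S0`; `S = V ∪ S0` (`Nic T1 S` with `S' = S0`); places not away from `T` are in `S0` (as in `instS`, MD/S/Inst2).
-/

namespace Pool.Agent.THF

open NumberField IsDedekindDomain Pool.Agent.HWR Pool.Agent.QD Pool.Agent.QD.In Pool.Agent.LD
  Pool.Agent.MD

theorem exists_S (K : Type) [Field K] [NumberField K] (T : Finset ℕ) (hTp : ∀ p ∈ T, p.Prime)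
    (h2 : 2 ∈ T) (V : Finset (HeightOneSpectrum (𝓞 K))) :
    ∃ (T1 : Finset ℕ) (S : Finset (HeightOneSpectrum (𝓞 K))), Nic T1 S ∧
      (∀ v, ¬ Away K T v → v ∈ S) ∧ V ⊆ S := by
  classical
  obtain ⟨T1, S0, hTT, hT1p, hO, hG⟩ := exists_good K T hTp h2
  refine ⟨T1, V ∪ S0, ⟨hT1p, hTT h2, S0, hO, hG, Finset.subset_union_right⟩, ?_,
    Finset.subset_union_left⟩
  intro v hv
  exact Finset.mem_union_right _ ((hO v).2 fun h => hv fun p hp => h p (hTT hp))

end Pool.Agent.THF
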