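import Pool.Agent.THF.K.OmK
import Pool.Agent.THF.K.IsKn
import Pool.Agent.THF.K.Ex
import Pool.Agent.THF.A.N1
import Pool.Agent.MD.S.Inst2
import Pool.Agent.MD.S.Bfun

/-!
# THF/K-SymN: the function `N` on the number field side

PLAN.  `exists_KN`: `z`, class `c = mk z ∈ KNc S V` (`mem_KNc`).  `isSys0` (LD/I/Sys0), `isKnN`, `IsExt (sys S D a)`: as in `instS` (MD/S/Inst2): `zext_one`, `zext_ne`, `zext_ext`, `GGX_mid`, `GGX_mid_ne`.  `hfam` and `exists_Om` give the hypothesis `hT` of `exists_N` (`x0`, `y`, `r = 1`, `om = 1`): `N`, `A`.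
As in `symK` (MD/S/SymK.lean): `exists_b` (MD/S/Bfun) with `F = S.filter (Away K T)`, `hLs` from `LT_split` (see `instS`): `Ls s = b s * Lam s` for `Re s > 3/2`; `SP = Sym * ∏ sfac` (`instS`, last part; `i2_split` is private there: copy).  `Z` from `zeta_fe K` (QD/N1Main): `Z w = (w - 1) ZP K w`;
`Z1 w = ∏' v : Io S, (1 - N^(-w))⁻¹ = ZP K w * ∏ v ∈ S, (1 - (nrm v)^(-w))` (`tprod_split`, see the proof of `zext_ext`, MD/S/ZExt), so `(2 s - 2)^2 Z1 (2 s - 1) = (2 s - 2) Z (2 s - 1) ∏ v ∈ S, (1 - (nrm v)^(-(2 s - 1)))`.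
`B1 s = cU⁻¹ * Zf 0 1 1 * b s * b (s + 1/2) * ∏ v ∈ S, (1 - (nrm v : ℂ)^(-(2 s - 1))) * ∏ v ∈ F, (sfac ..)⁻¹`: differentiable, nonzero for `Re s > 1/2` (`(nrm v)^(-(2s-1))` has modulus `< 1`; `sfac_ne`, `sfac_diff`; `hE.Z_ne`, `cU_ne`).
-/

namespace Pool.Agent.THF

open NumberField IsDedekindDomain Pool.Agent.HWR Pool.Agent.QD Pool.Agent.QD.In Pool.Agent.LD
  Pool.Agent.MD

private theorem sn_away {K : Type} [Field K] [NumberField K] {T : Finset ℕ}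
    (S : Finset (HeightOneSpectrum (𝓞 K))) (hST : ∀ v, ¬ Away K T v → v ∈ S) (v : Io S) :
    Away K T v.1 := by
  by_contra h
  exact v.2 (hST v.1 h)

private theorem sn_sum {K : Type} [Field K] [NumberField K] {T : Finset ℕ}
    (x : ℝ) (hx : 1 < x) :
    Summable fun v : {v : HeightOneSpectrum (𝓞 K) // Away K T v} => (nrm v.1 : ℝ) ^ (-x) :=
  (summable_nrm K hx).comp_injective (Subtype.val_injective (p := fun w => Away K T w))

open Classical in
private theorem sn_split {K : Type} [Field K] [NumberField K] {T : Finset ℕ}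
    (S : Finset (HeightOneSpectrum (𝓞 K))) (hST : ∀ v, ¬ Away K T v → v ∈ S)
    (f : HeightOneSpectrum (𝓞 K) → ℂ)
    (hf : Summable fun v : {v : HeightOneSpectrum (𝓞 K) // Away K T v} => ‖f v.1 - 1‖) :
    ∏' v : {v : HeightOneSpectrum (𝓞 K) // Away K T v}, f v.1 =
      (∏ v ∈ S with Away K T v, f v) * ∏' v : Io S, f v.1 := by
  have h1 := tprod_split (S.subtype fun v => Away K T v) (fun v => f v.1) hf
  rw [h1]
  congr 1
  · rw [← Finset.prod_subtype_eq_prod_filter]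
  · have hmem : ∀ v : Io S, (⟨v.1, sn_away S hST v⟩ :
        {v : HeightOneSpectrum (𝓞 K) // Away K T v}) ∉ S.subtype fun v => Away K T v := by
      intro v h
      rw [Finset.mem_subtype] at h
      exact v.2 h
    let e : {v : {v : HeightOneSpectrum (𝓞 K) // Away K T v} //
        v ∉ S.subtype fun v => Away K T v} ≃ Io S :=
      { toFun := fun v => ⟨v.1.1, fun h => v.2 (Finset.mem_subtype.2 h)⟩
        invFun := fun v => ⟨⟨v.1, sn_away S hST v⟩, hmem v⟩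
        left_inv := fun v => Subtype.ext (Subtype.ext rfl)
        right_inv := fun v => Subtype.ext rfl }
    exact Equiv.tprod_eq e (fun v : Io S => f v.1)

private theorem sn_nrm {K : Type} [Field K] [NumberField K] (v : HeightOneSpectrum (𝓞 K)) :
    2 ≤ nrm v := by
  have h1 := nrm_ne_zero v
  have h2 := nrm_ne_one v
  omega

private theorem sn_ne {K : Type} [Field K] [NumberField K] (v : HeightOneSpectrum (𝓞 K)) {w : ℂ}
    (hw : 0 < w.re) : (1 : ℂ) - (nrm v : ℂ) ^ (-w) ≠ 0 := by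
  intro h0
  have h5 : ‖(nrm v : ℂ) ^ (-w)‖ = 1 := by
    rw [← sub_eq_zero.1 h0, norm_one]
  rw [Complex.norm_natCast_cpow_of_pos (Nat.pos_of_ne_zero (nrm_ne_zero v)), Complex.neg_re] at h5
  have h6 : (1 : ℝ) < nrm v := by
    have := sn_nrm v
    exact_mod_cast this
  have h7 : (nrm v : ℝ) ^ (-w.re) < 1 := Real.rpow_lt_one_of_one_lt_of_neg h6 (by linarith)
  linarith

private theorem sn_zsum {K : Type} [Field K] [NumberField K] {w : ℂ} (hw : 1 < w.re) :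
    Summable fun v : HeightOneSpectrum (𝓞 K) => ‖(1 - (nrm v : ℂ) ^ (-w))⁻¹ - 1‖ := by
  refine Summable.of_nonneg_of_le (fun v => norm_nonneg _) (fun v => ?_)
    ((summable_nrm K hw).mul_left 2)
  have hq : (2 : ℝ) ≤ nrm v := by exact_mod_cast sn_nrm v
  have hn : ‖(nrm v : ℂ) ^ (-w)‖ = (nrm v : ℝ) ^ (-w.re) := by
    rw [Complex.norm_natCast_cpow_of_pos (Nat.pos_of_ne_zero (nrm_ne_zero v)), Complex.neg_re]
  have hle : ‖(nrm v : ℂ) ^ (-w)‖ ≤ 1 / 2 := by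
    rw [hn]
    calc (nrm v : ℝ) ^ (-w.re) ≤ (nrm v : ℝ) ^ (-1 : ℝ) :=
          Real.rpow_le_rpow_of_exponent_le (by linarith) (by linarith)
      _ = (nrm v : ℝ)⁻¹ := Real.rpow_neg_one _
      _ ≤ 1 / 2 := by
          rw [one_div]
          exact inv_anti₀ (by norm_num) hq
  have hne := sn_ne v (w := w) (by linarith)
  have h1 : (1 - (nrm v : ℂ) ^ (-w))⁻¹ - 1 = (nrm v : ℂ) ^ (-w) * (1 - (nrm v : ℂ) ^ (-w))⁻¹ := by
    field_simp
    ring
  have h2 : (1 : ℝ) / 2 ≤ ‖1 - (nrm v : ℂ) ^ (-w)‖ := by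
    have := norm_sub_norm_le (1 : ℂ) ((nrm v : ℂ) ^ (-w))
    rw [norm_one] at this
    linarith
  rw [h1, norm_mul, norm_inv, hn, mul_comm]
  refine mul_le_mul_of_nonneg_right ?_ (by positivity)
  calc ‖1 - (nrm v : ℂ) ^ (-w)‖⁻¹ ≤ (1 / 2 : ℝ)⁻¹ := inv_anti₀ (by norm_num) h2
    _ = 2 := by norm_num

theorem symN {K : Type} [Field K] [NumberField K] {T : Finset ℕ} (hTp : ∀ p ∈ T, p.Prime)
    (hT : ∀ p : ℕ, p.Prime → p < 101 → p ∈ T) (D : LocData T) {a : ℕ → ℝ}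
    (ha : ∀ q : ℕ, |a q| ≤ 2 * Real.sqrt q) (ha2 : SqRel K T a)
    {T1 : Finset ℕ} {S V : Finset (HeightOneSpectrum (𝓞 K))} (hS : Nic T1 S)
    (hST : ∀ v, ¬ Away K T v → v ∈ S) (hV : V ⊆ S) (hVT : ∀ v ∈ V, Away K T v)
    (hne : V.Nonempty) (H : HWN D a V) {x0 : ℝ} (hx0 : 1 / 2 ≤ x0)
    (hfam : ∀ y0 : ℝ, ∃ La : Kˣ → ℂ → ℂ, IsFam D a S x0 y0 1 (fun _ => 1) La) :
    ∃ (N B1 Z : ℂ → ℂ) (A : ℝ), DifferentiableOn ℂ N {s : ℂ | x0 - 1 / 2 < s.re} ∧
      DifferentiableOn ℂ B1 {s : ℂ | 1 / 2 < s.re} ∧ (∀ s : ℂ, 1 / 2 < s.re → B1 s ≠ 0) ∧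
      Differentiable ℂ Z ∧ Z 1 ≠ 0 ∧ (∀ w : ℂ, 1 < w.re → Z w = (w - 1) * ZP K w) ∧
      ∀ s : ℂ, A < s.re → x0 - 1 / 2 < s.re → N s = B1 s * ((2 * s - 2) * Z (2 * s - 1)) *
        (D.Lam a K s * D.Lam a K (s + 1 / 2)) * SP K a T s := by
  classical
  have h2T : 2 ∈ T := hT 2 Nat.prime_two (by norm_num)
  obtain ⟨z, hz, -⟩ := exists_KN K T hTp h2T V hVT
  have hc : (QuotientGroup.mk z : GS S) ∈ KNc S V := (mem_KNc hV z).2 hz
  have hS0 : IsSys0 (sys S D a) := isSys0 D hS hST hT ha ha2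
  have hG := isKnN D hS hST hT ha ha2 hV hne H
  have hE : IsExt (sys S D a) :=
    { Z_one := fun m g h hn => zext_one D hS m g h hn
      Z_ne := zext_ne D hS
      Z1_ext := zext_ext D S
      GG_mid := fun c => ⟨GGX_mid D S hT ha (Quotient.out c),
        fun s h1 h2 => GGX_mid_ne D S hT ha (Quotient.out c) h1 h2⟩ }
  have hTy : ∀ y : ℝ, ∃ T' : OmD (sys S D a), T'.x0 = x0 ∧ T'.y0 = y ∧ T'.r = 1 ∧
      (T'.om = fun _ => 1) ∧ IsOm (sys S D a) T' := by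
    intro y
    obtain ⟨La, hLa⟩ := hfam y
    obtain ⟨T', h1, h2, h3, h4, h5, -⟩ := exists_Om D a hS hST hT ha ha2 hLa
    exact ⟨T', h1, h2, h3, h4, h5⟩
  obtain ⟨N, A, hNd, hNe⟩ := exists_N hS0 hE hG hc hTy
  have hF : ∀ v ∈ S.filter (fun v => Away K T v), Away K T v := fun v hv =>
    (Finset.mem_filter.1 hv).2
  have hLs : ∀ s : ℂ, 3 / 2 < s.re → LT K a T s = (sys S D a).Ls s *
      ∏ v ∈ S.filter (fun v => Away K T v), efac a (nrm v) s := by
    intro s hs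
    rw [LT_split S hST hT ha hs]
    rfl
  obtain ⟨b, hbd, hbn, hbe⟩ := exists_b K T hTp hT D a ha (sys S D a) _ hF hLs
  obtain ⟨Z, hZd, -, hZ1, hZe, -⟩ := zeta_fe K
  have hq : ∀ v, Away K T v → 101 ≤ nrm v := fun v hv => nrm_away K T hT v hv
  have hq0 : ∀ v : HeightOneSpectrum (𝓞 K), (nrm v : ℂ) ≠ 0 := fun v => by
    exact_mod_cast nrm_ne_zero v
  set F := S.filter (fun v => Away K T v) with hFdef
  set B1 : ℂ → ℂ := fun s => ((sys S D a).cU : ℂ)⁻¹ * (sys S D a).Zf 0 1 1 *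
    (b s * b (s + 1 / 2)) * (∏ v ∈ S, (1 - (nrm v : ℂ) ^ (-(2 * s - 1)))) *
    ∏ v ∈ F, (sfac (nrm v) (a (nrm v)) s)⁻¹ with hB1
  have hre : ∀ s : ℂ, (s + 1 / 2 : ℂ).re = s.re + 1 / 2 := fun s => by
    rw [Complex.add_re]
    norm_num
  have hre2 : ∀ s : ℂ, (2 * s - 1 : ℂ).re = 2 * s.re - 1 := fun s => by
    rw [Complex.sub_re, Complex.mul_re]
    norm_num
  refine ⟨N, B1, Z, max A 6, hNd, ?_, ?_, hZd, hZ1, hZe, ?_⟩
  · rw [hB1]
    refine DifferentiableOn.mul (DifferentiableOn.mul (DifferentiableOn.const_mul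
      (hbd.mul ?_) _) ?_) ?_
    · refine hbd.comp (differentiable_id.add (differentiable_const (1 / 2))).differentiableOn ?_
      intro s hs
      have h1 : 1 / 2 < s.re := hs
      show 1 / 2 < (s + 1 / 2 : ℂ).re
      rw [hre]
      linarith
    · refine Differentiable.differentiableOn ?_
      refine Differentiable.fun_finset_prod fun v _ => ?_
      refine (differentiable_const 1).sub ?_
      intro s
      refine DifferentiableAt.const_cpow ?_ (Or.inl (hq0 v))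
      fun_prop
    · refine Differentiable.differentiableOn ?_
      exact Differentiable.fun_finset_prod fun v hv => sfac_diff (hq _ (hF v hv)) (ha _)
  · intro s hs
    have h3 : b s ≠ 0 := hbn _ hs
    have h4 : b (s + 1 / 2) ≠ 0 := hbn _ (by rw [hre]; linarith)
    show ((sys S D a).cU : ℂ)⁻¹ * (sys S D a).Zf 0 1 1 *
      (b s * b (s + 1 / 2)) * (∏ v ∈ S, (1 - (nrm v : ℂ) ^ (-(2 * s - 1)))) *
      ∏ v ∈ F, (sfac (nrm v) (a (nrm v)) s)⁻¹ ≠ 0
    refine mul_ne_zero (mul_ne_zero (mul_ne_zero (mul_ne_zero (inv_ne_zero (LD.cU_ne hS0)) hE.Z_ne)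
      (mul_ne_zero h3 h4)) ?_) ?_
    · exact Finset.prod_ne_zero_iff.2 fun v _ => sn_ne v (by rw [hre2]; linarith)
    · exact Finset.prod_ne_zero_iff.2 fun v hv => inv_ne_zero (sfac_ne (hq _ (hF v hv)) (ha _) hs)
  · intro s hs1 hs2
    have hsA : A < s.re := lt_of_le_of_lt (le_max_left _ _) hs1
    have hs6 : 6 < s.re := lt_of_le_of_lt (le_max_right _ _) hs1
    have h4 : (sys S D a).Ls s = b s * D.Lam a K s := hbe s (by linarith)
    have h5 : (sys S D a).Ls (s + 1 / 2) = b (s + 1 / 2) * D.Lam a K (s + 1 / 2) :=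
      hbe _ (by rw [hre]; linarith)
    have h6 : (2 * s - 2) ^ 2 * (sys S D a).Z1 (2 * s - 1) = (2 * s - 2) * Z (2 * s - 1) *
        ∏ v ∈ S, (1 - (nrm v : ℂ) ^ (-(2 * s - 1))) := by
      have hw : 1 < (2 * s - 1 : ℂ).re := by rw [hre2]; linarith
      rw [hZe _ hw]
      have hsplit := tprod_split S
        (fun v : HeightOneSpectrum (𝓞 K) => (1 - (nrm v : ℂ) ^ (-(2 * s - 1)))⁻¹) (sn_zsum hw)
      have h8 : (∏ v ∈ S, (1 - (nrm v : ℂ) ^ (-(2 * s - 1)))⁻¹) *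
          ∏ v ∈ S, (1 - (nrm v : ℂ) ^ (-(2 * s - 1))) = 1 := by
        rw [← Finset.prod_mul_distrib]
        exact Finset.prod_eq_one fun v _ => inv_mul_cancel₀ (sn_ne v (by linarith))
      unfold ZP
      rw [hsplit]
      show (2 * s - 2) ^ 2 * ∏' v : Io S, (1 - (nrm v.1 : ℂ) ^ (-(2 * s - 1)))⁻¹ = _
      calc (2 * s - 2) ^ 2 * ∏' v : Io S, (1 - (nrm v.1 : ℂ) ^ (-(2 * s - 1)))⁻¹
          = (2 * s - 2) ^ 2 * (∏' v : Io S, (1 - (nrm v.1 : ℂ) ^ (-(2 * s - 1)))⁻¹) *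
            ((∏ v ∈ S, (1 - (nrm v : ℂ) ^ (-(2 * s - 1)))⁻¹) *
              ∏ v ∈ S, (1 - (nrm v : ℂ) ^ (-(2 * s - 1)))) := by rw [h8, mul_one]
        _ = _ := by ring
    have hSP : SP K a T s = Sym (sys S D a) s * ∏ v ∈ F, sfac (nrm v) (a (nrm v)) s := by
      have hg := gen_sum (fun v : {v : HeightOneSpectrum (𝓞 K) // Away K T v} => nrm v.1)
        (fun v => a (nrm v.1)) (fun v => nrm_ge K T hT v.1 v.2) (fun v => ha _)
        (fun x hx => sn_sum x hx) (s := s) (by linarith)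
      unfold SP
      rw [sn_split S hST (fun v => sfac (nrm v) (a (nrm v)) s) hg, mul_comm]
      rfl
    have h7 : Sym (sys S D a) s = SP K a T s * ∏ v ∈ F, (sfac (nrm v) (a (nrm v)) s)⁻¹ := by
      rw [hSP, Finset.prod_inv_distrib, mul_assoc, mul_inv_cancel₀, mul_one]
      exact Finset.prod_ne_zero_iff.2 fun v hv => sfac_ne (hq _ (hF v hv)) (ha _) (by linarith)
    rw [hNe s hsA hs2, h4, h5, h6, h7, hB1]
    ring

end Pool.Agent.THF
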