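import Mathlib

/-!
# THF/K-Div: LEMMA 4.1, division of bounded functions on a disc

PLAN (see QD/F/Growth.lean, `finOrd_quot`, the same argument; its private lemmas on disc means and Jensen's inequality may be copied).  Let `R2 = (R + R')/2`, `ε = (R - R')/2`.
(1) For `s ∈ closedBall s1 R'`: `log⁺ ‖g s‖ ≤` mean of `log⁺ ‖g‖` over `ball s ε ⊆ ball s1 R2` (subharmonicity) `≤ (R2/ε)^2 *` mean of `log⁺ ‖g‖` over `ball s1 R2`.
(2) `log⁺ ‖g‖ ≤ log⁺ ‖f‖ + log⁺ ‖h‖⁻¹` almost everywhere (where `h ≠ 0`), `log⁺ ‖h‖⁻¹ = log⁺ ‖h‖ - log ‖h‖`; the mean of `log ‖h‖` over the ball is `≥ log ‖h s1‖ ≥ - log M` (Jensen).  So the mean of `log⁺ ‖g‖` is at most `3 log M`.  `κ = 3 (R2/ε)^2`.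
-/

namespace Pool.Agent.THF

open MeasureTheory Metric Set Filter Real

private theorem div_ball_circ {u : ℂ → ℝ} (hu : Continuous u) (c : ℂ) {R : ℝ} (hR : 0 ≤ R) :
    ∫ z in ball c R, u z = ∫ r in (0:ℝ)..R, 2 * π * r * circleAverage u c r := by
  have h1 : ∫ z in ball c R, u z = ∫ z, (ball c R).indicator u (z + c) := by
    rw [integral_add_right_eq_self (fun z => (ball c R).indicator u z) c]
    rw [integral_indicator measurableSet_ball]
  rw [h1, ← Complex.integral_comp_polarCoord_symm]
  have h2 : ∀ p ∈ polarCoord.target, p.1 • (ball c R).indicator u (Complex.polarCoord.symm p + c) =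
      (Iio R ×ˢ (univ : Set ℝ)).indicator (fun p : ℝ × ℝ => p.1 * u (circleMap c p.1 p.2)) p := by
    intro p hp
    have hp1 : 0 < p.1 := by
      simpa using hp.1
    have e1 : Complex.polarCoord.symm p + c = circleMap c p.1 p.2 := by
      rw [Complex.polarCoord_symm_apply, circleMap, Complex.exp_mul_I]
      push_cast
      ring
    rw [e1]
    by_cases hlt : p.1 < R
    · have m1 : circleMap c p.1 p.2 ∈ ball c R := by
        rw [mem_ball, dist_eq_norm]
        simp [abs_of_pos hp1, hlt]
      rw [indicator_of_mem m1, indicator_of_mem (by exact ⟨hlt, mem_univ _⟩), smul_eq_mul]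
    · have m1 : circleMap c p.1 p.2 ∉ ball c R := by
        rw [mem_ball, dist_eq_norm]
        simpa [abs_of_pos hp1] using hlt
      rw [indicator_of_notMem m1, indicator_of_notMem (by rintro ⟨h, -⟩; exact hlt h), smul_zero]
  rw [setIntegral_congr_fun (by exact polarCoord.open_target.measurableSet) h2,
    integral_indicator (measurableSet_Iio.prod MeasurableSet.univ),
    Measure.restrict_restrict (measurableSet_Iio.prod MeasurableSet.univ)]
  have h3 : (Iio R ×ˢ (univ : Set ℝ)) ∩ polarCoord.target = Ioo 0 R ×ˢ Ioo (-π) π := by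
    rw [polarCoord_target]
    ext p
    simp only [mem_inter_iff, mem_prod, mem_Iio, mem_univ, mem_Ioi, mem_Ioo]
    tauto
  rw [h3, Measure.volume_eq_prod, setIntegral_prod]
  · rw [intervalIntegral.integral_of_le hR, integral_Ioc_eq_integral_Ioo]
    refine setIntegral_congr_fun measurableSet_Ioo fun r hr => ?_
    show ∫ θ in Ioo (-π) π, r * u (circleMap c r θ) = _
    rw [circleAverage_eq_integral_add (-π), intervalIntegral.integral_comp_add_right
      (fun θ => u (circleMap c r θ)), integral_const_mul, ← integral_Ioc_eq_integral_Ioo,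
      ← intervalIntegral.integral_of_le (by linarith [Real.pi_pos]), smul_eq_mul]
    have e2 : (2 * π + -π) = π := by ring
    have e3 : (0 : ℝ) + -π = -π := by ring
    rw [e2, e3]
    have := Real.pi_pos
    field_simp
  · have hc : Continuous fun p : ℝ × ℝ => p.1 * u (circleMap c p.1 p.2) := by
      have : Continuous fun p : ℝ × ℝ => circleMap c p.1 p.2 := circleMap.continuous
      exact continuous_fst.mul (hu.comp this)
    have : IntegrableOn (fun p : ℝ × ℝ => p.1 * u (circleMap c p.1 p.2))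
        (Icc 0 R ×ˢ Icc (-π) π) := hc.continuousOn.integrableOn_compact
          (isCompact_Icc.prod isCompact_Icc)
    exact this.mono_set (prod_mono Ioo_subset_Icc_self Ioo_subset_Icc_self)

private theorem div_jensen {h : ℂ → ℂ} {c : ℂ} {r : ℝ} (han : AnalyticOnNhd ℂ h (closedBall c |r|))
    (hc : h c ≠ 0) (hr : 0 < r) : Real.log ‖h c‖ ≤ circleAverage (Real.log ‖h ·‖) c r := by
  rw [AnalyticOnNhd.circleAverage_log_norm hr.ne' han hc]
  have : 0 ≤ ∑ᶠ u, (MeromorphicOn.divisor h (closedBall c |r|) u : ℝ) *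
      Real.log (r * ‖c - u‖⁻¹) := by
    refine finsum_nonneg fun u => ?_
    by_cases hu : u ∈ closedBall c |r|
    · refine mul_nonneg (by exact_mod_cast MeromorphicOn.AnalyticOnNhd.divisor_nonneg han u) ?_
      rcases eq_or_ne u c with rfl | hne
      · simp
      · have h0 : 0 < ‖c - u‖ := norm_pos_iff.mpr (sub_ne_zero.mpr hne.symm)
        refine Real.log_nonneg ?_
        rw [← div_eq_mul_inv, one_le_div h0]
        rw [mem_closedBall, dist_comm, dist_eq_norm, abs_of_pos hr] at hu
        exact hu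
    · rw [Function.locallyFinsuppWithin.apply_eq_zero_of_notMem _ hu]
      simp
  linarith

private theorem div_mero {h : ℂ → ℂ} {c : ℂ} {r : ℝ}
    (han : AnalyticOnNhd ℂ h (closedBall c |r|)) : MeromorphicOn h (sphere c |r|) :=
  fun z hz => (han z (sphere_subset_closedBall hz)).meromorphicAt

private theorem div_posLog {h : ℂ → ℂ} {c : ℂ} {r : ℝ}
    (han : AnalyticOnNhd ℂ h (closedBall c |r|)) (hr : 0 < r) :
    Real.posLog ‖h c‖ ≤ circleAverage (fun z => Real.posLog ‖h z‖) c r := by
  have hnn : 0 ≤ circleAverage (fun z => Real.posLog ‖h z‖) c r :=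
    circleAverage_nonneg_of_nonneg fun _ _ => Real.posLog_nonneg
  by_cases hc : h c = 0
  · rw [hc]
    simpa using hnn
  · rw [Real.posLog_apply]
    refine max_le hnn ((div_jensen han hc hr).trans ?_)
    refine circleAverage_mono (div_mero han).circleIntegrable_log_norm
      (div_mero han).circleIntegrable_posLog_norm fun z _ => ?_
    rw [Real.posLog_apply]
    exact le_max_right _ _

private theorem div_circ {f g h : ℂ → ℂ} {c : ℂ} {r : ℝ}
    (hg : AnalyticOnNhd ℂ g (closedBall c |r|)) (hh : AnalyticOnNhd ℂ h (closedBall c |r|))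
    (he : ∀ z ∈ closedBall c |r|, g z * h z = f z) (hc : h c ≠ 0) (hr : 0 < r) {A B : ℝ}
    (hA : ∀ z ∈ sphere c |r|, Real.posLog ‖f z‖ ≤ A)
    (hB : ∀ z ∈ sphere c |r|, Real.posLog ‖h z‖ ≤ B) :
    circleAverage (fun z => Real.posLog ‖g z‖) c r ≤ A + B - Real.log ‖h c‖ := by
  have hcod : ∀ᶠ z in codiscreteWithin (sphere c |r|), h z ≠ 0 := by
    have h1 : h ⁻¹' {0}ᶜ ∈ codiscreteWithin (closedBall c |r|) :=
      AnalyticOnNhd.preimage_zero_mem_codiscreteWithin hh hc
        (mem_closedBall_self (abs_nonneg r))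
        ⟨⟨c, mem_closedBall_self (abs_nonneg r)⟩,
          (convex_closedBall c |r|).isPreconnected⟩
    exact codiscreteWithin_mono sphere_subset_closedBall h1
  set ψ : ℂ → ℝ := fun z => A + B - Real.log ‖h z‖ with hψ
  have hψi : CircleIntegrable ψ c r :=
    (circleIntegrable_const (A + B) c r).sub (div_mero hh).circleIntegrable_log_norm
  set φ : ℂ → ℝ := fun z => if h z = 0 then ψ z else Real.posLog ‖g z‖ with hφ
  have e1 : (fun z => Real.posLog ‖g z‖) =ᶠ[codiscreteWithin (sphere c |r|)] φ := by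
    filter_upwards [hcod] with z hz
    rw [hφ]
    simp [hz]
  have hφi : CircleIntegrable φ c r := by
    refine CircleIntegrable.congr_codiscreteWithin e1 ?_
    exact (div_mero hg).circleIntegrable_posLog_norm
  rw [circleAverage_congr_codiscreteWithin e1 hr.ne']
  have h2 : circleAverage φ c r ≤ circleAverage ψ c r := by
    refine circleAverage_mono hφi hψi fun z hz => ?_
    rw [hφ]
    by_cases hgz : h z = 0
    · simp [hgz]
    · simp only [hgz, if_false]
      have e2 : g z = f z * (h z)⁻¹ := by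
        rw [← he z (sphere_subset_closedBall hz)]
        field_simp
      have e3 : Real.posLog ‖(h z)⁻¹‖ = Real.posLog ‖h z‖ - Real.log ‖h z‖ := by
        have := Real.posLog_sub_posLog_inv (x := ‖h z‖)
        rw [norm_inv]
        linarith
      have e4 : Real.posLog ‖g z‖ ≤ Real.posLog ‖f z‖ + Real.posLog ‖(h z)⁻¹‖ := by
        rw [e2, norm_mul]
        exact Real.posLog_mul
      rw [e3] at e4
      have := hA z hz
      have := hB z hz
      rw [hψ]
      simp only
      linarith
  refine h2.trans ?_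
  rw [hψ, circleAverage_fun_sub (circleIntegrable_const (A + B) c r)
    (div_mero hh).circleIntegrable_log_norm, circleAverage_const]
  have := div_jensen hh hc hr
  linarith

private theorem div_point {f g h : ℂ → ℂ} {c s : ℂ} {R R2 ε : ℝ}
    (hg : DifferentiableOn ℂ g (ball c R)) (hh : DifferentiableOn ℂ h (ball c R))
    (he : ∀ z ∈ ball c R, g z * h z = f z) (hc : h c ≠ 0) (h2R : 0 < R2) (hRR : R2 < R)
    (hε : 0 < ε) (hs : ‖s - c‖ + ε ≤ R2) {A B : ℝ} (hA : ∀ z ∈ ball c R, Real.posLog ‖f z‖ ≤ A)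
    (hB : ∀ z ∈ ball c R, Real.posLog ‖h z‖ ≤ B) :
    ε ^ 2 * Real.posLog ‖g s‖ ≤ R2 ^ 2 * (A + B - Real.log ‖h c‖) := by
  set M := A + B - Real.log ‖h c‖ with hM
  have hsubR : closedBall c R2 ⊆ ball c R := closedBall_subset_ball hRR
  have hgan : ∀ z ∈ ball c R, AnalyticAt ℂ g z := fun z hz =>
    hg.analyticAt (isOpen_ball.mem_nhds hz)
  have hhan : ∀ z ∈ ball c R, AnalyticAt ℂ h z := fun z hz =>
    hh.analyticAt (isOpen_ball.mem_nhds hz)
  have huc0 : ContinuousOn (fun z => Real.posLog ‖g z‖) (closedBall c R2) :=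
    Real.continuous_posLog.comp_continuousOn ((hg.continuousOn.mono hsubR).norm)
  obtain ⟨v, hv⟩ := ContinuousMap.exists_restrict_eq (Y := ℝ) (isClosed_closedBall (x := c) (ε := R2))
    ⟨(closedBall c R2).domRestrict (fun z => Real.posLog ‖g z‖), huc0.domRestrict⟩
  set u : ℂ → ℝ := fun z => v z with hu
  have huc : Continuous u := v.continuous
  have hue : ∀ z ∈ closedBall c R2, u z = Real.posLog ‖g z‖ := by
    intro z hz
    have := DFunLike.congr_fun hv ⟨z, hz⟩
    exact this
  have hcirc : ∀ r, 0 < r → r ≤ R2 → circleAverage u c r ≤ M := by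
    intro r hr hrR
    have hcb : closedBall c |r| ⊆ closedBall c R2 := by
      rw [abs_of_pos hr]
      exact closedBall_subset_closedBall hrR
    have e : circleAverage u c r = circleAverage (fun z => Real.posLog ‖g z‖) c r :=
      circleAverage_congr_sphere fun z hz => hue z (hcb (sphere_subset_closedBall hz))
    rw [e]
    exact div_circ (fun z hz => hgan z (hsubR (hcb hz))) (fun z hz => hhan z (hsubR (hcb hz)))
      (fun z hz => he z (hsubR (hcb hz))) hc hr
      (fun z hz => hA z (hsubR (hcb (sphere_subset_closedBall hz))))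
      (fun z hz => hB z (hsubR (hcb (sphere_subset_closedBall hz))))
  have hint : ∀ (c : ℂ) (R : ℝ), IntegrableOn u (ball c R) := fun c R =>
    (huc.continuousOn.integrableOn_compact (isCompact_closedBall c R)).mono_set
      ball_subset_closedBall
  have hsub : ball s ε ⊆ ball c R2 := by
    refine ball_subset_ball' ?_
    rw [dist_eq_norm]
    linarith
  have h1 : ∫ z in ball s ε, u z ≤ ∫ z in ball c R2, u z := by
    refine setIntegral_mono_set (hint c R2) ?_ hsub.eventuallyLE
    rw [EventuallyLE, ae_restrict_iff' measurableSet_ball]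
    refine Eventually.of_forall fun z hz => ?_
    show 0 ≤ u z
    rw [hue z (ball_subset_closedBall hz)]
    exact Real.posLog_nonneg
  rw [div_ball_circ huc s hε.le, div_ball_circ huc c h2R.le] at h1
  have hpi := Real.pi_pos
  have hus : u s = Real.posLog ‖g s‖ := by
    apply hue
    rw [mem_closedBall, dist_eq_norm]
    linarith
  have h2 : ∫ r in (0:ℝ)..ε, 2 * π * r * u s ≤ ∫ r in (0:ℝ)..ε, 2 * π * r * circleAverage u s r := by
    refine intervalIntegral.integral_mono_on_of_le_Ioo hε.le ?_ ?_ ?_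
    · exact Continuous.intervalIntegrable (by fun_prop) _ _
    · exact Continuous.intervalIntegrable (by fun_prop) _ _
    · intro r hr
      have hcb : closedBall s |r| ⊆ closedBall c R2 := by
        rw [abs_of_pos hr.1]
        refine closedBall_subset_closedBall' ?_
        rw [dist_eq_norm]
        linarith [hr.2]
      have e : circleAverage u s r = circleAverage (fun z => Real.posLog ‖g z‖) s r :=
        circleAverage_congr_sphere fun z hz => hue z (hcb (sphere_subset_closedBall hz))
      have := div_posLog (fun z hz => hgan z (hsubR (hcb hz))) hr.1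
      have h0 : 0 ≤ 2 * π * r := by have := hr.1; positivity
      rw [hus, e]
      exact mul_le_mul_of_nonneg_left this h0
  have h3 : ∫ r in (0:ℝ)..R2, 2 * π * r * circleAverage u c r ≤ ∫ r in (0:ℝ)..R2, 2 * π * r * M := by
    refine intervalIntegral.integral_mono_on_of_le_Ioo h2R.le ?_ ?_ ?_
    · exact Continuous.intervalIntegrable (by fun_prop) _ _
    · exact Continuous.intervalIntegrable (by fun_prop) _ _
    · intro r hr
      have := hcirc r hr.1 hr.2.le
      have h0 : 0 ≤ 2 * π * r := by have := hr.1; positivity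
      exact mul_le_mul_of_nonneg_left this h0
  have h4 : ∀ (T K : ℝ), ∫ r in (0:ℝ)..T, 2 * π * r * K = π * T ^ 2 * K := by
    intro T K
    have : (fun r : ℝ => 2 * π * r * K) = fun r : ℝ => (2 * π * K) * r := by
      ext r
      ring
    rw [this, intervalIntegral.integral_const_mul, integral_id]
    ring
  rw [h4] at h2 h3
  have h5 := h2.trans (h1.trans h3)
  rw [← hus]
  have h6 : π * (ε ^ 2 * u s) ≤ π * (R2 ^ 2 * M) := by
    calc π * (ε ^ 2 * u s) = π * ε ^ 2 * u s := by ring
      _ ≤ π * R2 ^ 2 * M := h5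
      _ = π * (R2 ^ 2 * M) := by ring
  exact le_of_mul_le_mul_left h6 hpi

theorem div_bd (s1 : ℂ) {R R' : ℝ} (h0 : 0 < R') (h1 : R' < R) : ∃ κ : ℝ, 0 ≤ κ ∧
    ∀ (f g h : ℂ → ℂ) (M : ℝ), 1 ≤ M → DifferentiableOn ℂ f (Metric.ball s1 R) →
      DifferentiableOn ℂ g (Metric.ball s1 R) → DifferentiableOn ℂ h (Metric.ball s1 R) →
      (∀ s ∈ Metric.ball s1 R, g s * h s = f s) → (∀ s ∈ Metric.ball s1 R, ‖f s‖ ≤ M) →
      (∀ s ∈ Metric.ball s1 R, ‖h s‖ ≤ M) → M⁻¹ ≤ ‖h s1‖ →
      ∀ s ∈ Metric.closedBall s1 R', ‖g s‖ ≤ M ^ κ := by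
  set R2 : ℝ := (R + R') / 2 with hR2
  set ε : ℝ := (R - R') / 2 with hε
  have hε0 : 0 < ε := by rw [hε]; linarith
  have hR20 : 0 < R2 := by rw [hR2]; linarith
  refine ⟨3 * (R2 ^ 2 / ε ^ 2), by positivity, fun f g h M hM _ hg hh he hf hhM hlow s hs => ?_⟩
  have hM0 : 0 < M := by linarith
  have hlM : 0 ≤ Real.log M := Real.log_nonneg hM
  have hpl : ∀ w : ℂ, ‖w‖ ≤ M → Real.posLog ‖w‖ ≤ Real.log M := by
    intro w hw
    rw [Real.posLog_apply]
    refine max_le hlM ?_
    rcases eq_or_lt_of_le (norm_nonneg w) with h3 | h3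
    · rw [← h3, Real.log_zero]
      exact hlM
    · exact Real.log_le_log h3 hw
  have hinv : 0 < M⁻¹ := inv_pos.2 hM0
  have hne : h s1 ≠ 0 := by
    intro h3
    rw [h3, norm_zero] at hlow
    linarith
  have hlow2 : - Real.log M ≤ Real.log ‖h s1‖ := by
    rw [← Real.log_inv]
    exact Real.log_le_log hinv hlow
  rw [mem_closedBall, dist_eq_norm] at hs
  have h3 := div_point (ε := ε) (R2 := R2) hg hh he hne hR20 (by rw [hR2]; linarith) hε0
    (s := s) (by rw [hR2, hε]; linarith) (fun z hz => hpl _ (hf z hz)) (fun z hz => hpl _ (hhM z hz))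
  have h4 : Real.posLog ‖g s‖ ≤ 3 * (R2 ^ 2 / ε ^ 2) * Real.log M := by
    have h5 : ε ^ 2 * Real.posLog ‖g s‖ ≤ R2 ^ 2 * (3 * Real.log M) := by
      refine h3.trans (mul_le_mul_of_nonneg_left ?_ (by positivity))
      linarith
    have h6 : 0 < ε ^ 2 := by positivity
    rw [show 3 * (R2 ^ 2 / ε ^ 2) * Real.log M = (R2 ^ 2 * (3 * Real.log M)) / ε ^ 2 by ring,
      le_div_iff₀ h6]
    linarith
  by_cases hz : g s = 0
  · rw [hz, norm_zero]
    exact Real.rpow_nonneg hM0.le _
  · calc ‖g s‖ = Real.exp (Real.log ‖g s‖) := (Real.exp_log (norm_pos_iff.mpr hz)).symm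
      _ ≤ Real.exp (3 * (R2 ^ 2 / ε ^ 2) * Real.log M) := by
        refine Real.exp_le_exp.mpr (le_trans ?_ h4)
        rw [Real.posLog_apply]
        exact le_max_right _ _
      _ = M ^ (3 * (R2 ^ 2 / ε ^ 2)) := by
        rw [Real.rpow_def_of_pos hM0, mul_comm]

end Pool.Agent.THF
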