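import Pool.Agent.THF.K.Defs

/-!
# THF/K-Reps: nonsquare representatives of the classes

Weak approximation at `S` and at one more place `v0`: every class has a representative of odd
order at `v0`, which is not a square.
-/

namespace Pool.Agent.THF

open NumberField IsDedekindDomain Pool.Agent.HWR Pool.Agent.QD Pool.Agent.QD.In Pool.Agent.LD
  Pool.Agent.MD

theorem exists_reps {K : Type} [Field K] [NumberField K] {T1 : Finset ℕ}
    {S : Finset (HeightOneSpectrum (𝓞 K))} (hS : Nic T1 S) :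
    ∃ Y : GS S → Kˣ, ∀ c, ¬ IsSquare (Y c) ∧ (QuotientGroup.mk (Y c) : GS S) = c := by
  obtain ⟨v0, _, p, hv0, _, hp⟩ := exists_v0 hS
  choose z hz1 hz2 using fun c : GS S => weak_approx S v0 hv0 (Quotient.out c) p
  refine ⟨z, fun c => ⟨?_, ?_⟩⟩
  · rintro ⟨r, hr⟩
    have h1 := (uK_congr' v0 (hz2 c)).2.2 hp
    rw [hr, Pool.Agent.QD.ordK_mul] at h1
    exact (Int.not_odd_iff_even.2 (Even.add_self _)) h1
  · have h1 : (QuotientGroup.mk (z c) : GS S) = QuotientGroup.mk (Quotient.out c : Kˣ) :=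
      (mk_eq_iff S _ _).2 (hz1 c)
    rw [h1]
    exact QuotientGroup.out_eq' c

end Pool.Agent.THF
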