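import Pool.Agent.THF.K.Thin4
import Pool.Agent.THF.K.Div
import Pool.Agent.THF.K.Reps
import Pool.Agent.THF.K.Ex
import Pool.Agent.THF.K.OmK

/-!
# THF/K-Unif: LEMMA 4.2, uniform bounds for `(t - z0)^m` times the continued `LX x`, `x` no square

PLAN.  Fix `z` from `exists_KN`.  `Y` from `exists_reps` (the group `GS S` is finite).  Let `x` be no square, `c = mk x`, `y = Y c`, `p = x / y ∈ HSub S` (`mk_eq_iff`).
Case A: `x * z` is a square: then `KN V x` (`x = z * square`; `LSq` and signs do not change under multiplication by squares): `thin2` gives `Λ` with `LX x = Λ` on `Re > 3/2`, so `G x t = (t - z0)^m Λ t` on the ball (identity theorem; the ball is convex, `{3/2 < Re} ∩ ball` is open and nonempty since it contains `s1`): bounded.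
Case B: `x * z` no square.  `p * z` satisfies `KN V`, is a local square at the places not away from `T` (`p ∈ HSub S`, `V ⊆ S`); `y * (p * z) = x * z` no square.  `thin4 x z`: `Λ1`; `thin4 y (p z)`: `Λ2`; `thin2 z`: `Λz`, `thin2 (p z)`: `Λpz`.  For `Re s > 3/2`: `Lam K^2 Λ1 = LX x LX z LX (x z)`, `Lam K^2 Λ2 = LX y LX (p z) LX (x z)`;
multiply: `LX x * LX z * Λ2 = LX y * LX (p z) * Λ1` (cancel `Lam K^2 ≠ 0`, `LX (x z) ≠ 0`: `Lam_ne`, `LX_ne`).  So on the ball (identity theorem): `G x t * (Λz t * Λ2 t) = G y t * Λpz t * Λ1 t`.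
`div_bd` with `R2 = (R + R')/2` in place of `R` (on the closed ball of radius `R2` everything is bounded): `f = G y * Λpz * Λ1`, `h = Λz * Λ2`: bounds `C (oddN x)^A` (`thin2`, `thin4` with `X` large; `G (Y c)` is bounded on the compact ball for the finitely many `c`; `oddN S (p z) ≤ oddN p * oddN z`, `oddN p ≤ oddN x * oddN y` (`oddN_mul_le`; `oddN y⁻¹ = oddN y`)).
Lower bound at `s1` (`Re s1 ≥ 3`): `‖Λz s1‖ = ‖LX z s1‖ ≥ c`, `‖Λ2 s1‖ = ‖LX y LX (p z) LX (x z)‖ / ‖Lam K‖^2 ≥ c` (`LX_low`, `gam1_low`).  `M = C (oddN x)^A` with `C ≥ 1`, `C ≥ 1/c`.  Result: `‖G x t‖ ≤ M^κ`.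
-/

namespace Pool.Agent.THF

open NumberField IsDedekindDomain Pool.Agent.HWR Pool.Agent.QD Pool.Agent.QD.In Pool.Agent.LD
  Pool.Agent.MD

private theorem unif_id {f g : ℂ → ℂ} {s1 : ℂ} {R : ℝ} (hR : 0 < R) (hs1 : 3 ≤ s1.re)
    (hf : DifferentiableOn ℂ f (Metric.ball s1 R)) (hg : DifferentiableOn ℂ g (Metric.ball s1 R))
    (h : ∀ t ∈ Metric.ball s1 R, 3 / 2 < t.re → f t = g t) : ∀ t ∈ Metric.ball s1 R, f t = g t := by
  have h1 := hf.analyticOnNhd Metric.isOpen_ball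
  have h2 := hg.analyticOnNhd Metric.isOpen_ball
  refine h1.eqOn_of_preconnected_of_eventuallyEq h2 (convex_ball s1 R).isPreconnected
    (Metric.mem_ball_self hR) ?_
  have h3 : ∀ᶠ t in nhds s1, 3 / 2 < t.re :=
    Complex.continuous_re.continuousAt.eventually (lt_mem_nhds (by linarith))
  filter_upwards [h3, Metric.ball_mem_nhds s1 hR] with t ht1 ht2
  exact h t ht2 ht1

section
variable {K : Type} [Field K] [NumberField K]

private theorem unif_inv (S : Finset (HeightOneSpectrum (𝓞 K))) (x : Kˣ) :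
    oddN S x⁻¹ = oddN S x := by
  unfold oddN
  refine finprod_congr fun v => ?_
  rw [Pool.Agent.QD.ordK_inv]
  exact if_congr odd_neg rfl rfl

private theorem unif_one (S : Finset (HeightOneSpectrum (𝓞 K))) (x : Kˣ) :
    (1 : ℝ) ≤ (oddN S x : ℝ) := by
  exact_mod_cast oddN_pos S x

private theorem unif_nsq {V : Finset (HeightOneSpectrum (𝓞 K))} (hne : V.Nonempty) {z : Kˣ}
    (h : KN V z) : ¬ IsSquare z := by
  rintro ⟨r, rfl⟩
  obtain ⟨v, hv⟩ := hne
  apply h.1 v hv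
  have h1 := Pool.Agent.QD.LSq_sq v r
  rwa [pow_two] at h1

private theorem unif_sq {V : Finset (HeightOneSpectrum (𝓞 K))} {x z : Kˣ} (h : KN V z)
    (hx : IsSquare (x * z)) : KN V x := by
  obtain ⟨r, hr⟩ := hx
  constructor
  · intro v hv hxv
    apply h.1 v hv
    have h1 := Pool.Agent.QD.LSq_sq v r
    rw [pow_two, ← hr] at h1
    have h2 := Pool.Agent.QD.LSq_mul (Pool.Agent.QD.LSq_inv hxv) h1
    rwa [inv_mul_cancel_left] at h2
  · intro φ
    have h1 := h.2 φ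
    have h2 : φ (x : K) * φ (z : K) = φ (r : K) * φ (r : K) := by
      rw [← map_mul, ← map_mul, ← Units.val_mul, ← Units.val_mul, hr]
    have h3 : φ (r : K) ≠ 0 := by
      rw [Ne, map_eq_zero]
      exact r.ne_zero
    have h4 : 0 < φ (r : K) * φ (r : K) := mul_self_pos.2 h3
    by_contra hcon
    push Not at hcon
    nlinarith

private theorem unif_KN {S V : Finset (HeightOneSpectrum (𝓞 K))} (hV : V ⊆ S) {p z : Kˣ}
    (hp : p ∈ Pool.Agent.QD.HSub S) (h : KN V z) : KN V (p * z) := by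
  have hp' := mem_HSub.1 hp
  constructor
  · intro v hv hpz
    apply h.1 v hv
    have h2 := Pool.Agent.QD.LSq_mul (Pool.Agent.QD.LSq_inv (hp'.1 v (hV hv))) hpz
    rwa [inv_mul_cancel_left] at h2
  · intro φ
    have h1 := h.2 φ
    have h2 := hp'.2 φ
    rw [Units.val_mul, map_mul]
    exact mul_neg_of_pos_of_neg h2 h1

end

theorem unif {K : Type} [Field K] [NumberField K] {T : Finset ℕ} (hTp : ∀ p ∈ T, p.Prime)
    (hT : ∀ p : ℕ, p.Prime → p < 101 → p ∈ T) (D : LocData T) {a : ℕ → ℝ}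
    (ha : ∀ q : ℕ, |a q| ≤ 2 * Real.sqrt q) {T1 : Finset ℕ}
    {S V : Finset (HeightOneSpectrum (𝓞 K))} (hS : Nic T1 S)
    (hST : ∀ v, ¬ Away K T v → v ∈ S) (hV : V ⊆ S) (hVT : ∀ v ∈ V, Away K T v)
    (hne : V.Nonempty) (H : HWN D a V) (H4 : HWN4 D a V) {s1 z0 : ℂ} (m : ℕ) {R R' : ℝ}
    (hs1 : 3 ≤ s1.re) (hR0 : 0 < R') (hR : R' < R) (G : Kˣ → ℂ → ℂ)
    (hG : ∀ x, ¬ IsSquare x → DifferentiableOn ℂ (G x) (Metric.ball s1 R))
    (hGe : ∀ x, ¬ IsSquare x → ∀ t ∈ Metric.ball s1 R, 3 / 2 < t.re →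
      G x t = (t - z0) ^ m * LX D a x t) :
    ∃ A C : ℝ, 0 ≤ A ∧ 0 ≤ C ∧ ∀ x, ¬ IsSquare x → ∀ t ∈ Metric.closedBall s1 R',
      ‖G x t‖ ≤ C * (oddN S x : ℝ) ^ A := by
  have hR1 : 0 < R := hR0.trans hR
  have h2T : 2 ∈ T := hT 2 Nat.prime_two (by norm_num)
  have h2 : ∀ v : HeightOneSpectrum (𝓞 K), (2 : 𝓞 K) ∈ v.asIdeal → v ∈ S := by
    intro v hv
    refine hST v fun h => h 2 h2T ?_
    exact_mod_cast hv
  obtain ⟨z, hz, hzT⟩ := exists_KN K T hTp h2T V hVT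
  have hznsq := unif_nsq hne hz
  obtain ⟨Y, hY⟩ := exists_reps hS
  obtain ⟨A2, C2, hA2, hC2, ht2⟩ := thin2 hTp hT D ha hS hST hne H (s1.re + R)
  obtain ⟨A4, C4, hA4, hC4, ht4⟩ := thin4 hTp hT D ha hS hST hne H4 (s1.re + R)
  obtain ⟨R2, hR2⟩ : ∃ R2 : ℝ, R2 = (R + R') / 2 := ⟨_, rfl⟩
  have hR21 : R' < R2 := by linarith
  have hR22 : R2 < R := by linarith
  have hR20 : 0 < R2 := hR0.trans hR21
  obtain ⟨κ, hκ, hdiv⟩ := div_bd s1 hR0 hR21
  -- the ball
  have hre : ∀ t ∈ Metric.ball s1 R, -(s1.re + R) ≤ t.re ∧ t.re ≤ s1.re + R := by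
    intro t ht
    rw [Metric.mem_ball, dist_eq_norm] at ht
    have h1 := (Complex.abs_re_le_norm (t - s1)).trans ht.le
    rw [Complex.sub_re, abs_le] at h1
    constructor <;> linarith
  obtain ⟨B, hB⟩ : ∃ B : ℝ, B = 1 + (|s1.im| + R) := ⟨_, rfl⟩
  have hB1 : 1 ≤ B := by
    have := abs_nonneg s1.im
    linarith
  have hB0 : 0 ≤ B := by linarith
  have him : ∀ t ∈ Metric.ball s1 R, 1 + |t.im| ≤ B := by
    intro t ht
    rw [Metric.mem_ball, dist_eq_norm] at ht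
    have h1 := (Complex.abs_im_le_norm (t - s1)).trans ht.le
    rw [Complex.sub_im] at h1
    have h3 : |t.im| ≤ |t.im - s1.im| + |s1.im| := by
      have := abs_add_le (t.im - s1.im) s1.im
      rwa [sub_add_cancel] at this
    linarith
  obtain ⟨P, hP⟩ : ∃ P : ℝ, P = (R + ‖s1 - z0‖) ^ m := ⟨_, rfl⟩
  have hP0 : 0 ≤ P := by
    rw [hP]
    positivity
  have hPb : ∀ t ∈ Metric.ball s1 R, ‖(t - z0) ^ m‖ ≤ P := by
    intro t ht
    rw [Metric.mem_ball, dist_eq_norm] at ht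
    rw [hP, norm_pow]
    refine pow_le_pow_left₀ (norm_nonneg _) ?_ m
    have h1 : t - z0 = (t - s1) + (s1 - z0) := by ring
    rw [h1]
    exact (norm_add_le _ _).trans (by linarith)
  -- the lower bound at `s1`
  obtain ⟨c, hc, hlow⟩ := LX_low D S h2 hS hST hT ha (x1 := 2) (x2 := s1.re) (by norm_num)
  obtain ⟨c0, hc0d⟩ : ∃ c0 : ℝ, c0 = c * ‖gam1 s1‖ ^ (2 * Module.finrank ℚ K) := ⟨_, rfl⟩
  have hc0 : 0 < c0 := by
    rw [hc0d]
    exact mul_pos hc (pow_pos (norm_pos_iff.2 (gam1_ne (by linarith))) _)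
  have hLX : ∀ x : Kˣ, c0 ≤ ‖LX D a x s1‖ := fun x => by
    rw [hc0d]
    exact hlow x s1 (by linarith) le_rfl
  have hK : ∀ s : ℂ, 3 / 2 < s.re → D.Lam a K s ^ 2 ≠ 0 := fun s hs =>
    pow_ne_zero _ (Pool.Agent.H73.AL.Lam_ne D hTp hT ha K hs)
  obtain ⟨k0, hk0d⟩ : ∃ k0 : ℝ, k0 = ‖D.Lam a K s1 ^ 2‖ := ⟨_, rfl⟩
  have hk0 : 0 < k0 := by
    rw [hk0d]
    exact norm_pos_iff.2 (hK s1 (by linarith))
  -- constants for the classes
  have hfin : Finite (GS S) := GS_finite S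
  obtain ⟨NY, hNY1, hNY⟩ : ∃ NY : ℝ, 1 ≤ NY ∧ ∀ c : GS S, (oddN S (Y c) : ℝ) ≤ NY := by
    obtain ⟨b, hb⟩ := (Set.finite_range fun c : GS S => (oddN S (Y c) : ℝ)).bddAbove
    exact ⟨max 1 b, le_max_left _ _, fun c => (hb ⟨c, rfl⟩).trans (le_max_right _ _)⟩
  obtain ⟨GY, hGY0, hGY⟩ : ∃ GY : ℝ, 0 ≤ GY ∧ ∀ c : GS S, ∀ t ∈ Metric.closedBall s1 R2,
      ‖G (Y c) t‖ ≤ GY := by
    have h1 : ∀ c : GS S, ∃ b : ℝ, ∀ t ∈ Metric.closedBall s1 R2, ‖G (Y c) t‖ ≤ b := fun c =>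
      (isCompact_closedBall s1 R2).exists_bound_of_continuousOn
        ((hG _ (hY c).1).continuousOn.mono (Metric.closedBall_subset_ball hR22))
    choose b hb using h1
    obtain ⟨b', hb'⟩ := (Set.finite_range b).bddAbove
    exact ⟨max 0 b', le_max_left _ _, fun c t ht => (hb c t ht).trans
      ((hb' ⟨c, rfl⟩).trans (le_max_right _ _))⟩
  obtain ⟨Nz, hNz⟩ : ∃ Nz : ℝ, Nz = (oddN S z : ℝ) := ⟨_, rfl⟩
  have hNz1 : 1 ≤ Nz := by
    rw [hNz]
    exact unif_one S z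
  have hNz0 : 0 ≤ Nz := by linarith
  have hNY0 : 0 ≤ NY := by linarith
  obtain ⟨Cf, hCf⟩ : ∃ Cf : ℝ, Cf = GY * (C2 * (NY * Nz) ^ A2 * B) * (C4 * Nz ^ A4 * B) := ⟨_, rfl⟩
  obtain ⟨Ch, hCh⟩ : ∃ Ch : ℝ, Ch = (C2 * Nz ^ A2 * B) * (C4 * (NY * (NY * Nz)) ^ A4 * B) :=
    ⟨_, rfl⟩
  obtain ⟨h0, hh0⟩ : ∃ h0 : ℝ, h0 = c0 * (c0 * c0 * c0 / k0) := ⟨_, rfl⟩
  have hh00 : 0 < h0 := by
    rw [hh0]
    positivity
  have hCf0 : 0 ≤ Cf := by
    rw [hCf]
    positivity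
  have hCh0 : 0 ≤ Ch := by
    rw [hCh]
    positivity
  obtain ⟨C, hC⟩ : ∃ C : ℝ, C = max (max 1 h0⁻¹) (max Cf Ch) := ⟨_, rfl⟩
  have hC1 : 1 ≤ C := hC ▸ (le_max_left _ _).trans (le_max_left _ _)
  have hCi : h0⁻¹ ≤ C := hC ▸ (le_max_right _ _).trans (le_max_left _ _)
  have hCcf : Cf ≤ C := hC ▸ (le_max_left _ _).trans (le_max_right _ _)
  have hCch : Ch ≤ C := hC ▸ (le_max_right _ _).trans (le_max_right _ _)
  have hC0 : 0 ≤ C := by linarith
  refine ⟨max A2 ((A2 + A4) * κ), max (P * (C2 * B)) (C ^ κ), hA2.trans (le_max_left _ _),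
    (by positivity : (0 : ℝ) ≤ P * (C2 * B)).trans (le_max_left _ _), fun x hx t ht => ?_⟩
  obtain ⟨Nx, hNx⟩ : ∃ Nx : ℝ, Nx = (oddN S x : ℝ) := ⟨_, rfl⟩
  have hNx1 : 1 ≤ Nx := by
    rw [hNx]
    exact unif_one S x
  have hNx0 : 0 ≤ Nx := by linarith
  rw [← hNx]
  have htR : t ∈ Metric.ball s1 R := Metric.closedBall_subset_ball hR ht
  by_cases hxz : IsSquare (x * z)
  · -- case A
    have hxK := unif_sq hz hxz
    obtain ⟨Λ, hΛ1, hΛ2, hΛ3⟩ := ht2 x hxK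
    have h1 := unif_id hR1 hs1 (hG x hx) (g := fun t => (t - z0) ^ m * Λ t)
      (((differentiable_id.sub_const z0).pow m).mul hΛ1).differentiableOn
      (fun t ht1 ht2 => by rw [hGe x hx t ht1 ht2, hΛ2 t ht2]) t htR
    rw [h1, norm_mul]
    have h3 : ‖Λ t‖ ≤ C2 * Nx ^ A2 * B := by
      rw [hNx]
      refine (hΛ3 t (hre t htR).1 (hre t htR).2).trans ?_
      exact mul_le_mul_of_nonneg_left (him t htR) (by positivity)
    calc ‖(t - z0) ^ m‖ * ‖Λ t‖ ≤ P * (C2 * Nx ^ A2 * B) :=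
          mul_le_mul (hPb t htR) h3 (norm_nonneg _) hP0
      _ = P * (C2 * B) * Nx ^ A2 := by ring
      _ ≤ max (P * (C2 * B)) (C ^ κ) * Nx ^ max A2 ((A2 + A4) * κ) := by
          refine mul_le_mul (le_max_left _ _)
            (Real.rpow_le_rpow_of_exponent_le hNx1 (le_max_left _ _)) (by positivity) ?_
          exact (by positivity : (0 : ℝ) ≤ P * (C2 * B)).trans (le_max_left _ _)
  · -- case B
    obtain ⟨y, hyd⟩ : ∃ y : Kˣ, y = Y (QuotientGroup.mk x : GS S) := ⟨_, rfl⟩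
    have hy := hY (QuotientGroup.mk x : GS S)
    rw [← hyd] at hy
    have hpH : x / y ∈ Pool.Agent.QD.HSub S := (mk_eq_iff S x y).1 hy.2.symm
    have hpK := unif_KN hV hpH hz
    have hpT : ∀ v : HeightOneSpectrum (𝓞 K), ¬ Away K T v → LSq v (x / y * z) := fun v hv =>
      Pool.Agent.QD.LSq_mul ((mem_HSub.1 hpH).1 v (hST v hv)) (hzT v hv)
    have hyz : y * (x / y * z) = x * z := by
      rw [← mul_assoc, mul_div_cancel]
    have hyz' : ¬ IsSquare (y * (x / y * z)) := by rwa [hyz]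
    obtain ⟨Λ1, hΛ11, hΛ12, hΛ13⟩ := ht4 x z hx hz hzT hxz
    obtain ⟨Λ2, hΛ21, hΛ22, hΛ23⟩ := ht4 y (x / y * z) hy.1 hpK hpT hyz'
    obtain ⟨Λz, hΛz1, hΛz2, hΛz3⟩ := ht2 z hz
    obtain ⟨Λp, hΛp1, hΛp2, hΛp3⟩ := ht2 (x / y * z) hpK
    rw [hyz] at hΛ22
    have hrel : ∀ t ∈ Metric.ball s1 R, G x t * (Λz t * Λ2 t) = G y t * Λp t * Λ1 t := by
      refine unif_id hR1 hs1 ((hG x hx).mul (hΛz1.mul hΛ21).differentiableOn)
        (((hG y hy.1).mul hΛp1.differentiableOn).mul hΛ11.differentiableOn) fun t ht1 ht2 => ?_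
      have h1 := hΛ12 t ht2
      have h3 := hΛ22 t ht2
      have h4 := hK t ht2
      rw [hGe x hx t ht1 ht2, hGe y hy.1 t ht1 ht2, hΛz2 t ht2, hΛp2 t ht2]
      apply mul_left_cancel₀ h4
      linear_combination ((t - z0) ^ m * LX D a x t * LX D a z t) * h3 -
        ((t - z0) ^ m * LX D a y t * LX D a (x / y * z) t) * h1
    -- sizes
    have hNy : (oddN S y : ℝ) ≤ NY := by
      rw [hyd]
      exact hNY _
    have hNp : (oddN S (x / y * z) : ℝ) ≤ Nx * (NY * Nz) := by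
      have h1 : oddN S (x / y * z) ≤ oddN S x * oddN S y * oddN S z := by
        refine (oddN_mul_le S (x / y) z).trans (Nat.mul_le_mul_right _ ?_)
        rw [div_eq_mul_inv]
        refine (oddN_mul_le S x y⁻¹).trans ?_
        rw [unif_inv]
      have h3 : (oddN S (x / y * z) : ℝ) ≤ (oddN S x : ℝ) * oddN S y * oddN S z := by
        exact_mod_cast h1
      rw [← hNx, ← hNz] at h3
      refine h3.trans ?_
      rw [← mul_assoc]
      exact mul_le_mul_of_nonneg_right (mul_le_mul_of_nonneg_left hNy hNx0) hNz0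
    have hNp0 : (0 : ℝ) ≤ (oddN S (x / y * z) : ℝ) := Nat.cast_nonneg _
    have hsub : Metric.ball s1 R2 ⊆ Metric.ball s1 R := Metric.ball_subset_ball hR22.le
    have b1 : ∀ s ∈ Metric.ball s1 R, ‖Λp s‖ ≤ C2 * (Nx ^ A2 * (NY * Nz) ^ A2) * B := by
      intro s hs
      refine (hΛp3 s (hre s hs).1 (hre s hs).2).trans ?_
      rw [← Real.mul_rpow hNx0 (by positivity)]
      refine mul_le_mul (mul_le_mul_of_nonneg_left ?_ hC2) (him s hs) (by positivity) (by positivity)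
      exact Real.rpow_le_rpow hNp0 hNp hA2
    have b2 : ∀ s ∈ Metric.ball s1 R, ‖Λ1 s‖ ≤ C4 * (Nx ^ A4 * Nz ^ A4) * B := by
      intro s hs
      refine (hΛ13 s (hre s hs).1 (hre s hs).2).trans ?_
      rw [← hNx, ← hNz, ← Real.mul_rpow hNx0 hNz0]
      exact mul_le_mul_of_nonneg_left (him s hs) (by positivity)
    have b3 : ∀ s ∈ Metric.ball s1 R, ‖Λz s‖ ≤ C2 * Nz ^ A2 * B := by
      intro s hs
      refine (hΛz3 s (hre s hs).1 (hre s hs).2).trans ?_
      rw [← hNz]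
      exact mul_le_mul_of_nonneg_left (him s hs) (by positivity)
    have b4 : ∀ s ∈ Metric.ball s1 R, ‖Λ2 s‖ ≤ C4 * (Nx ^ A4 * (NY * (NY * Nz)) ^ A4) * B := by
      intro s hs
      refine (hΛ23 s (hre s hs).1 (hre s hs).2).trans ?_
      rw [← Real.mul_rpow hNx0 (by positivity)]
      refine mul_le_mul (mul_le_mul_of_nonneg_left ?_ hC4) (him s hs) (by positivity) (by positivity)
      refine Real.rpow_le_rpow (by positivity) ?_ hA4
      have h1 : (oddN S y : ℝ) * (oddN S (x / y * z) : ℝ) ≤ NY * (Nx * (NY * Nz)) :=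
        mul_le_mul hNy hNp hNp0 hNY0
      linarith
    have hpow : Nx ^ A4 ≤ Nx ^ (A2 + A4) :=
      Real.rpow_le_rpow_of_exponent_le hNx1 (by linarith)
    have hpow1 : 1 ≤ Nx ^ (A2 + A4) := Real.one_le_rpow hNx1 (by linarith)
    have hM1 : 1 ≤ C * Nx ^ (A2 + A4) := by nlinarith
    have hM0 : 0 < C * Nx ^ (A2 + A4) := by linarith
    have key := hdiv (fun s => G y s * Λp s * Λ1 s) (G x) (fun s => Λz s * Λ2 s)
      (C * Nx ^ (A2 + A4)) hM1
      (((((hG y hy.1).mul hΛp1.differentiableOn).mul hΛ11.differentiableOn)).mono hsub)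
      ((hG x hx).mono hsub) (hΛz1.mul hΛ21).differentiableOn
      (fun s hs => hrel s (hsub hs))
      (by
        intro s hs
        have hsR := hsub hs
        have g1 : ‖G y s‖ ≤ GY := by
          rw [hyd]
          exact hGY _ s (Metric.ball_subset_closedBall hs)
        rw [norm_mul, norm_mul]
        calc ‖G y s‖ * ‖Λp s‖ * ‖Λ1 s‖
            ≤ GY * (C2 * (Nx ^ A2 * (NY * Nz) ^ A2) * B) * (C4 * (Nx ^ A4 * Nz ^ A4) * B) :=
              mul_le_mul (mul_le_mul g1 (b1 s hsR) (norm_nonneg _) hGY0) (b2 s hsR)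
                (norm_nonneg _) (by positivity)
          _ = Cf * (Nx ^ A2 * Nx ^ A4) := by
              rw [hCf]
              ring
          _ = Cf * Nx ^ (A2 + A4) := by rw [← Real.rpow_add (by linarith)]
          _ ≤ C * Nx ^ (A2 + A4) := mul_le_mul_of_nonneg_right hCcf (by positivity))
      (by
        intro s hs
        have hsR := hsub hs
        rw [norm_mul]
        calc ‖Λz s‖ * ‖Λ2 s‖
            ≤ (C2 * Nz ^ A2 * B) * (C4 * (Nx ^ A4 * (NY * (NY * Nz)) ^ A4) * B) :=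
              mul_le_mul (b3 s hsR) (b4 s hsR) (norm_nonneg _) (by positivity)
          _ = Ch * Nx ^ A4 := by
              rw [hCh]
              ring
          _ ≤ C * Nx ^ (A2 + A4) := mul_le_mul hCch hpow (by positivity) hC0)
      (by
        have e1 := hΛ22 s1 (by linarith)
        have e2 : ‖Λ2 s1‖ = ‖LX D a y s1‖ * ‖LX D a (x / y * z) s1‖ * ‖LX D a (x * z) s1‖ / k0 := by
          rw [eq_div_iff hk0.ne', hk0d, ← norm_mul, ← norm_mul, ← norm_mul, ← e1, mul_comm]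
        have e3 : c0 * c0 * c0 / k0 ≤ ‖Λ2 s1‖ := by
          rw [e2]
          refine div_le_div_of_nonneg_right ?_ hk0.le
          exact mul_le_mul (mul_le_mul (hLX _) (hLX _) hc0.le (norm_nonneg _)) (hLX _) hc0.le
            (by positivity)
        have e4 : c0 ≤ ‖Λz s1‖ := by
          rw [hΛz2 s1 (by linarith)]
          exact hLX z
        have e5 : h0 ≤ ‖Λz s1 * Λ2 s1‖ := by
          rw [norm_mul, hh0]
          exact mul_le_mul e4 e3 (by positivity) (norm_nonneg _)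
        refine le_trans ?_ e5
        rw [inv_le_comm₀ hM0 hh00]
        calc h0⁻¹ ≤ C := hCi
          _ = C * 1 := (mul_one C).symm
          _ ≤ C * Nx ^ (A2 + A4) := mul_le_mul_of_nonneg_left hpow1 hC0)
      t ht
    refine key.trans ?_
    rw [Real.mul_rpow hC0 (by positivity), ← Real.rpow_mul hNx0]
    refine mul_le_mul (le_max_right _ _)
      (Real.rpow_le_rpow_of_exponent_le hNx1 (le_max_right _ _)) (by positivity) ?_
    exact (by positivity : (0 : ℝ) ≤ P * (C2 * B)).trans (le_max_left _ _)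

end Pool.Agent.THF
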