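import Pool.Agent.THF.K.Iso
import Pool.Agent.MD.L.Sq

/-!
# THF/K-LXa: the function `LX x` is the completed L-function of `K(√x)`

PLAN.  `LX_qf`: as in `exists_Lm_auxV` (MD/I/Sys.lean): `D.A L = dd x^2 * cdx D x`, `finrank ℚ L = 2 * finrank ℚ K`, `D.pl L = plx D x`, `LT_quad'` (N4Main) and `tt = ty` by `dif_neg`.  `quad_iso`: two quadratic extensions generated by square roots of the same nonsquare are isomorphic over `K`:
`θ` generates `L` (`θ ∉ K`), `minpoly K θ = X^2 - x` (degree 2, monic, a root), `AdjoinRoot`/`IntermediateField.adjoin` equivalences (`IntermediateField.adjoinRootEquivAdjoin`, `topEquiv`), or: `L'` contains a root of `X^2 - x`, so there is a `K`-algebra homomorphism `L → L'`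
(`IntermediateField.algHomAdjoinIntegralEquiv`, `PowerBasis.lift`), which is bijective by dimension.  `LX_quad` = `LX_qf` + `Lam_iso`.  `LX_sq`: `dif_pos`: `dd x = discr^2`, `cdx = cd^2`, `plx = pl^2`, `tt = 1`, `FF a q 1 s = efac a q s ^ 2`, `Multipliable.tprod_pow`-like (`sum_FF`, QD/In/Prod or the tools
in QD/In/ZZ.lean for the same step), `(A^2)^(s/2) = (A^(s/2))^2` for `A > 0`.  `LX_sq_class`: `LX (x * y^2) = LX x`: if `x` is a square both are `Lam K ^ 2`; otherwise `θ y` generates.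
-/

namespace Pool.Agent.THF

open NumberField IsDedekindDomain Pool.Agent.HWR Pool.Agent.QD Pool.Agent.QD.In Pool.Agent.LD
  Pool.Agent.MD

open Polynomial in
private theorem lxa_minpoly {K : Type} [Field K] {x : K} (hx : ∀ b : K, b ^ 2 ≠ x) {L : Type}
    [Field L] [Algebra K L] (θ : L) (hθ : θ ^ 2 = algebraMap K L x) :
    minpoly K θ = X ^ 2 - C x := by
  symm
  apply minpoly.eq_of_irreducible_of_monic
  · exact X_pow_sub_C_irreducible_of_prime Nat.prime_two hx
  · rw [map_sub, map_pow, aeval_X, aeval_C, hθ, sub_self]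
  · exact monic_X_pow_sub_C x two_ne_zero

private theorem lxa_adj {K : Type} [Field K] {x : K} (hx : ∀ b : K, b ^ 2 ≠ x) {L : Type}
    [Field L] [Algebra K L] [FiniteDimensional K L] (hd : Module.finrank K L = 2) (θ : L)
    (hθ : θ ^ 2 = algebraMap K L x) : Algebra.adjoin K {θ} = ⊤ := by
  have h1 : IntermediateField.adjoin K {θ} = ⊤ := by
    rw [Field.primitive_element_iff_minpoly_natDegree_eq, lxa_minpoly hx θ hθ,
      Polynomial.natDegree_X_pow_sub_C, hd]
  rw [← IntermediateField.adjoin_simple_toSubalgebra_of_isAlgebraic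
    (Algebra.IsAlgebraic.isAlgebraic θ), h1, IntermediateField.top_toSubalgebra]

private theorem lxa_iso {K : Type} [Field K] {x : K} (hx : ∀ b : K, b ^ 2 ≠ x) (L L' : Type)
    [Field L] [Algebra K L] [FiniteDimensional K L] [Field L'] [Algebra K L']
    [FiniteDimensional K L'] (hd : Module.finrank K L = 2) (hd' : Module.finrank K L' = 2)
    (θ : L) (θ' : L') (hθ : θ ^ 2 = algebraMap K L x) (hθ' : θ' ^ 2 = algebraMap K L' x) :
    Nonempty (L ≃ₐ[K] L') := by
  refine ⟨PowerBasis.equivOfMinpoly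
    (PowerBasis.ofAdjoinEqTop (Algebra.IsIntegral.isIntegral θ) (lxa_adj hx hd θ hθ))
    (PowerBasis.ofAdjoinEqTop (Algebra.IsIntegral.isIntegral θ') (lxa_adj hx hd' θ' hθ')) ?_⟩
  rw [PowerBasis.ofAdjoinEqTop_gen, PowerBasis.ofAdjoinEqTop_gen, lxa_minpoly hx θ hθ,
    lxa_minpoly hx θ' hθ']

variable {K : Type} [Field K] [NumberField K] {T : Finset ℕ} (D : LocData T) {a : ℕ → ℝ}

private theorem lxa_ns {x : Kˣ} (hx : ¬ IsSquare x) (b : K) : b ^ 2 ≠ (x : K) := by
  intro h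
  have hb : b ≠ 0 := by
    rintro rfl
    rw [zero_pow two_ne_zero] at h
    exact x.ne_zero h.symm
  apply hx
  refine ⟨Units.mk0 b hb, Units.ext ?_⟩
  rw [Units.val_mul, Units.val_mk0, ← h, sq]

omit [Field K] [NumberField K] in
private theorem lxa_cd_pos (F : Type) [Field F] [NumberField F] : 0 < D.cd F := by
  classical
  unfold LocData.cd
  refine Finset.prod_pos fun p _ => ?_
  split_ifs with h
  · have := Fact.mk h
    exact D.cond_pos p _
  · exact one_pos

private theorem lxa_prod (hT : ∀ p : ℕ, p.Prime → p < 101 → p ∈ T)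
    (ha : ∀ q : ℕ, |a q| ≤ 2 * Real.sqrt q) {s : ℂ} (hs : 3 / 2 < s.re) :
    ∏' v : {v : HeightOneSpectrum (𝓞 K) // Away K T v}, FF a (nrm v.1) ((1 : ℤ) : ℂ) s =
      LT K a T s ^ 2 := by
  have h1 := sum_FF (K := K) ha T hT (fun _ => 0) (fun _ => Or.inr (Or.inr rfl)) hs
  have e0 : ∀ q : ℕ, FF a q ((0 : ℤ) : ℂ) s = efac a q s := by
    intro q
    unfold Pool.Agent.HWR.FF
    rw [if_neg (by simp), if_neg (by simp)]
  have h2 : Multipliable fun v : {v : HeightOneSpectrum (𝓞 K) // Away K T v} =>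
      efac a (nrm v.1) s := by
    have h3 := multipliable_one_add_of_summable h1
    refine h3.congr fun v => ?_
    rw [e0]
    ring
  unfold Pool.Agent.HWR.LT
  rw [pow_two, ← Multipliable.tprod_mul h2 h2]
  refine tprod_congr fun v => ?_
  unfold Pool.Agent.HWR.FF
  rw [if_pos (by simp), F1, pow_two]

private theorem lxa_qf (hT : ∀ p : ℕ, p.Prime → p < 101 → p ∈ T)
    (ha : ∀ q : ℕ, |a q| ≤ 2 * Real.sqrt q) {x : Kˣ} (hx : ¬ IsSquare x) {s : ℂ}
    (hs : 3 / 2 < s.re) : LX D a x s = D.Lam a (qf hx).L s := by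
  have hA : D.A (qf hx).L = dd x ^ 2 * cdx D x := by
    unfold LocData.A dd cdx
    simp only [dif_neg hx, sq_abs]
  have hf : Module.finrank ℚ (qf hx).L = 2 * Module.finrank ℚ K := by
    rw [← Module.finrank_mul_finrank ℚ K (qf hx).L, (qf hx).deg, mul_comm]
  have hpl : ∀ s : ℂ, D.pl (qf hx).L s = plx D x s := by
    intro s
    unfold plx
    rw [dif_neg hx]
  have htt : ∀ v : HeightOneSpectrum (𝓞 K), ty K (qf hx).L v = tt x v := by
    intro v
    unfold tt
    rw [dif_neg hx]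
  rw [LocData.Lam, hA, hf, hpl, LT_quad' (qf hx).L (qf hx).deg ha T hT hs]
  simp only [htt]
  rfl

/-- two square roots generate isomorphic fields -/
theorem quad_iso {x : Kˣ} (hx : ¬ IsSquare x) (L L' : Type) [Field L] [NumberField L]
    [Algebra K L] [Field L'] [NumberField L'] [Algebra K L'] (hd : Module.finrank K L = 2)
    (hd' : Module.finrank K L' = 2) (θ : L) (θ' : L') (hθ : θ ^ 2 = algebraMap K L (x : K))
    (hθ' : θ' ^ 2 = algebraMap K L' (x : K)) : Nonempty (L ≃ₐ[K] L') := by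
  have : FiniteDimensional K L := FiniteDimensional.of_finrank_pos (by omega)
  have : FiniteDimensional K L' := FiniteDimensional.of_finrank_pos (by omega)
  exact lxa_iso (lxa_ns hx) L L' hd hd' θ θ' hθ hθ'

theorem LX_quad (hTp : ∀ p ∈ T, p.Prime) (hT : ∀ p : ℕ, p.Prime → p < 101 → p ∈ T)
    (ha : ∀ q : ℕ, |a q| ≤ 2 * Real.sqrt q) {x : Kˣ} (hx : ¬ IsSquare x) (L : Type) [Field L]
    [NumberField L] [Algebra K L] (hd : Module.finrank K L = 2) (θ : L)
    (hθ : θ ^ 2 = algebraMap K L (x : K)) {s : ℂ} (hs : 3 / 2 < s.re) :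
    LX D a x s = D.Lam a L s := by
  rw [lxa_qf D hT ha hx hs]
  obtain ⟨e⟩ := quad_iso hx (qf hx).L L (qf hx).deg hd (qf hx).θ θ (qf hx).sq hθ
  exact Lam_iso D a hTp hT ha e.toRingEquiv hs

theorem LX_sq (hTp : ∀ p ∈ T, p.Prime) (hT : ∀ p : ℕ, p.Prime → p < 101 → p ∈ T)
    (ha : ∀ q : ℕ, |a q| ≤ 2 * Real.sqrt q) {x : Kˣ} (hx : IsSquare x) {s : ℂ}
    (hs : 3 / 2 < s.re) : LX D a x s = D.Lam a K s ^ 2 := by
  have htt : ∀ v : HeightOneSpectrum (𝓞 K), tt x v = 1 := fun v => dif_pos hx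
  have hdd : dd x = (NumberField.discr K : ℝ) ^ 2 := dif_pos hx
  have hcd : cdx D x = D.cd K ^ 2 := dif_pos hx
  have hpl : plx D x s = D.pl K s ^ 2 := dif_pos hx
  have hA : dd x ^ 2 * cdx D x = D.A K * D.A K := by
    unfold LocData.A
    rw [hdd, hcd]
    ring
  have hA0 : 0 ≤ D.A K := by
    unfold LocData.A
    exact mul_nonneg (sq_nonneg _) (lxa_cd_pos D K).le
  unfold LX LocData.Lam
  simp only [htt]
  rw [lxa_prod hT ha hs, hpl, hA, Complex.ofReal_mul, Complex.mul_cpow_ofReal_nonneg hA0 hA0,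
    two_mul, pow_add, ← div_pow]
  ring

theorem LX_class (hTp : ∀ p ∈ T, p.Prime) (hT : ∀ p : ℕ, p.Prime → p < 101 → p ∈ T)
    (ha : ∀ q : ℕ, |a q| ≤ 2 * Real.sqrt q) {x y : Kˣ} (hxy : IsSquare (x / y)) {s : ℂ}
    (hs : 3 / 2 < s.re) : LX D a x s = LX D a y s := by
  by_cases hx : IsSquare x
  · have hy : IsSquare y := by
      obtain ⟨r, hr⟩ := hx
      obtain ⟨t, ht⟩ := hxy
      refine ⟨r / t, ?_⟩
      rw [div_mul_div_comm, ← hr, ← ht, div_div_cancel]
    rw [LX_sq D hTp hT ha hx hs, LX_sq D hTp hT ha hy hs]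
  · have hy : ¬ IsSquare y := by
      rintro ⟨r, hr⟩
      obtain ⟨t, ht⟩ := hxy
      apply hx
      refine ⟨t * r, ?_⟩
      rw [mul_mul_mul_comm, ← hr, ← ht, div_mul_cancel]
    obtain ⟨t, ht⟩ := hxy
    have hyx : ((qf hx).θ * algebraMap K (qf hx).L ((t⁻¹ : Kˣ) : K)) ^ 2 =
        algebraMap K (qf hx).L (y : K) := by
      rw [mul_pow, (qf hx).sq, ← map_pow, ← map_mul]
      congr 1
      have h2 : (x : K) = t * t * y := by
        rw [← Units.val_mul, ← ht, ← Units.val_mul, div_mul_cancel]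
      have h3 : (t : K) ≠ 0 := t.ne_zero
      rw [h2, Units.val_inv_eq_inv_val]
      field_simp
    rw [lxa_qf D hT ha hx hs, LX_quad D hTp hT ha hy (qf hx).L (qf hx).deg _ hyx hs]

/-- the continuation to `Re s > 1` -/
theorem RX_spec (hTp : ∀ p ∈ T, p.Prime) (hT : ∀ p : ℕ, p.Prime → p < 101 → p ∈ T)
    (ha : ∀ q : ℕ, |a q| ≤ 2 * Real.sqrt q)
    (hR : ∀ (F : Type) [Field F] [NumberField F], RH D a F) (x : Kˣ) :
    DifferentiableOn ℂ (RX D a x) {s : ℂ | 1 < s.re} ∧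
      ∀ s : ℂ, 3 / 2 < s.re → RX D a x s = LX D a x s := by
  by_cases hx : IsSquare x
  · have h1 := RF_spec D a (hR K)
    have e1 : RX D a x = fun s => RF D a K s ^ 2 := dif_pos hx
    rw [e1]
    refine ⟨h1.1.pow 2, fun s hs => ?_⟩
    rw [LX_sq D hTp hT ha hx hs, ← h1.2 s hs]
  · have h1 := RF_spec D a (hR (qf hx).L)
    have e1 : RX D a x = RF D a (qf hx).L := dif_neg hx
    rw [e1]
    refine ⟨h1.1, fun s hs => ?_⟩
    rw [lxa_qf D hT ha hx hs, h1.2 s hs]

end Pool.Agent.THF
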