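import Pool.Agent.THF.K.Defs
import Pool.Agent.HWR.MainAux
import Pool.Agent.QD.In.GGX

/-!
# THF/K-LXb: the function `LX x`, analyticity, and bounds for `gam1`

`LX x` is a product of an exponential, a power of `gam1`, an absolutely and locally uniformly convergent infinite product
(`‖FF a q t s - 1‖ ≤ 15 q^(1/2 - Re s)`) and the inverse of the finite product `plx`.  `gam1_up`: `‖Γ(s)‖ ≤ Γ(Re s)`.
`gam1_low`: `gam1` is continuous and nonzero for `Re s > 0`, compactness.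
-/

namespace Pool.Agent.THF

open NumberField IsDedekindDomain Pool.Agent.HWR Pool.Agent.QD Pool.Agent.QD.In Pool.Agent.LD
  Pool.Agent.MD

variable {K : Type} [Field K] [NumberField K] {T : Finset ℕ} (D : LocData T) {a : ℕ → ℝ}
  (S : Finset (HeightOneSpectrum (𝓞 K)))

section gen

variable {ι : Type} {f : ι → ℂ → ℂ} {σ₀ : ℝ} {u : ℝ → ι → ℝ}

private theorem lxb_sum (hu : ∀ b, σ₀ < b → Summable (u b))
    (hb : ∀ b, σ₀ < b → ∀ s : ℂ, b ≤ s.re → ∀ i, ‖f i s - 1‖ ≤ u b i) {s : ℂ} (hs : σ₀ < s.re) :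
    Summable fun i => ‖f i s - 1‖ :=
  Summable.of_nonneg_of_le (fun _ => norm_nonneg _) (fun i => hb s.re hs s le_rfl i) (hu s.re hs)

private theorem lxb_ne (hu : ∀ b, σ₀ < b → Summable (u b))
    (hb : ∀ b, σ₀ < b → ∀ s : ℂ, b ≤ s.re → ∀ i, ‖f i s - 1‖ ≤ u b i) {s : ℂ} (hs : σ₀ < s.re)
    (h0 : ∀ i, f i s ≠ 0) : ∏' i, f i s ≠ 0 := by
  have h := tprod_one_add_ne_zero_of_summable (f := fun i => f i s - 1)
    (fun i => by rw [add_sub_cancel]; exact h0 i) (lxb_sum hu hb hs)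
  simpa only [add_sub_cancel] using h

private theorem lxb_diff (hu : ∀ b, σ₀ < b → Summable (u b))
    (hb : ∀ b, σ₀ < b → ∀ s : ℂ, b ≤ s.re → ∀ i, ‖f i s - 1‖ ≤ u b i)
    (hd : ∀ i (s : ℂ), σ₀ < s.re → DifferentiableAt ℂ (f i) s) :
    DifferentiableOn ℂ (fun s => ∏' i, f i s) {s : ℂ | σ₀ < s.re} := by
  intro s hs
  have hs' : σ₀ < s.re := hs
  have hb0 : σ₀ < (σ₀ + s.re) / 2 := by linarith
  have hU : IsOpen {z : ℂ | (σ₀ + s.re) / 2 < z.re} := isOpen_lt continuous_const Complex.continuous_re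
  have hsU : s ∈ {z : ℂ | (σ₀ + s.re) / 2 < z.re} := by
    change (σ₀ + s.re) / 2 < s.re
    linarith
  have h1 := Summable.hasProdLocallyUniformlyOn_one_add (f := fun i z => f i z - 1) hU (hu _ hb0)
    (Filter.Eventually.of_forall fun i z hz => hb _ hb0 z (le_of_lt hz) i)
    (fun i z hz => ((hd i z (hb0.trans hz)).continuousAt.sub continuousAt_const).continuousWithinAt)
  simp only [add_sub_cancel] at h1
  rw [hasProdLocallyUniformlyOn_iff_tendstoLocallyUniformlyOn] at h1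
  have h2 := h1.differentiableOn (Filter.Eventually.of_forall fun t z hz => by
    refine DifferentiableAt.differentiableWithinAt ?_
    exact DifferentiableAt.fun_finsetProd fun i _ => hd i z (hb0.trans hz)) hU
  exact (h2.differentiableAt (hU.mem_nhds hsU)).differentiableWithinAt

end gen

section loc

variable (ha : ∀ q : ℕ, |a q| ≤ 2 * Real.sqrt q) {q : ℕ} (hq : 101 ≤ q) {s : ℂ} (hs : 1 ≤ s.re)
include ha hq hs

private theorem lxb_FF_sub_one (u : ℂ) : ‖FF a q u s - 1‖ ≤ 15 * (q : ℝ) ^ (1 / 2 - s.re) := by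
  have hy0 : 0 ≤ (q : ℝ) ^ (1 / 2 - s.re) := by positivity
  have hy1 : (q : ℝ) ^ (1 / 2 - s.re) ≤ 1 :=
    Real.rpow_le_one_of_one_le_of_nonpos (by exact_mod_cast (by omega : 1 ≤ q)) (by linarith)
  have h1 := efac_sub_one ha hq hs
  have h2 := Fm_sub_one ha hq hs
  unfold Pool.Agent.HWR.FF
  split_ifs
  · unfold F1
    have h3 : ‖efac a q s + 1‖ ≤ 5 := by
      calc ‖efac a q s + 1‖ = ‖(efac a q s - 1) + 2‖ := by ring_nf
        _ ≤ ‖efac a q s - 1‖ + ‖(2 : ℂ)‖ := norm_add_le _ _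
        _ ≤ 3 * (q : ℝ) ^ (1 / 2 - s.re) + 2 := by
            refine add_le_add h1 ?_
            norm_num
        _ ≤ 5 := by linarith
    calc ‖efac a q s ^ 2 - 1‖ = ‖efac a q s - 1‖ * ‖efac a q s + 1‖ := by
          rw [← norm_mul]; ring_nf
      _ ≤ (3 * (q : ℝ) ^ (1 / 2 - s.re)) * 5 := mul_le_mul h1 h3 (norm_nonneg _) (by positivity)
      _ = 15 * (q : ℝ) ^ (1 / 2 - s.re) := by ring
  · have h3 : (q : ℝ) ^ (1 - 2 * s.re) ≤ (q : ℝ) ^ (1 / 2 - s.re) :=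
      Real.rpow_le_rpow_of_exponent_le (by exact_mod_cast (by omega : 1 ≤ q)) (by linarith)
    linarith
  · linarith

private theorem lxb_FF_ne (u : ℂ) : FF a q u s ≠ 0 := by
  unfold Pool.Agent.HWR.FF
  split_ifs
  · exact pow_ne_zero 2 (efac_ne ha hq hs)
  · exact Fm_ne ha hq hs
  · exact efac_ne ha hq hs

private theorem lxb_FF_diff (u : ℂ) : DifferentiableAt ℂ (FF a q u) s := by
  have h : FF a q u = fun s => if u = 1 then F1 a q s else if u = -1 then Fm a q s else efac a q s := rfl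
  rw [h]
  split_ifs
  · exact (efac_diff ha hq hs).pow 2
  · exact Fm_diff ha hq hs
  · exact efac_diff ha hq hs

end loc

private theorem lxb_u (K : Type) [Field K] [NumberField K] (T : Finset ℕ) (b : ℝ) (hb : 3 / 2 < b) :
    Summable fun v : {v : HeightOneSpectrum (𝓞 K) // Away K T v} =>
      15 * (nrm v.1 : ℝ) ^ (1 / 2 - b) := by
  have h2 := ((summable_nrm K (x := b - 1 / 2) (by linarith)).comp_injective
    (Subtype.val_injective (p := fun w => Away K T w))).mul_left 15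
  refine h2.congr fun v => ?_
  have h4 : (1 / 2 - b : ℝ) = -(b - 1 / 2) := by ring
  rw [h4]
  rfl

private theorem lxb_b (hT : ∀ p : ℕ, p.Prime → p < 101 → p ∈ T)
    (ha : ∀ q : ℕ, |a q| ≤ 2 * Real.sqrt q) (x : Kˣ) (b : ℝ) (hb : 3 / 2 < b) (s : ℂ) (hs : b ≤ s.re)
    (v : {v : HeightOneSpectrum (𝓞 K) // Away K T v}) :
    ‖FF a (nrm v.1) (tt x v.1) s - 1‖ ≤ 15 * (nrm v.1 : ℝ) ^ (1 / 2 - b) := by
  have hq := nrm_ge K T hT v.1 v.2
  refine (lxb_FF_sub_one ha hq (by linarith) _).trans ?_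
  have h1 : (1 : ℝ) ≤ nrm v.1 := by exact_mod_cast (by omega : 1 ≤ nrm v.1)
  have := Real.rpow_le_rpow_of_exponent_le h1 (show 1 / 2 - s.re ≤ 1 / 2 - b by linarith)
  linarith

private theorem lxb_plx_ne (x : Kˣ) {s : ℂ} (hs : 3 / 2 ≤ s.re) : plx D x s ≠ 0 := by
  unfold plx
  split_ifs with h
  · exact pow_ne_zero 2 (pl_ne D K hs)
  · exact pl_ne D _ hs

private theorem lxb_plx_diff (x : Kˣ) : Differentiable ℂ (plx D x) := by
  by_cases h : IsSquare x
  · have h1 : plx D x = fun s => D.pl K s ^ 2 := by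
      funext s
      unfold plx
      rw [dif_pos h]
    rw [h1]
    exact (pl_diff D K).pow 2
  · have h1 : plx D x = D.pl (qf h).L := by
      funext s
      unfold plx
      rw [dif_neg h]
    rw [h1]
    exact pl_diff D _

private theorem lxb_c (x : Kˣ) : ((dd x ^ 2 * cdx D x : ℝ) : ℂ) ≠ 0 := by
  have h : 0 < dd x ^ 2 * cdx D x := mul_pos (pow_pos (dd_pos x) 2) (cdx_pos D x)
  exact_mod_cast h.ne'

theorem LX_diff (hT : ∀ p : ℕ, p.Prime → p < 101 → p ∈ T)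
    (ha : ∀ q : ℕ, |a q| ≤ 2 * Real.sqrt q) (x : Kˣ) :
    DifferentiableOn ℂ (LX D a x) {s : ℂ | 3 / 2 < s.re} := by
  have h1 : DifferentiableOn ℂ (fun s => ∏' v : {v : HeightOneSpectrum (𝓞 K) // Away K T v},
      FF a (nrm v.1) (tt x v.1) s) {s : ℂ | 3 / 2 < s.re} :=
    lxb_diff (σ₀ := 3 / 2) (u := fun b v => 15 * (nrm v.1 : ℝ) ^ (1 / 2 - b)) (lxb_u K T)
      (lxb_b hT ha x) fun v s hs => lxb_FF_diff ha (nrm_ge K T hT v.1 v.2) (by linarith) _
  intro s hs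
  have hs' : 3 / 2 < s.re := hs
  have h2 : DifferentiableAt ℂ (fun s : ℂ => ((dd x ^ 2 * cdx D x : ℝ) : ℂ) ^ (s / 2)) s :=
    DifferentiableAt.const_cpow (by fun_prop) (Or.inl (lxb_c D x))
  have h3 : DifferentiableAt ℂ (fun s : ℂ => gam1 s ^ (2 * Module.finrank ℚ K)) s :=
    (gam1_diff (by linarith)).pow _
  have h4 := (h1 s hs).div (lxb_plx_diff D x s).differentiableWithinAt (lxb_plx_ne D x hs'.le)
  exact ((h2.mul h3).differentiableWithinAt).mul h4

theorem LX_ne (hT : ∀ p : ℕ, p.Prime → p < 101 → p ∈ T)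
    (ha : ∀ q : ℕ, |a q| ≤ 2 * Real.sqrt q) (x : Kˣ) {s : ℂ} (hs : 3 / 2 < s.re) :
    LX D a x s ≠ 0 := by
  unfold LX
  refine mul_ne_zero (mul_ne_zero ?_ (pow_ne_zero _ (gam1_ne (by linarith))))
    (div_ne_zero ?_ (lxb_plx_ne D x hs.le))
  · rw [Complex.cpow_def_of_ne_zero (lxb_c D x)]
    exact Complex.exp_ne_zero _
  · exact lxb_ne (σ₀ := 3 / 2) (f := fun (v : {v : HeightOneSpectrum (𝓞 K) // Away K T v}) s =>
      FF a (nrm v.1) (tt x v.1) s) (u := fun b v => 15 * (nrm v.1 : ℝ) ^ (1 / 2 - b)) (lxb_u K T)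
      (lxb_b hT ha x) hs fun v => lxb_FF_ne ha (nrm_ge K T hT v.1 v.2) (by linarith) _

/-- `gam1` is bounded in vertical strips on the right -/
theorem gam1_up {x1 x2 : ℝ} (hx1 : 0 < x1) : ∃ C : ℝ, 0 ≤ C ∧ ∀ s : ℂ, x1 ≤ s.re → s.re ≤ x2 →
    ‖gam1 s‖ ≤ C := by
  have hc : ContinuousOn (fun r : ℝ => (2 * Real.pi) ^ (-r) * Real.Gamma r) (Set.Icc x1 x2) := by
    intro r hr
    have hr0 : 0 < r := hx1.trans_le hr.1
    have h1 : ContinuousAt Real.Gamma r := by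
      refine (Real.differentiableAt_Gamma fun m hm => ?_).continuousAt
      have : (0 : ℝ) ≤ m := Nat.cast_nonneg m
      linarith
    have h2 : ContinuousAt (fun r : ℝ => (2 * Real.pi) ^ (-r)) r :=
      ContinuousAt.rpow continuousAt_const continuousAt_id.neg (Or.inl (by positivity))
    exact (h2.mul h1).continuousWithinAt
  obtain ⟨C, hC⟩ := isCompact_Icc.exists_bound_of_continuousOn hc
  refine ⟨max C 0, le_max_right _ _, fun s h1 h2 => ?_⟩
  have h3 := hC s.re ⟨h1, h2⟩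
  have hs : 0 < s.re := hx1.trans_le h1
  have h4 : ‖(2 * Real.pi : ℂ) ^ (-s)‖ = (2 * Real.pi) ^ (-s.re) := by
    rw [show (2 * Real.pi : ℂ) = ((2 * Real.pi : ℝ) : ℂ) by push_cast; ring,
      Complex.norm_cpow_eq_rpow_re_of_pos (by positivity), Complex.neg_re]
  have h5 : ‖gam1 s‖ ≤ (2 * Real.pi) ^ (-s.re) * Real.Gamma s.re := by
    unfold gam1
    rw [norm_mul, h4]
    exact mul_le_mul_of_nonneg_left (norm_Gamma_le hs) (by positivity)
  exact h5.trans ((le_abs_self _).trans (h3.trans (le_max_left _ _)))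

/-- on compact sets `gam1` is bounded below -/
theorem gam1_low {Q : Set ℂ} (hQ : IsCompact Q) (hQ1 : ∀ s ∈ Q, 0 < s.re) : ∃ c : ℝ, 0 < c ∧
    ∀ s ∈ Q, c ≤ ‖gam1 s‖ := by
  rcases Q.eq_empty_or_nonempty with rfl | hne
  · exact ⟨1, one_pos, fun s hs => hs.elim⟩
  · have hc : ContinuousOn (fun s => ‖gam1 s‖) Q := fun s hs =>
      (gam1_diff (hQ1 s hs)).continuousAt.norm.continuousWithinAt
    obtain ⟨s0, hs0, hmin⟩ := hQ.exists_isMinOn hne hc
    exact ⟨‖gam1 s0‖, norm_pos_iff.2 (gam1_ne (hQ1 s0 hs0)), fun s hs => hmin hs⟩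

end Pool.Agent.THF
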