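import Pool.Agent.THF.K.LXc
import Pool.Agent.THF.K.LXa
import Pool.Agent.QD.A.PL

/-!
# THF/K-Thin: uniform bounds for the entire functions of the known fields (paper, proof of Lemma 4.2)

`thin2`: the entire function `Λ` of `K(√x)` satisfies `Λ s = w Λ (2 - s)` with `w = 1` or `w = -1`,
it is bounded on the line `Re s = max X 4 + 2` by `LX_up` and `gam1_up`, so by Phragmen and Lindelof
(`pl_poly`) in the strip between this line and its mirror image.
-/

namespace Pool.Agent.THF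

open NumberField IsDedekindDomain Pool.Agent.HWR Pool.Agent.QD Pool.Agent.QD.In Pool.Agent.LD
  Pool.Agent.MD

variable {K : Type} [Field K] [NumberField K] {T : Finset ℕ} (hTp : ∀ p ∈ T, p.Prime)
  (hT : ∀ p : ℕ, p.Prime → p < 101 → p ∈ T) (D : LocData T) {a : ℕ → ℝ}
  (ha : ∀ q : ℕ, |a q| ≤ 2 * Real.sqrt q) {T1 : Finset ℕ}
  {S V : Finset (HeightOneSpectrum (𝓞 K))} (hS : Nic T1 S)
  (hST : ∀ v, ¬ Away K T v → v ∈ S) (hne : V.Nonempty)

theorem oddN_mul_le (S : Finset (HeightOneSpectrum (𝓞 K))) (x z : Kˣ) :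
    oddN S (x * z) ≤ oddN S x * oddN S z := by
  classical
  have hfin : {v : Io S | ordK v.1 x ≠ 0 ∨ ordK v.1 z ≠ 0}.Finite :=
    ((Pool.Agent.QD.ordK_finite x).union (Pool.Agent.QD.ordK_finite z)).preimage
      Subtype.val_injective.injOn
  have h : ∀ y : Kˣ, (∀ v : Io S, v ∉ hfin.toFinset → ordK v.1 y = 0) →
      oddN S y = ∏ v ∈ hfin.toFinset, if Odd (ordK v.1 y) then nrm v.1 else 1 := by
    intro y hy
    unfold oddN
    refine finprod_eq_prod_of_mulSupport_subset _ ?_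
    intro v hv
    by_contra h1
    refine hv ?_
    have h2 : ¬ Odd (ordK v.1 y) := by
      rw [hy v h1]
      decide
    exact if_neg h2
  have hx : ∀ v : Io S, v ∉ hfin.toFinset → ordK v.1 x = 0 ∧ ordK v.1 z = 0 := by
    intro v hv
    rw [Set.Finite.mem_toFinset] at hv
    by_contra h1
    refine hv ?_
    show ordK v.1 x ≠ 0 ∨ ordK v.1 z ≠ 0
    by_contra h2
    push Not at h2
    exact h1 h2
  rw [h (x * z) fun v hv => ?_, h x fun v hv => (hx v hv).1, h z fun v hv => (hx v hv).2,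
    ← Finset.prod_mul_distrib]
  · refine Finset.prod_le_prod' fun v _ => ?_
    have hn : 1 ≤ nrm v.1 := Nat.pos_of_ne_zero (nrm_ne_zero v.1)
    by_cases h3 : Odd (ordK v.1 x)
    · rw [if_pos h3]
      by_cases h4 : Odd (ordK v.1 z)
      · rw [if_pos h4]
        have h5 : ¬ Odd (ordK v.1 (x * z)) := by
          rw [Pool.Agent.QD.ordK_mul, Int.not_odd_iff_even]
          exact h3.add_odd h4
        rw [if_neg h5]
        exact Nat.mul_le_mul hn hn
      · rw [if_neg h4, mul_one]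
        split_ifs
        · exact le_rfl
        · exact hn
    · rw [if_neg h3, one_mul]
      by_cases h4 : Odd (ordK v.1 z)
      · rw [if_pos h4]
        split_ifs
        · exact le_rfl
        · exact hn
      · rw [if_neg h4]
        have h5 : ¬ Odd (ordK v.1 (x * z)) := by
          rw [Int.not_odd_iff_even] at h3 h4 ⊢
          rw [Pool.Agent.QD.ordK_mul]
          exact h3.add h4
        rw [if_neg h5]
  · rw [Pool.Agent.QD.ordK_mul, (hx v hv).1, (hx v hv).2, add_zero]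

include hTp hT ha hS hST hne in
theorem thin2 (H : HWN D a V) (X : ℝ) : ∃ A C : ℝ, 0 ≤ A ∧ 0 ≤ C ∧ ∀ x : Kˣ, KN V x →
    ∃ Λ : ℂ → ℂ, Differentiable ℂ Λ ∧ (∀ s : ℂ, 3 / 2 < s.re → Λ s = LX D a x s) ∧
      ∀ s : ℂ, -X ≤ s.re → s.re ≤ X → ‖Λ s‖ ≤ C * (oddN S x : ℝ) ^ A * (1 + |s.im|) := by
  have hX4 : (4 : ℝ) ≤ max X 4 := le_max_right _ _
  have hXX : X ≤ max X 4 := le_max_left _ _
  obtain ⟨A, C, hA, hC, hup⟩ := LX_up D S (fun v hv => by_contra fun h => nic_two hS v h hv) hS hST hT ha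
    (x1 := max X 4 + 2) (x2 := max X 4 + 2) (by linarith)
  obtain ⟨G, hG, hgam⟩ := gam1_up (x1 := max X 4 + 2) (x2 := max X 4 + 2) (by linarith)
  obtain ⟨C0, hC0, hpl⟩ := pl_poly (-(max X 4)) (max X 4 + 2) (by linarith) 0 le_rfl
  refine ⟨A, C0 * (C * G ^ (2 * Module.finrank ℚ K)), hA, by positivity, fun x hx => ?_⟩
  have hsq : ¬ IsSquare x := by
    obtain ⟨v, hv⟩ := hne
    rintro ⟨y, rfl⟩
    refine hx.1 v hv ?_
    rw [← sq]
    exact Pool.Agent.QD.LSq_sq v y
  obtain ⟨Λ, h1, h2, h3, h4⟩ := H x hx (qf hsq).L (qf hsq).θ (qf hsq).deg (qf hsq).sq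
  have h5 : ∀ s : ℂ, 3 / 2 < s.re → Λ s = LX D a x s := fun s hs => by
    rw [h4 s hs, LX_quad D hTp hT ha hsq (qf hsq).L (qf hsq).deg (qf hsq).θ (qf hsq).sq hs]
  refine ⟨Λ, h1, h5, fun s hs1 hs2 => ?_⟩
  have hM : 0 ≤ C * (oddN S x : ℝ) ^ A * G ^ (2 * Module.finrank ℚ K) := by positivity
  have hedge : ∀ s : ℂ, s.re = max X 4 + 2 →
      ‖Λ s‖ ≤ C * (oddN S x : ℝ) ^ A * G ^ (2 * Module.finrank ℚ K) := by
    intro s hs
    rw [h5 s (by linarith)]
    refine (hup x s hs.ge hs.le).trans ?_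
    refine mul_le_mul_of_nonneg_left ?_ (by positivity)
    exact pow_le_pow_left₀ (norm_nonneg _) (hgam s hs.ge hs.le) _
  have hw : ‖D.w (qf hsq).L‖ = 1 := by
    rcases Pool.Agent.H73.AL.w_sq D (qf hsq).L with hw | hw
    · rw [hw, norm_one]
    · rw [hw, norm_neg, norm_one]
  have h6 := hpl Λ h1 h2 _ hM
    (fun s hs => by
      rw [Real.rpow_zero, mul_one, h3 s, norm_mul, hw, one_mul]
      refine hedge (2 - s) ?_
      rw [Complex.sub_re, hs, Complex.re_ofNat]
      ring)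
    (fun s hs => by
      rw [Real.rpow_zero, mul_one]
      exact hedge s hs) s (by linarith) (by linarith)
  rw [zero_add, Real.rpow_one] at h6
  refine h6.trans (le_of_eq ?_)
  ring

end Pool.Agent.THF
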