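import Pool.Agent.THF.K.Thin
import Pool.Agent.THF.K.Rel43

/-!
# THF/K-Thin4: uniform bounds for the entire functions of the known fields (paper, proof of Lemma 4.2)

`L = (qf hz).L`; `x` is no square in `L` (`not_sq_quad`), `M` is the quadratic extension of `L` generated by a square root of the image of `x`; the entire function of `M` is bounded on the line
`Re s = X' + 2` by the relation `rel43`, `LX_up` and `LX_low`, and on `Re s = -X'` by the functional equation; in between by the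
theorem of Phragmen and Lindelof (`pl_poly`).
-/

namespace Pool.Agent.THF

open NumberField IsDedekindDomain Pool.Agent.HWR Pool.Agent.QD Pool.Agent.QD.In Pool.Agent.LD
  Pool.Agent.MD

variable {K : Type} [Field K] [NumberField K] {T : Finset ℕ} (hTp : ∀ p ∈ T, p.Prime)
  (hT : ∀ p : ℕ, p.Prime → p < 101 → p ∈ T) (D : LocData T) {a : ℕ → ℝ}
  (ha : ∀ q : ℕ, |a q| ≤ 2 * Real.sqrt q) {T1 : Finset ℕ}
  {S V : Finset (HeightOneSpectrum (𝓞 K))} (hS : Nic T1 S)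
  (hST : ∀ v, ¬ Away K T v → v ∈ S) (hne : V.Nonempty)

private theorem Thin4_val {F : Type} [Field F] {x : Fˣ} (h : ¬ IsSquare x) : ¬ IsSquare (x : F) := by
  rintro ⟨r, hr⟩
  refine h ⟨Units.mk0 r ?_, ?_⟩
  · rintro rfl
    rw [mul_zero] at hr
    exact x.ne_zero hr
  · ext
    exact hr

private theorem Thin4_sq {v : HeightOneSpectrum (𝓞 K)} {x : Kˣ} (h : IsSquare x) : LSq v x := by
  obtain ⟨r, rfl⟩ := h
  rw [← pow_two]
  exact LSq_sq v r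

/-- the bound on the line -/
private theorem Thin4_alg {l p q r g o1 o2 o3 w C1 c A : ℝ} {N : ℕ} (hC1 : 0 ≤ C1) (hc : 0 < c) (hA : 0 ≤ A)
    (hg : 0 < g) (ho1 : 1 ≤ o1) (ho2 : 1 ≤ o2) (ho3 : 1 ≤ o3) (ho : o3 ≤ o1 * o2) {Cg : ℝ} (hgC : g ≤ Cg)
    (hq0 : 0 ≤ q) (hr0 : 0 ≤ r) (hl0 : 0 ≤ l)
    (hp : p ≤ C1 * o1 ^ A * g ^ N) (hq : q ≤ C1 * o2 ^ A * g ^ N) (hr : r ≤ C1 * o3 ^ A * g ^ N)
    (hw : c * g ^ N ≤ w) (h : w * l = p * q * r) :
    l ≤ C1 ^ 3 / c * (Cg ^ N) ^ 2 * (o1 * o2) ^ (2 * A) := by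
  have hG : 0 < g ^ N := by positivity
  have ho1' : (0 : ℝ) < o1 := by linarith
  have ho2' : (0 : ℝ) < o2 := by linarith
  have ho3' : (0 : ℝ) < o3 := by linarith
  have h1 : o3 ^ A ≤ (o1 * o2) ^ A := Real.rpow_le_rpow ho3'.le ho hA
  have h2 : (o1 * o2) ^ (2 * A) = (o1 ^ A * o2 ^ A) * (o1 * o2) ^ A := by
    rw [← Real.mul_rpow ho1'.le ho2'.le, two_mul, Real.rpow_add (by positivity)]
  have h3 : p * q * r ≤ (C1 * o1 ^ A * g ^ N) * (C1 * o2 ^ A * g ^ N) * (C1 * o3 ^ A * g ^ N) := by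
    refine mul_le_mul (mul_le_mul hp hq hq0 (by positivity)) hr hr0 (by positivity)
  have h4 : (C1 * o1 ^ A * g ^ N) * (C1 * o2 ^ A * g ^ N) * (C1 * o3 ^ A * g ^ N) ≤
      (C1 ^ 3 * (o1 * o2) ^ (2 * A)) * (g ^ N) ^ 3 := by
    rw [h2]
    have h5 : (C1 * o1 ^ A * g ^ N) * (C1 * o2 ^ A * g ^ N) * (C1 * o3 ^ A * g ^ N) =
        (C1 ^ 3 * (o1 ^ A * o2 ^ A) * (g ^ N) ^ 3) * o3 ^ A := by ring
    rw [h5]
    calc (C1 ^ 3 * (o1 ^ A * o2 ^ A) * (g ^ N) ^ 3) * o3 ^ A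
        ≤ (C1 ^ 3 * (o1 ^ A * o2 ^ A) * (g ^ N) ^ 3) * (o1 * o2) ^ A :=
          mul_le_mul_of_nonneg_left h1 (by positivity)
      _ = _ := by ring
  have h6 : (c * g ^ N) * l ≤ (C1 ^ 3 * (o1 * o2) ^ (2 * A)) * (g ^ N) ^ 3 :=
    calc (c * g ^ N) * l ≤ w * l := mul_le_mul_of_nonneg_right hw hl0
      _ = p * q * r := h
      _ ≤ _ := h3.trans h4
  have h7 : l ≤ C1 ^ 3 / c * (g ^ N) ^ 2 * (o1 * o2) ^ (2 * A) := by
    have h8 : l * (c * g ^ N) ≤ (C1 ^ 3 / c * (g ^ N) ^ 2 * (o1 * o2) ^ (2 * A)) * (c * g ^ N) := by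
      have h9 : (C1 ^ 3 / c * (g ^ N) ^ 2 * (o1 * o2) ^ (2 * A)) * (c * g ^ N) =
          (C1 ^ 3 * (o1 * o2) ^ (2 * A)) * (g ^ N) ^ 3 := by
        field_simp
      rw [h9, mul_comm]
      exact h6
    exact le_of_mul_le_mul_right h8 (by positivity)
  refine h7.trans (mul_le_mul_of_nonneg_right ?_ (by positivity))
  refine mul_le_mul_of_nonneg_left ?_ (by positivity)
  have h10 : g ^ N ≤ Cg ^ N := pow_le_pow_left₀ hg.le hgC N
  exact pow_le_pow_left₀ hG.le h10 2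

include hTp hT ha hS hST hne in
theorem thin4 (H4 : HWN4 D a V) (X : ℝ) : ∃ A C : ℝ, 0 ≤ A ∧ 0 ≤ C ∧ ∀ x z : Kˣ, ¬ IsSquare x →
    KN V z → (∀ v : HeightOneSpectrum (𝓞 K), ¬ Away K T v → LSq v z) → ¬ IsSquare (x * z) →
    ∃ Λ : ℂ → ℂ, Differentiable ℂ Λ ∧
      (∀ s : ℂ, 3 / 2 < s.re →
        D.Lam a K s ^ 2 * Λ s = LX D a x s * LX D a z s * LX D a (x * z) s) ∧
      ∀ s : ℂ, -X ≤ s.re → s.re ≤ X →
        ‖Λ s‖ ≤ C * ((oddN S x : ℝ) * oddN S z) ^ A * (1 + |s.im|) := by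
  have h2 : ∀ v : HeightOneSpectrum (𝓞 K), (2 : 𝓞 K) ∈ v.asIdeal → v ∈ S := by
    intro v hv
    refine hST v fun h => h 2 (hT 2 Nat.prime_two (by norm_num)) ?_
    exact_mod_cast hv
  obtain ⟨X', hX', hX4⟩ : ∃ X' : ℝ, X ≤ X' ∧ 4 ≤ X' := ⟨max X 4, le_max_left _ _, le_max_right _ _⟩
  obtain ⟨A, C1, hA, hC1, hup⟩ := LX_up D S h2 hS hST hT ha (x1 := X' + 2) (x2 := X' + 2) (by linarith)
  obtain ⟨c, hc, hlow⟩ := LX_low D S h2 hS hST hT ha (x1 := X' + 2) (x2 := X' + 2) (by linarith)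
  obtain ⟨Cg, hCg, hgu⟩ := gam1_up (x1 := X' + 2) (x2 := X' + 2) (by linarith)
  obtain ⟨C0, hC0, hpl⟩ := pl_poly (-X') (X' + 2) (by linarith) 0 le_rfl
  refine ⟨2 * A, C0 * (C1 ^ 3 / c * (Cg ^ (2 * Module.finrank ℚ K)) ^ 2), by linarith, by positivity,
    fun x z hx hz hzT hxz => ?_⟩
  have hzn : ¬ IsSquare z := by
    intro h
    obtain ⟨v, hv⟩ := hne
    exact hz.1 v hv (Thin4_sq h)
  have hxz' : ¬ IsSquare (z * x) := by
    rwa [mul_comm]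
  -- the fields
  have hxL : ¬ IsSquare (algebraMap K (qf hzn).L (x : K)) := by
    refine not_sq_quad (a := (z : K)) (b := (x : K)) (Thin4_val hzn) (Thin4_val hx) ?_ (qf hzn).θ
      (qf hzn).sq (qf hzn).deg
    have h := Thin4_val hxz'
    rwa [Units.val_mul] at h
  have hxL' : ¬ IsSquare (Units.map (algebraMap K (qf hzn).L : K →* (qf hzn).L) x) := by
    rintro ⟨r, hr⟩
    refine hxL ⟨(r : (qf hzn).L), ?_⟩
    have h := congrArg (fun u : (qf hzn).Lˣ => (u : (qf hzn).L)) hr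
    exact h
  have hη : (qf hxL').θ ^ 2 = algebraMap (qf hzn).L (qf hxL').L (algebraMap K (qf hzn).L (x : K)) :=
    (qf hxL').sq
  obtain ⟨Λ, hd, hfo, hfe, heq⟩ := H4 z hz (qf hzn).L (qf hzn).θ (qf hzn).deg (qf hzn).sq (qf hxL').L (qf hxL').deg
  have hrel : ∀ s : ℂ, 3 / 2 < s.re →
      D.Lam a K s ^ 2 * Λ s = LX D a x s * LX D a z s * LX D a (x * z) s := by
    intro s hs
    rw [heq s hs]
    exact rel43 hTp hT D ha hx hzn hxz hzT (qf hzn).L (qf hzn).deg (qf hzn).θ (qf hzn).sq (qf hxL').L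
      (qf hxL').deg (qf hxL').θ hη hs
  refine ⟨Λ, hd, hrel, ?_⟩
  -- the bound on the line
  have ho1 : (1 : ℝ) ≤ oddN S x := by exact_mod_cast (oddN_pos S x)
  have ho2 : (1 : ℝ) ≤ oddN S z := by exact_mod_cast (oddN_pos S z)
  have ho3 : (1 : ℝ) ≤ oddN S (x * z) := by exact_mod_cast (oddN_pos S (x * z))
  have ho : (oddN S (x * z) : ℝ) ≤ (oddN S x : ℝ) * oddN S z := by
    exact_mod_cast oddN_mul_le S x z
  set M : ℝ := C1 ^ 3 / c * (Cg ^ (2 * Module.finrank ℚ K)) ^ 2 *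
    ((oddN S x : ℝ) * oddN S z) ^ (2 * A) with hM
  have hM0 : 0 ≤ M := by positivity
  have hline : ∀ s : ℂ, s.re = X' + 2 → ‖Λ s‖ ≤ M := by
    intro s hs
    have hs1 : X' + 2 ≤ s.re := hs.ge
    have hs2 : s.re ≤ X' + 2 := hs.le
    have hs3 : 3 / 2 < s.re := by linarith
    have h1 := hrel s hs3
    rw [← LX_sq D hTp hT ha (x := 1) ⟨1, (one_mul 1).symm⟩ hs3] at h1
    have h3 := congrArg norm h1
    rw [norm_mul, norm_mul, norm_mul] at h3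
    exact Thin4_alg hC1 hc hA (norm_pos_iff.2 (gam1_ne (by linarith))) ho1 ho2 ho3 ho (hgu s hs1 hs2)
      (norm_nonneg _) (norm_nonneg _) (norm_nonneg _) (hup x s hs1 hs2) (hup z s hs1 hs2)
      (hup (x * z) s hs1 hs2) (hlow 1 s hs1 hs2) h3
  have hw : ‖D.w (qf hxL').L‖ = 1 := by
    rcases Pool.Agent.H73.AL.w_sq D (qf hxL').L with h | h <;> rw [h] <;> simp
  have hline' : ∀ s : ℂ, s.re = -X' → ‖Λ s‖ ≤ M := by
    intro s hs
    rw [hfe s, norm_mul, hw, one_mul]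
    refine hline _ ?_
    rw [Complex.sub_re, hs, Complex.re_ofNat]
    ring
  intro s hs1 hs2
  have h1 := hpl Λ hd hfo M hM0 (fun s hs => by simpa using hline' s hs) (fun s hs => by simpa using hline s hs)
    s (by linarith) (by linarith)
  rw [zero_add, Real.rpow_one] at h1
  refine h1.trans (le_of_eq ?_)
  rw [hM]
  ring

end Pool.Agent.THF
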