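import Pool.Agent.THF.K.Fam1
import Pool.Agent.QD.F.Mer
import Pool.Agent.THF.K.SymN
import Pool.Agent.THF.K.Std
import Pool.Agent.QD.F.Trace

/-!
# THF/K-St1: STEP 1, the completed L-function of every number field continues to `Re s > 1` (paper section 3)

PLAN.  `exists_S`, `fam1`, `symN` with `x0 = 3/2` (`hST`, `V`): `N`, `B1`, `Z`, `A`.  `R s = N s / (B1 s * ((2 s - 2) * Z (2 s - 1)) * D.Lam a K (s + 1/2) * SP K a T s)` for `Re s > 1`: all factors of the denominator are differentiable and nonzero there: `Z (2s-1) = (2s-2) ZP K (2s-1)`, `ZP ≠ 0` (infinite product of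
factors `(1 - N^(-w))⁻¹`, convergent: `tprod_ne_zero'`, QD/In/Prod, or `LD/E/Zeta`, `MD/S/ZExt`), `Lam_ne` (H73/AL/Final), `SP`: `gen_ne` (MD/S/SymD); differentiability: `gen_diff`, `D.Lam a K` on `Re > 3/2`: by `exists_b` it is `Ls / b`, or from the definition (LT differentiable: `Ls_diff`).
`R = Lam` for `Re s > A`; on `3/2 < Re s` by the identity theorem (convex).
-/

namespace Pool.Agent.THF

open NumberField IsDedekindDomain Pool.Agent.HWR Pool.Agent.QD Pool.Agent.QD.In Pool.Agent.LD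
  Pool.Agent.MD

private theorem sta_diff {ι : Type} {f : ι → ℂ → ℂ} {σ₀ : ℝ} {u : ℝ → ι → ℝ}
    (hu : ∀ b, σ₀ < b → Summable (u b))
    (hb : ∀ b, σ₀ < b → ∀ s : ℂ, b ≤ s.re → ∀ i, ‖f i s - 1‖ ≤ u b i)
    (hd : ∀ i (s : ℂ), σ₀ < s.re → DifferentiableAt ℂ (f i) s) :
    DifferentiableOn ℂ (fun s => ∏' i, f i s) {s : ℂ | σ₀ < s.re} := by
  intro s hs
  have hs' : σ₀ < s.re := hs
  have hb0 : σ₀ < (σ₀ + s.re) / 2 := by linarith
  have hU : IsOpen {z : ℂ | (σ₀ + s.re) / 2 < z.re} := isOpen_lt continuous_const Complex.continuous_re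
  have hsU : s ∈ {z : ℂ | (σ₀ + s.re) / 2 < z.re} := by
    change (σ₀ + s.re) / 2 < s.re
    linarith
  have h1 := Summable.hasProdLocallyUniformlyOn_one_add (f := fun i z => f i z - 1) hU (hu _ hb0)
    (Filter.Eventually.of_forall fun i z hz => hb _ hb0 z (le_of_lt hz) i)
    (fun i z hz => ((hd i z (hb0.trans hz)).continuousAt.sub continuousAt_const).continuousWithinAt)
  simp only [add_sub_cancel] at h1
  rw [hasProdLocallyUniformlyOn_iff_tendstoLocallyUniformlyOn] at h1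
  have h2 := h1.differentiableOn (Filter.Eventually.of_forall fun t z hz => by
    refine DifferentiableAt.differentiableWithinAt ?_
    exact DifferentiableAt.fun_finsetProd fun i _ => hd i z (hb0.trans hz)) hU
  exact (h2.differentiableAt (hU.mem_nhds hsU)).differentiableWithinAt

private theorem sta_LT {K : Type} [Field K] [NumberField K] {T : Finset ℕ}
    (hT : ∀ p : ℕ, p.Prime → p < 101 → p ∈ T) {a : ℕ → ℝ}
    (ha : ∀ q : ℕ, |a q| ≤ 2 * Real.sqrt q) :
    DifferentiableOn ℂ (LT K a T) {s : ℂ | 3 / 2 < s.re} := by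
  have h := sta_diff (σ₀ := 3 / 2)
    (f := fun (v : {v : HeightOneSpectrum (𝓞 K) // Away K T v}) s => efac a (nrm v.1) s)
    (u := fun b v => 3 * (nrm v.1 : ℝ) ^ (1 / 2 - b)) ?_ ?_ ?_
  · exact h
  · intro b hb
    have h2 := ((summable_nrm K (x := b - 1 / 2) (by linarith)).comp_injective
      (Subtype.val_injective (p := fun w => Away K T w))).mul_left 3
    refine h2.congr fun v => ?_
    have h4 : (1 / 2 - b : ℝ) = -(b - 1 / 2) := by ring
    rw [h4]
    rfl
  · intro b hb s hs v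
    refine (efac_sub_one ha (nrm_ge K T hT v.1 v.2) (by linarith)).trans ?_
    have h0 := nrm_ge K T hT v.1 v.2
    have h1 : (1 : ℝ) ≤ nrm v.1 := by exact_mod_cast (by omega : 1 ≤ nrm v.1)
    have h2 := Real.rpow_le_rpow_of_exponent_le h1 (show 1 / 2 - s.re ≤ 1 / 2 - b by linarith)
    linarith
  · intro v s hs
    exact efac_diff ha (nrm_ge K T hT v.1 v.2) (by linarith)

theorem Lam_diff {K : Type} [Field K] [NumberField K] {T : Finset ℕ} (hTp : ∀ p ∈ T, p.Prime)
    (hT : ∀ p : ℕ, p.Prime → p < 101 → p ∈ T) (D : LocData T) {a : ℕ → ℝ}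
    (ha : ∀ q : ℕ, |a q| ≤ 2 * Real.sqrt q) :
    DifferentiableOn ℂ (D.Lam a K) {s : ℂ | 3 / 2 < s.re} := by
  have hA : ((D.A K : ℝ) : ℂ) ≠ 0 := by exact_mod_cast (Pool.Agent.H73.AL.A_pos D K).ne'
  intro s hs
  have hs' : 3 / 2 < s.re := hs
  have h1 : DifferentiableWithinAt ℂ (fun s : ℂ => ((D.A K : ℝ) : ℂ) ^ (s / 2))
      {s : ℂ | 3 / 2 < s.re} s :=
    ((differentiableAt_id.div_const 2).const_cpow (Or.inl hA)).differentiableWithinAt
  have h2 : DifferentiableWithinAt ℂ (fun s : ℂ => gam1 s ^ Module.finrank ℚ K)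
      {s : ℂ | 3 / 2 < s.re} s :=
    ((gam1_diff (by linarith : 0 < s.re)).pow _).differentiableWithinAt
  have h3 : DifferentiableWithinAt ℂ (fun s : ℂ => LT K a T s / D.pl K s)
      {s : ℂ | 3 / 2 < s.re} s :=
    (sta_LT hT ha s hs).div (pl_diff D K s).differentiableWithinAt
      (Pool.Agent.H73.AL.pl_ne D hTp K (by linarith))
  exact (h1.mul h2).mul h3

private theorem sta_two {K : Type} [Field K] [NumberField K] (v : HeightOneSpectrum (𝓞 K)) :
    2 ≤ nrm v := by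
  have h1 := nrm_ne_zero v
  have h2 := nrm_ne_one v
  omega

private theorem sta_ne {K : Type} [Field K] [NumberField K] (v : HeightOneSpectrum (𝓞 K)) {w : ℂ}
    (hw : 0 < w.re) : (1 : ℂ) - (nrm v : ℂ) ^ (-w) ≠ 0 := by
  intro h0
  have h5 : ‖(nrm v : ℂ) ^ (-w)‖ = 1 := by
    rw [← sub_eq_zero.1 h0, norm_one]
  rw [Complex.norm_natCast_cpow_of_pos (Nat.pos_of_ne_zero (nrm_ne_zero v)), Complex.neg_re] at h5
  have h6 : (1 : ℝ) < nrm v := by
    have := sta_two v
    exact_mod_cast this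
  have h7 : (nrm v : ℝ) ^ (-w.re) < 1 := Real.rpow_lt_one_of_one_lt_of_neg h6 (by linarith)
  linarith

private theorem sta_zsum {K : Type} [Field K] [NumberField K] {w : ℂ} (hw : 1 < w.re) :
    Summable fun v : HeightOneSpectrum (𝓞 K) => ‖(1 - (nrm v : ℂ) ^ (-w))⁻¹ - 1‖ := by
  refine Summable.of_nonneg_of_le (fun v => norm_nonneg _) (fun v => ?_)
    ((summable_nrm K hw).mul_left 2)
  have hq : (2 : ℝ) ≤ nrm v := by exact_mod_cast sta_two v
  have hn : ‖(nrm v : ℂ) ^ (-w)‖ = (nrm v : ℝ) ^ (-w.re) := by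
    rw [Complex.norm_natCast_cpow_of_pos (Nat.pos_of_ne_zero (nrm_ne_zero v)), Complex.neg_re]
  have hle : ‖(nrm v : ℂ) ^ (-w)‖ ≤ 1 / 2 := by
    rw [hn]
    calc (nrm v : ℝ) ^ (-w.re) ≤ (nrm v : ℝ) ^ (-1 : ℝ) :=
          Real.rpow_le_rpow_of_exponent_le (by linarith) (by linarith)
      _ = (nrm v : ℝ)⁻¹ := Real.rpow_neg_one _
      _ ≤ 1 / 2 := by
          rw [one_div]
          exact inv_anti₀ (by norm_num) hq
  have hne := sta_ne v (w := w) (by linarith)
  have h1 : (1 - (nrm v : ℂ) ^ (-w))⁻¹ - 1 = (nrm v : ℂ) ^ (-w) * (1 - (nrm v : ℂ) ^ (-w))⁻¹ := by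
    field_simp
    ring
  have h2 : (1 : ℝ) / 2 ≤ ‖1 - (nrm v : ℂ) ^ (-w)‖ := by
    have := norm_sub_norm_le (1 : ℂ) ((nrm v : ℂ) ^ (-w))
    rw [norm_one] at this
    linarith
  rw [h1, norm_mul, norm_inv, hn, mul_comm]
  refine mul_le_mul_of_nonneg_right ?_ (by positivity)
  calc ‖1 - (nrm v : ℂ) ^ (-w)‖⁻¹ ≤ (1 / 2 : ℝ)⁻¹ := inv_anti₀ (by norm_num) h2
    _ = 2 := by norm_num

private theorem sta_ZP {K : Type} [Field K] [NumberField K] {w : ℂ} (hw : 1 < w.re) :
    ZP K w ≠ 0 :=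
  tprod_ne_zero' _ (sta_zsum hw) fun v => inv_ne_zero (sta_ne v (by linarith))

theorem step1 {T : Finset ℕ} (hTp : ∀ p ∈ T, p.Prime)
    (hT : ∀ p : ℕ, p.Prime → p < 101 → p ∈ T) (D : LocData T) {a : ℕ → ℝ}
    (ha : ∀ q : ℕ, |a q| ≤ 2 * Real.sqrt q) (hfr : FrobRel T a) (hG : Glob D a)
    (K : Type) [Field K] [NumberField K] : RH D a K := by
  have ha2 : SqRel K T a := sqRel_of_frob K T a hfr
  obtain ⟨V, hne, hVT, H, H4⟩ := hG K
  obtain ⟨T1, S, hS, hST, hV⟩ := exists_S K T hTp (hT 2 Nat.prime_two (by norm_num)) V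
  obtain ⟨N, B1, Z, A, hN, hB, hB0, hZ, hZ1, hZe, he⟩ :=
    symN hTp hT D ha ha2 hS hST hV hVT hne H (x0 := 3 / 2) (by norm_num)
      (fun y0 => ⟨LX D a, fam1 D hS hST hT ha y0⟩)
  have hx : ((3 / 2 : ℝ) - 1 / 2) = 1 := by norm_num
  rw [hx] at hN he
  have hre : ∀ s : ℂ, (s + 1 / 2 : ℂ).re = s.re + 1 / 2 := fun s => by
    rw [Complex.add_re]
    norm_num
  have hre2 : ∀ s : ℂ, (2 * s - 1 : ℂ).re = 2 * s.re - 1 := fun s => by
    rw [Complex.sub_re, Complex.mul_re]
    norm_num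
  have hq : ∀ v, Away K T v → 101 ≤ nrm v := fun v hv => nrm_away K T hT v hv
  have hsm : ∀ x : ℝ, 1 < x → Summable fun v : {v : HeightOneSpectrum (𝓞 K) // Away K T v} =>
      (nrm v.1 : ℝ) ^ (-x) := fun x hx =>
    (Pool.Agent.HWR.summable_nrm K hx).comp_injective Subtype.val_injective
  have hSPd : DifferentiableOn ℂ (SP K a T) {s : ℂ | 1 < s.re} :=
    gen_diff (fun v : {v : HeightOneSpectrum (𝓞 K) // Away K T v} => nrm v.1)
      (fun v => a (nrm v.1)) (fun v => hq _ v.2) (fun v => ha _) hsm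
  have hSP0 : ∀ s : ℂ, 1 < s.re → SP K a T s ≠ 0 := fun s hs =>
    gen_ne (fun v : {v : HeightOneSpectrum (𝓞 K) // Away K T v} => nrm v.1)
      (fun v => a (nrm v.1)) (fun v => hq _ v.2) (fun v => ha _) hsm hs
  have hsub : {s : ℂ | 1 < s.re} ⊆ {s : ℂ | 1 / 2 < s.re} := by
    intro s hs
    have h1 : 1 < s.re := hs
    change 1 / 2 < s.re
    linarith
  obtain ⟨E, hE⟩ : ∃ E : ℂ → ℂ, E = fun s => B1 s * ((2 * s - 2) * Z (2 * s - 1)) *
      D.Lam a K (s + 1 / 2) * SP K a T s := ⟨_, rfl⟩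
  have hEd : DifferentiableOn ℂ E {s : ℂ | 1 < s.re} := by
    rw [hE]
    refine (((hB.mono hsub).mul ?_).mul ?_).mul hSPd
    · refine Differentiable.differentiableOn ?_
      have h1 : Differentiable ℂ fun s : ℂ => Z (2 * s - 1) :=
        hZ.comp (((differentiable_const 2).mul differentiable_id).sub_const 1)
      exact (((differentiable_const 2).mul differentiable_id).sub_const 2).mul h1
    · refine (Lam_diff hTp hT D ha).comp
        (differentiable_id.add (differentiable_const (1 / 2))).differentiableOn ?_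
      intro s hs
      have h1 : 1 < s.re := hs
      change 3 / 2 < (s + 1 / 2 : ℂ).re
      rw [hre]
      linarith
  have hE0 : ∀ s : ℂ, 1 < s.re → E s ≠ 0 := by
    intro s hs
    have hw : 1 < (2 * s - 1 : ℂ).re := by
      rw [hre2]
      linarith
    have h2s : (2 * s - 2 : ℂ) ≠ 0 := by
      intro h0
      have h1 := congrArg Complex.re h0
      rw [Complex.sub_re, Complex.mul_re] at h1
      norm_num at h1
      linarith
    rw [hE]
    refine mul_ne_zero (mul_ne_zero (mul_ne_zero (hB0 s (by linarith)) (mul_ne_zero h2s ?_)) ?_)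
      (hSP0 s hs)
    · rw [hZe _ hw]
      refine mul_ne_zero ?_ (sta_ZP hw)
      have e : (2 * s - 1 - 1 : ℂ) = 2 * s - 2 := by ring
      rw [e]
      exact h2s
    · exact Pool.Agent.H73.AL.Lam_ne D hTp hT ha K (by rw [hre]; linarith)
  refine ⟨fun s => N s / E s, hN.div hEd hE0, ?_⟩
  have hU : IsOpen {s : ℂ | 3 / 2 < s.re} := isOpen_lt continuous_const Complex.continuous_re
  have hconv : Convex ℝ {s : ℂ | 3 / 2 < s.re} := convex_halfSpace_re_gt (3 / 2)
  have hsub2 : {s : ℂ | 3 / 2 < s.re} ⊆ {s : ℂ | 1 < s.re} := by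
    intro s hs
    have h1 : 3 / 2 < s.re := hs
    change 1 < s.re
    linarith
  have h0 : (((max A 2 + 1 : ℝ) : ℂ)) ∈ {s : ℂ | 3 / 2 < s.re} := by
    change 3 / 2 < (((max A 2 + 1 : ℝ) : ℂ)).re
    rw [Complex.ofReal_re]
    have := le_max_right A 2
    linarith
  have hev : N =ᶠ[nhds (((max A 2 + 1 : ℝ) : ℂ))] fun s => D.Lam a K s * E s := by
    have h3 : {s : ℂ | max A 2 < s.re} ∈ nhds (((max A 2 + 1 : ℝ) : ℂ)) :=
      (isOpen_lt continuous_const Complex.continuous_re).mem_nhds (by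
        change max A 2 < (((max A 2 + 1 : ℝ) : ℂ)).re
        rw [Complex.ofReal_re]
        linarith)
    refine Filter.mem_of_superset h3 fun s hs => ?_
    have h4 : max A 2 < s.re := hs
    have h5 : A < s.re := (le_max_left _ _).trans_lt h4
    have h6 : 2 < s.re := (le_max_right _ _).trans_lt h4
    change N s = D.Lam a K s * E s
    rw [he s h5 (by linarith), hE]
    ring
  have hEq := AnalyticOnNhd.eqOn_of_preconnected_of_eventuallyEq
    ((hN.mono hsub2).analyticOnNhd hU)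
    (((Lam_diff hTp hT D ha).mul (hEd.mono hsub2)).analyticOnNhd hU) hconv.isPreconnected h0 hev
  intro s hs
  have h7 : N s = D.Lam a K s * E s := hEq hs
  change N s / E s = D.Lam a K s
  rw [h7, mul_div_cancel_right₀ _ (hE0 s (by linarith))]

end Pool.Agent.THF
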