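import Pool.Agent.THF.K.Fam2
import Pool.Agent.THF.K.St1
import Pool.Agent.QD.F.Trace

/-!
# THF/K-SymF: STEP 2, the function `N` continues to `Re s > 1/2` (paper (4.4))

PLAN.  `hG K`: `V`; `exists_S`; `step1` for all fields; `fam2`; `symN` with `x0 = 1`: `N` on `Re s > 1/2`, and for `Re s > A` the formula with `Lam`.  On `Re s > 1` both `N` and `B1 * ((2s-2) Z (2s-1)) * (RF s * RF (s + 1/2)) * SP` are differentiable (`RF_spec`, `gen_diff`), equal for large `Re s`: identity theorem.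
-/

namespace Pool.Agent.THF

open NumberField IsDedekindDomain Pool.Agent.HWR Pool.Agent.QD Pool.Agent.QD.In Pool.Agent.LD
  Pool.Agent.MD

theorem symF {T : Finset ℕ} (hTp : ∀ p ∈ T, p.Prime)
    (hT : ∀ p : ℕ, p.Prime → p < 101 → p ∈ T) (D : LocData T) {a : ℕ → ℝ}
    (ha : ∀ q : ℕ, |a q| ≤ 2 * Real.sqrt q) (hfr : FrobRel T a) (hG : Glob D a)
    (K : Type) [Field K] [NumberField K] :
    ∃ N B1 Z : ℂ → ℂ, DifferentiableOn ℂ N {s : ℂ | 1 / 2 < s.re} ∧
      DifferentiableOn ℂ B1 {s : ℂ | 1 / 2 < s.re} ∧ (∀ s : ℂ, 1 / 2 < s.re → B1 s ≠ 0) ∧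
      Differentiable ℂ Z ∧ Z 1 ≠ 0 ∧ (∀ w : ℂ, 1 < w.re → Z w = (w - 1) * ZP K w) ∧
      ∀ s : ℂ, 1 < s.re → N s = B1 s * ((2 * s - 2) * Z (2 * s - 1)) *
        (RF D a K s * RF D a K (s + 1 / 2)) * SP K a T s := by
  have ha2 : SqRel K T a := sqRel_of_frob K T a hfr
  have hR : ∀ (F : Type) [Field F] [NumberField F], RH D a F := fun F _ _ =>
    step1 hTp hT D ha hfr hG F
  obtain ⟨V, hne, hVT, H, H4⟩ := hG K
  obtain ⟨T1, S, hS, hST, hV⟩ := exists_S K T hTp (hT 2 Nat.prime_two (by norm_num)) V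
  obtain ⟨N, B1, Z, A, hN, hB, hB0, hZ, hZ1, hZe, he⟩ :=
    symN hTp hT D ha ha2 hS hST hV hVT hne H (x0 := 1) (by norm_num)
      (fun y0 => ⟨RX D a, fam2 hTp hT D ha hS hST hV hVT hne H H4 hR y0⟩)
  have hx : ((1 : ℝ) - 1 / 2) = 1 / 2 := by norm_num
  rw [hx] at hN he
  refine ⟨N, B1, Z, hN, hB, hB0, hZ, hZ1, hZe, ?_⟩
  obtain ⟨hRd, hRe⟩ := RF_spec D a (hR K)
  have hre : ∀ s : ℂ, (s + 1 / 2 : ℂ).re = s.re + 1 / 2 := fun s => by
    rw [Complex.add_re]
    norm_num
  have hq : ∀ v, Away K T v → 101 ≤ nrm v := fun v hv => nrm_away K T hT v hv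
  have hSPd : DifferentiableOn ℂ (SP K a T) {s : ℂ | 1 < s.re} := by
    refine gen_diff (fun v : {v : HeightOneSpectrum (𝓞 K) // Away K T v} => nrm v.1)
      (fun v => a (nrm v.1)) (fun v => hq _ v.2) (fun v => ha _) ?_
    intro x hx
    exact (Pool.Agent.HWR.summable_nrm K hx).comp_injective Subtype.val_injective
  have hU : IsOpen {s : ℂ | 1 < s.re} := isOpen_lt continuous_const Complex.continuous_re
  have hconv : Convex ℝ {s : ℂ | 1 < s.re} := convex_halfSpace_re_gt 1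
  have hsub : {s : ℂ | 1 < s.re} ⊆ {s : ℂ | 1 / 2 < s.re} := by
    intro s hs
    have h1 : 1 < s.re := hs
    change 1 / 2 < s.re
    linarith
  have hGd : DifferentiableOn ℂ (fun s => B1 s * ((2 * s - 2) * Z (2 * s - 1)) *
        (RF D a K s * RF D a K (s + 1 / 2)) * SP K a T s) {s : ℂ | 1 < s.re} := by
    refine (((hB.mono hsub).mul ?_).mul (hRd.mul ?_)).mul hSPd
    · refine Differentiable.differentiableOn ?_
      have h1 : Differentiable ℂ fun s : ℂ => Z (2 * s - 1) :=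
        hZ.comp (((differentiable_const 2).mul differentiable_id).sub_const 1)
      exact (((differentiable_const 2).mul differentiable_id).sub_const 2).mul h1
    · refine hRd.comp (differentiable_id.add (differentiable_const (1 / 2))).differentiableOn ?_
      intro s hs
      have h1 : 1 < s.re := hs
      change 1 < (s + 1 / 2 : ℂ).re
      rw [hre]
      linarith
  have h0 : (((max A 2 + 1 : ℝ) : ℂ)) ∈ {s : ℂ | 1 < s.re} := by
    change 1 < (((max A 2 + 1 : ℝ) : ℂ)).re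
    rw [Complex.ofReal_re]
    have := le_max_right A 2
    linarith
  have hev : N =ᶠ[nhds (((max A 2 + 1 : ℝ) : ℂ))] fun s =>
      B1 s * ((2 * s - 2) * Z (2 * s - 1)) *
        (RF D a K s * RF D a K (s + 1 / 2)) * SP K a T s := by
    have h3 : {s : ℂ | max A 2 < s.re} ∈ nhds (((max A 2 + 1 : ℝ) : ℂ)) :=
      (isOpen_lt continuous_const Complex.continuous_re).mem_nhds (by
        change max A 2 < (((max A 2 + 1 : ℝ) : ℂ)).re
        rw [Complex.ofReal_re]
        linarith)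
    refine Filter.mem_of_superset h3 fun s hs => ?_
    have h4 : max A 2 < s.re := hs
    have h5 : A < s.re := (le_max_left _ _).trans_lt h4
    have h6 : 2 < s.re := (le_max_right _ _).trans_lt h4
    change N s = B1 s * ((2 * s - 2) * Z (2 * s - 1)) *
        (RF D a K s * RF D a K (s + 1 / 2)) * SP K a T s
    rw [he s h5 (by linarith), hRe s (by linarith), hRe (s + 1 / 2) (by rw [hre]; linarith)]
  have hEq := AnalyticOnNhd.eqOn_of_preconnected_of_eventuallyEq
    ((hN.mono hsub).analyticOnNhd hU) (hGd.analyticOnNhd hU) hconv.isPreconnected h0 hev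
  exact fun s hs => hEq hs

end Pool.Agent.THF
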