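import Pool.Agent.THF.K.LXb

/-!
# THF/K-LXc: bounds for `LX x`, uniformly in `x`

PLAN.  The functions `tt x v` (`v ∈ S`), `D0 S x`, `cdx D x`, `plx D x` depend only on the class of `x` in the finite group `GS S` (`tt_congr`, `D0_congr`, `cdx_congr`, `plx_congr`: QD/In/CongZ, CongD, CongL; `Quotient.out`, `out_div`), so `0 < c1 ≤ D0 S x ≤ c2`, the same for `cdx` (`D0_pos`, `cdx_pos`), and on a region `x1 ≤ Re s ≤ x2`,
`3/2 < x1`: `c ≤ ‖plx D x s‖ ≤ C` for all `x` (finitely many functions: `plx` is `pl` of a field or its square; `plL_lower`, `plL_bdd` (QD/In/Pl), `pl_list`).  `dd x = D0 S x * oddN S x` (`dd_eq`).  The product over the places: `‖∏' FF‖ ≤ C`, `≥ c > 0` for `Re s ≥ x1`, uniformly in the types: as in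
`Lu_bd`, `Ls_bd` (LD/A/Euler), or `FF_ef` and the products of `ef`; `‖FF a q t s - 1‖ ≤ 16 q^(1/2 - Re s)` (HWR/LocalEst: `efac_sub_one`, `Fm_sub_one`), so `‖∏ FF‖ ≤ exp (∑ 16 q^(1/2 - x1))`; lower bound: the same for the inverses `(FF)⁻¹` (the product of `FF⁻¹` is the inverse of the product) (compare `LT_lower`, H73/AL/Euler).
The factor `gam1 s ^ (2 n)` is kept.  `gam1_up`: `norm_Gamma_le`-like (HWR), `‖Γ(s)‖ ≤ Γ(Re s)`; `gam1_low`: continuous, nonzero (`gam1_ne`), compactness.  `‖(dd^2 cdx)^(s/2)‖ = (dd^2 cdx)^(Re s/2)`.  `oddN S x ≥ 1` (`oddN_pos`).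
`LX_diff`: each factor is differentiable for `Re s > 3/2` (the product: `differentiableOn_tprod`-like, HWR/HolProd.lean, LD/A/Euler.lean), `plx_ne`.
-/

namespace Pool.Agent.THF

open NumberField IsDedekindDomain Pool.Agent.HWR Pool.Agent.QD Pool.Agent.QD.In Pool.Agent.LD
  Pool.Agent.MD

/-! generic infinite products -/

private theorem lx_mult {ι : Type} {f : ι → ℂ} (h : Summable fun i => ‖f i - 1‖) :
    Multipliable f := by
  have h := multipliable_one_add_of_summable (f := fun i => f i - 1) h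
  simpa only [add_sub_cancel] using h

private theorem lx_bdd {ι : Type} {f : ι → ℂ} {v : ι → ℝ} (hv : Summable v)
    (h : ∀ i, ‖f i - 1‖ ≤ v i) : ‖∏' i, f i‖ ≤ Real.exp (∑' i, v i) := by
  have hs : Summable fun i => ‖f i - 1‖ :=
    Summable.of_nonneg_of_le (fun i => norm_nonneg _) h hv
  have h1 := (lx_mult hs).hasProd
  refine le_of_tendsto' h1.norm fun t => ?_
  have h2 := Finset.norm_prod_one_add_sub_one_le t (fun i => f i - 1)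
  simp only [add_sub_cancel] at h2
  have h3 : ∑ i ∈ t, ‖f i - 1‖ ≤ ∑' i, v i := by
    refine (Finset.sum_le_sum fun i _ => h i).trans ?_
    exact hv.sum_le_tsum _ fun i _ => (norm_nonneg _).trans (h i)
  have h4 := norm_le_norm_sub_add (∏ i ∈ t, f i) 1
  rw [norm_one] at h4
  have h5 := Real.exp_le_exp.2 h3
  change ∏ i ∈ t, ‖f i‖ ≤ _
  rw [← _root_.norm_prod]
  linarith

/-- bounds from above and from below for an infinite product -/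
private theorem lx_two {ι : Type} {f : ι → ℂ} {v : ι → ℝ} (hv : Summable v)
    (h : ∀ i, ‖f i - 1‖ ≤ v i) (h2 : ∀ i, v i ≤ 1 / 2) :
    ‖∏' i, f i‖ ≤ Real.exp (2 * ∑' i, v i) ∧ (Real.exp (2 * ∑' i, v i))⁻¹ ≤ ‖∏' i, f i‖ := by
  have hv0 : ∀ i, 0 ≤ v i := fun i => (norm_nonneg _).trans (h i)
  have hlow : ∀ i, 1 / 2 ≤ ‖f i‖ := by
    intro i
    have h3 := norm_sub_norm_le (1 : ℂ) (1 - f i)
    rw [norm_one, sub_sub_cancel, norm_sub_rev] at h3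
    have h4 := h i
    have h5 := h2 i
    linarith
  have hne : ∀ i, f i ≠ 0 := by
    intro i h0
    have h3 := hlow i
    rw [h0, norm_zero] at h3
    norm_num at h3
  have hinv : ∀ i, ‖(f i)⁻¹ - 1‖ ≤ 2 * v i := by
    intro i
    have e : (f i)⁻¹ - 1 = -(f i - 1) * (f i)⁻¹ := by
      have := hne i
      field_simp
      ring
    rw [e, norm_mul, norm_neg, norm_inv]
    have h3 : ‖f i‖⁻¹ ≤ 2 := by
      have h4 := inv_anti₀ (by norm_num : (0 : ℝ) < 1 / 2) (hlow i)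
      norm_num at h4
      exact h4
    have h4 : 0 ≤ ‖f i‖⁻¹ := inv_nonneg.2 (norm_nonneg _)
    have h5 := h i
    have h6 := norm_nonneg (f i - 1)
    calc ‖f i - 1‖ * ‖f i‖⁻¹ ≤ v i * 2 := mul_le_mul h5 h3 h4 (hv0 i)
      _ = 2 * v i := by ring
  have hs2 : Summable fun i => 2 * v i := hv.mul_left 2
  have h2v : ∑' i, 2 * v i = 2 * ∑' i, v i := tsum_mul_left
  have b1 := lx_bdd hs2 (f := f) (fun i => (h i).trans (by linarith [hv0 i]))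
  have b2 := lx_bdd hs2 (f := fun i => (f i)⁻¹) hinv
  rw [h2v] at b1 b2
  refine ⟨b1, ?_⟩
  have m1 : Multipliable f := lx_mult (Summable.of_nonneg_of_le (fun i => norm_nonneg _) h hv)
  have m2 : Multipliable fun i => (f i)⁻¹ :=
    lx_mult (Summable.of_nonneg_of_le (fun i => norm_nonneg _) hinv hs2)
  have hone : (∏' i, f i) * ∏' i, (f i)⁻¹ = 1 := by
    rw [← m1.tprod_mul m2]
    refine (tprod_congr fun i => ?_).trans (tprod_one (α := ℂ) (β := ι))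
    exact mul_inv_cancel₀ (hne i)
  have h6 := congrArg norm hone
  rw [norm_mul, norm_one] at h6
  have hE : 0 < Real.exp (2 * ∑' i, v i) := Real.exp_pos _
  rw [inv_le_iff_one_le_mul₀ hE]
  rw [← h6]
  exact mul_le_mul_of_nonneg_left b2 (norm_nonneg _)

/-! the local factors -/

private theorem lx_y_le {q : ℕ} (hq : 101 ≤ q) {x : ℝ} (hx : x ≤ 0) : (q : ℝ) ^ x ≤ 1 :=
  Real.rpow_le_one_of_one_le_of_nonpos (by exact_mod_cast (by omega : 1 ≤ q)) hx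

private theorem lx_FF {a : ℕ → ℝ} (ha : ∀ q : ℕ, |a q| ≤ 2 * Real.sqrt q) {q : ℕ} (hq : 101 ≤ q)
    {s : ℂ} (hs : 1 ≤ s.re) (u : ℂ) : ‖FF a q u s - 1‖ ≤ 15 * (q : ℝ) ^ (1 / 2 - s.re) := by
  have hy0 : 0 ≤ (q : ℝ) ^ (1 / 2 - s.re) := by positivity
  have hy1 : (q : ℝ) ^ (1 / 2 - s.re) ≤ 1 := lx_y_le hq (by linarith)
  have h1 := efac_sub_one ha hq hs
  have h2 := Fm_sub_one ha hq hs
  unfold Pool.Agent.HWR.FF
  split_ifs
  · unfold F1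
    have h3 : ‖efac a q s + 1‖ ≤ 5 := by
      calc ‖efac a q s + 1‖ = ‖(efac a q s - 1) + 2‖ := by ring_nf
        _ ≤ ‖efac a q s - 1‖ + ‖(2 : ℂ)‖ := norm_add_le _ _
        _ ≤ 3 * (q : ℝ) ^ (1 / 2 - s.re) + 2 := by
            refine add_le_add h1 ?_
            norm_num
        _ ≤ 5 := by linarith
    calc ‖efac a q s ^ 2 - 1‖ = ‖efac a q s - 1‖ * ‖efac a q s + 1‖ := by
          rw [← norm_mul]; ring_nf
      _ ≤ (3 * (q : ℝ) ^ (1 / 2 - s.re)) * 5 := mul_le_mul h1 h3 (norm_nonneg _) (by positivity)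
      _ = 15 * (q : ℝ) ^ (1 / 2 - s.re) := by ring
  · have h3 : (q : ℝ) ^ (1 - 2 * s.re) ≤ (q : ℝ) ^ (1 / 2 - s.re) :=
      Real.rpow_le_rpow_of_exponent_le (by exact_mod_cast (by omega : 1 ≤ q)) (by linarith)
    linarith
  · linarith

variable {K : Type} [Field K] [NumberField K] {T : Finset ℕ} (D : LocData T) {a : ℕ → ℝ}
  (S : Finset (HeightOneSpectrum (𝓞 K)))

omit D S in
/-- the product over the places -/
private theorem lx_prod (hT : ∀ p : ℕ, p.Prime → p < 101 → p ∈ T)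
    (ha : ∀ q : ℕ, |a q| ≤ 2 * Real.sqrt q) {x1 : ℝ} (hx1 : 3 / 2 < x1) :
    ∃ C : ℝ, 0 < C ∧ ∀ (x : Kˣ) (s : ℂ), x1 ≤ s.re →
      ‖∏' v : {v : HeightOneSpectrum (𝓞 K) // Away K T v}, FF a (nrm v.1) (tt x v.1) s‖ ≤ C ∧
      C⁻¹ ≤ ‖∏' v : {v : HeightOneSpectrum (𝓞 K) // Away K T v},
        FF a (nrm v.1) (tt x v.1) s‖ := by
  have h1 : Summable fun v : {v : HeightOneSpectrum (𝓞 K) // Away K T v} =>
      15 * (nrm v.1 : ℝ) ^ (1 / 2 - x1) := by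
    have h2 := ((summable_nrm K (x := x1 - 1 / 2) (by linarith)).comp_injective
      (Subtype.val_injective (p := fun w => Away K T w))).mul_left 15
    refine h2.congr fun v => ?_
    have h4 : (1 / 2 - x1 : ℝ) = -(x1 - 1 / 2) := by ring
    rw [h4]
    rfl
  refine ⟨_, Real.exp_pos _, fun x s hs => lx_two h1 (fun v => ?_) (fun v => ?_)⟩
  · have hq := nrm_ge K T hT v.1 v.2
    refine (lx_FF ha hq (by linarith) _).trans ?_
    have h3 : (nrm v.1 : ℝ) ^ (1 / 2 - s.re) ≤ (nrm v.1 : ℝ) ^ (1 / 2 - x1) :=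
      Real.rpow_le_rpow_of_exponent_le (by exact_mod_cast (by omega : 1 ≤ nrm v.1))
        (by linarith)
    linarith
  · have hq := nrm_ge K T hT v.1 v.2
    have hq' : (101 : ℝ) ≤ nrm v.1 := by exact_mod_cast hq
    have h3 : (nrm v.1 : ℝ) ^ (1 / 2 - x1) ≤ (nrm v.1 : ℝ) ^ (-1 : ℝ) :=
      Real.rpow_le_rpow_of_exponent_le (by linarith) (by linarith)
    rw [Real.rpow_neg_one] at h3
    have h4 : (nrm v.1 : ℝ)⁻¹ ≤ (101 : ℝ)⁻¹ := inv_anti₀ (by norm_num) hq'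
    norm_num at h4
    linarith

omit S in
private theorem lx_pl0 (F : Type) [Field F] [NumberField F] {x1 x2 : ℝ} (hx1 : 3 / 2 < x1) :
    ∃ C : ℝ, 1 ≤ C ∧ ∀ s : ℂ, x1 ≤ s.re → s.re ≤ x2 → ‖D.pl F s‖ ≤ C ∧ C⁻¹ ≤ ‖D.pl F s‖ := by
  obtain ⟨L, hL, h⟩ := pl_list D F
  obtain ⟨C, hC, h1⟩ := plL_bdd L (fun x hx => (hL x hx).1.ne_zero) x1 x2
  refine ⟨max (max C (2 ^ L.length)) 1, le_max_right _ _, fun s h2 h3 => ?_⟩
  rw [h s]
  refine ⟨(h1 s h2 h3).trans ((le_max_left _ _).trans (le_max_left _ _)), ?_⟩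
  have h4 := plL_lower L (fun x hx => ⟨(hL x hx).1, (hL x hx).2.2⟩) (s := s) (by linarith)
  refine le_trans ?_ h4
  have h5 : ((1 : ℝ) / 2) ^ L.length = (2 ^ L.length)⁻¹ := by
    rw [one_div, inv_pow]
  rw [h5]
  exact inv_anti₀ (by positivity) ((le_max_right _ _).trans (le_max_left _ _))

omit S in
private theorem lx_pl1 (x : Kˣ) {x1 x2 : ℝ} (hx1 : 3 / 2 < x1) :
    ∃ C : ℝ, 1 ≤ C ∧ ∀ s : ℂ, x1 ≤ s.re → s.re ≤ x2 →
      ‖plx D x s‖ ≤ C ∧ C⁻¹ ≤ ‖plx D x s‖ := by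
  by_cases h : IsSquare x
  · obtain ⟨C, hC, h1⟩ := lx_pl0 D K (x1 := x1) (x2 := x2) hx1
    refine ⟨C ^ 2, one_le_pow₀ hC, fun s h2 h3 => ?_⟩
    obtain ⟨h4, h5⟩ := h1 s h2 h3
    unfold plx
    rw [dif_pos h, norm_pow, ← inv_pow]
    exact ⟨pow_le_pow_left₀ (norm_nonneg _) h4 2,
      pow_le_pow_left₀ (inv_nonneg.2 (by linarith)) h5 2⟩
  · obtain ⟨C, hC, h1⟩ := lx_pl0 D (qf h).L (x1 := x1) (x2 := x2) hx1
    refine ⟨C, hC, fun s h2 h3 => ?_⟩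
    unfold plx
    rw [dif_neg h]
    exact h1 s h2 h3

/-- all data depending on the class only, uniformly -/
private theorem lx_unif (h2 : ∀ v : HeightOneSpectrum (𝓞 K), (2 : 𝓞 K) ∈ v.asIdeal → v ∈ S)
    (hST : ∀ v, ¬ Away K T v → v ∈ S) {x1 x2 : ℝ} (hx1 : 3 / 2 < x1) :
    ∃ M : ℝ, 1 ≤ M ∧ ∀ x : Kˣ, (D0 S x ^ 2 * cdx D x ≤ M ∧ M⁻¹ ≤ D0 S x ^ 2 * cdx D x) ∧
      ∀ s : ℂ, x1 ≤ s.re → s.re ≤ x2 → ‖plx D x s‖ ≤ M ∧ M⁻¹ ≤ ‖plx D x s‖ := by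
  have key : ∀ c : GS S, ∃ M : ℝ, 1 ≤ M ∧
      (D0 S (Quotient.out c) ^ 2 * cdx D (Quotient.out c) ≤ M ∧
        M⁻¹ ≤ D0 S (Quotient.out c) ^ 2 * cdx D (Quotient.out c)) ∧
      ∀ s : ℂ, x1 ≤ s.re → s.re ≤ x2 →
        ‖plx D (Quotient.out c) s‖ ≤ M ∧ M⁻¹ ≤ ‖plx D (Quotient.out c) s‖ := by
    intro c
    obtain ⟨C, hC, h1⟩ := lx_pl1 D (Quotient.out c : Kˣ) (x1 := x1) (x2 := x2) hx1
    have hE : 0 < D0 S (Quotient.out c) ^ 2 * cdx D (Quotient.out c) :=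
      mul_pos (pow_pos (D0_pos S _) 2) (cdx_pos D _)
    set E : ℝ := D0 S (Quotient.out c) ^ 2 * cdx D (Quotient.out c) with hEd
    refine ⟨max C (max E E⁻¹), hC.trans (le_max_left _ _), ⟨(le_max_left _ _).trans
      (le_max_right _ _), ?_⟩, fun s h3 h4 => ?_⟩
    · rw [inv_le_comm₀ (lt_of_lt_of_le (by linarith) (le_max_left _ _)) hE]
      exact (le_max_right _ _).trans (le_max_right _ _)
    · obtain ⟨h5, h6⟩ := h1 s h3 h4
      exact ⟨h5.trans (le_max_left _ _), (inv_anti₀ (by linarith) (le_max_left _ _)).trans h6⟩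
  choose M hM1 hM2 hM3 using key
  obtain ⟨B, hB⟩ := (Set.finite_range M).bddAbove
  have hB' : ∀ c, M c ≤ B := fun c => hB ⟨c, rfl⟩
  refine ⟨B, (hM1 1).trans (hB' 1), fun x => ?_⟩
  set c : GS S := QuotientGroup.mk x with hc
  have h3 : x / (Quotient.out c) ∈ Pool.Agent.QD.HSub S := div_out S x
  have e1 : D0 S x = D0 S (Quotient.out c) := D0_congr S h2 h3
  have e2 : cdx D x = cdx D (Quotient.out c) := cdx_congr D hST h3
  have e3 : plx D x = plx D (Quotient.out c) := plx_congr D hST h3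
  rw [e1, e2, e3]
  have hi : B⁻¹ ≤ (M c)⁻¹ := inv_anti₀ (by linarith [hM1 c]) (hB' c)
  refine ⟨⟨(hM2 c).1.trans (hB' c), hi.trans (hM2 c).2⟩, fun s h4 h5 => ?_⟩
  obtain ⟨h6, h7⟩ := hM3 c s h4 h5
  exact ⟨h6.trans (hB' c), hi.trans h7⟩

/-- the norm of the first factor -/
private theorem lx_disc (x : Kˣ) (s : ℂ) :
    ‖((dd x ^ 2 * cdx D x : ℝ) : ℂ) ^ (s / 2)‖ =
      (D0 S x ^ 2 * cdx D x) ^ (s.re / 2) * (oddN S x : ℝ) ^ s.re := by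
  have ho : (0 : ℝ) < oddN S x := by exact_mod_cast oddN_pos S x
  have hE : 0 < D0 S x ^ 2 * cdx D x := mul_pos (pow_pos (D0_pos S _) 2) (cdx_pos D _)
  have h1 : dd x ^ 2 * cdx D x = (D0 S x ^ 2 * cdx D x) * (oddN S x : ℝ) ^ 2 := by
    rw [dd_eq S x]
    ring
  have h2 : 0 < dd x ^ 2 * cdx D x := by
    rw [h1]
    positivity
  have h3 : (s / 2).re = s.re / 2 := by
    have h4 : s / 2 = s / ((2 : ℝ) : ℂ) := by norm_num
    rw [h4, Complex.div_ofReal_re]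
  rw [Complex.norm_cpow_eq_rpow_re_of_pos h2, h3, h1, Real.mul_rpow hE.le (by positivity)]
  congr 1
  rw [← Real.rpow_natCast (oddN S x : ℝ) 2, ← Real.rpow_mul ho.le]
  congr 1
  push_cast
  ring

omit S in
private theorem lx_norm (x : Kˣ) (s : ℂ) :
    ‖LX D a x s‖ = ‖((dd x ^ 2 * cdx D x : ℝ) : ℂ) ^ (s / 2)‖ *
      ‖gam1 s‖ ^ (2 * Module.finrank ℚ K) *
      (‖∏' v : {v : HeightOneSpectrum (𝓞 K) // Away K T v}, FF a (nrm v.1) (tt x v.1) s‖ /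
        ‖plx D x s‖) := by
  unfold LX
  rw [norm_mul, norm_mul, norm_pow, norm_div]

theorem LX_up (h2 : ∀ v : HeightOneSpectrum (𝓞 K), (2 : 𝓞 K) ∈ v.asIdeal → v ∈ S)
    {T1 : Finset ℕ} (hS : Nic T1 S) (hST : ∀ v, ¬ Away K T v → v ∈ S)
    (hT : ∀ p : ℕ, p.Prime → p < 101 → p ∈ T) (ha : ∀ q : ℕ, |a q| ≤ 2 * Real.sqrt q)
    {x1 x2 : ℝ} (hx1 : 3 / 2 < x1) : ∃ A C : ℝ, 0 ≤ A ∧ 0 ≤ C ∧ ∀ (x : Kˣ) (s : ℂ), x1 ≤ s.re →
      s.re ≤ x2 → ‖LX D a x s‖ ≤ C * (oddN S x : ℝ) ^ A * ‖gam1 s‖ ^ (2 * Module.finrank ℚ K) := by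
  obtain ⟨C1, hC1, h1⟩ := lx_prod (K := K) hT ha hx1
  obtain ⟨M, hM, h3⟩ := lx_unif D S h2 hST (x1 := x1) (x2 := x2) hx1
  have hM0 : 0 < M := by linarith
  refine ⟨max x2 0, M ^ (x2 / 2) * (C1 * M), le_max_right _ _, by positivity,
    fun x s hs1 hs2 => ?_⟩
  obtain ⟨h4, -⟩ := h1 x s hs1
  obtain ⟨⟨h5, h6⟩, h7⟩ := h3 x
  obtain ⟨-, h8⟩ := h7 s hs1 hs2
  have ho : (1 : ℝ) ≤ oddN S x := by exact_mod_cast oddN_pos S x
  have hE : 0 < D0 S x ^ 2 * cdx D x := mul_pos (pow_pos (D0_pos S _) 2) (cdx_pos D _)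
  rw [lx_norm, lx_disc D S]
  have i1 : (D0 S x ^ 2 * cdx D x) ^ (s.re / 2) ≤ M ^ (x2 / 2) :=
    (Real.rpow_le_rpow hE.le h5 (by linarith)).trans
      (Real.rpow_le_rpow_of_exponent_le hM (by linarith))
  have i2 : (oddN S x : ℝ) ^ s.re ≤ (oddN S x : ℝ) ^ max x2 0 :=
    Real.rpow_le_rpow_of_exponent_le ho (hs2.trans (le_max_left _ _))
  have i3 : ‖∏' v : {v : HeightOneSpectrum (𝓞 K) // Away K T v},
      FF a (nrm v.1) (tt x v.1) s‖ / ‖plx D x s‖ ≤ C1 * M := by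
    rw [div_eq_mul_inv]
    refine mul_le_mul h4 ?_ (inv_nonneg.2 (norm_nonneg _)) hC1.le
    exact inv_le_of_inv_le₀ hM0 h8
  have g0 : 0 ≤ ‖gam1 s‖ ^ (2 * Module.finrank ℚ K) := by positivity
  calc (D0 S x ^ 2 * cdx D x) ^ (s.re / 2) * (oddN S x : ℝ) ^ s.re *
        ‖gam1 s‖ ^ (2 * Module.finrank ℚ K) *
        (‖∏' v : {v : HeightOneSpectrum (𝓞 K) // Away K T v},
          FF a (nrm v.1) (tt x v.1) s‖ / ‖plx D x s‖)
      ≤ (M ^ (x2 / 2) * (oddN S x : ℝ) ^ max x2 0 * ‖gam1 s‖ ^ (2 * Module.finrank ℚ K)) *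
        (C1 * M) := by
        refine mul_le_mul (mul_le_mul_of_nonneg_right (mul_le_mul i1 i2 (by positivity)
          (by positivity)) g0) i3 (by positivity) (by positivity)
    _ = _ := by ring

theorem LX_low (h2 : ∀ v : HeightOneSpectrum (𝓞 K), (2 : 𝓞 K) ∈ v.asIdeal → v ∈ S)
    {T1 : Finset ℕ} (hS : Nic T1 S) (hST : ∀ v, ¬ Away K T v → v ∈ S)
    (hT : ∀ p : ℕ, p.Prime → p < 101 → p ∈ T) (ha : ∀ q : ℕ, |a q| ≤ 2 * Real.sqrt q)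
    {x1 x2 : ℝ} (hx1 : 3 / 2 < x1) : ∃ c : ℝ, 0 < c ∧ ∀ (x : Kˣ) (s : ℂ), x1 ≤ s.re →
      s.re ≤ x2 → c * ‖gam1 s‖ ^ (2 * Module.finrank ℚ K) ≤ ‖LX D a x s‖ := by
  obtain ⟨C1, hC1, h1⟩ := lx_prod (K := K) hT ha hx1
  obtain ⟨M, hM, h3⟩ := lx_unif D S h2 hST (x1 := x1) (x2 := x2) hx1
  have hM0 : 0 < M := by linarith
  refine ⟨(M ^ (x2 / 2))⁻¹ * (C1⁻¹ * M⁻¹), by positivity, fun x s hs1 hs2 => ?_⟩
  obtain ⟨-, h4⟩ := h1 x s hs1
  obtain ⟨⟨h5, h6⟩, h7⟩ := h3 x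
  obtain ⟨h8, h9⟩ := h7 s hs1 hs2
  have ho : (1 : ℝ) ≤ oddN S x := by exact_mod_cast oddN_pos S x
  have hE : 0 < D0 S x ^ 2 * cdx D x := mul_pos (pow_pos (D0_pos S _) 2) (cdx_pos D _)
  have hp0 : 0 < ‖plx D x s‖ := lt_of_lt_of_le (inv_pos.2 hM0) h9
  rw [lx_norm, lx_disc D S]
  have i1 : (M ^ (x2 / 2))⁻¹ ≤ (D0 S x ^ 2 * cdx D x) ^ (s.re / 2) := by
    have j1 : (M⁻¹) ^ (s.re / 2) ≤ (D0 S x ^ 2 * cdx D x) ^ (s.re / 2) :=
      Real.rpow_le_rpow (inv_nonneg.2 hM0.le) h6 (by linarith)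
    have j2 : (M⁻¹) ^ (s.re / 2) = (M ^ (s.re / 2))⁻¹ := Real.inv_rpow hM0.le _
    have j3 : M ^ (s.re / 2) ≤ M ^ (x2 / 2) :=
      Real.rpow_le_rpow_of_exponent_le hM (by linarith)
    have j4 : (M ^ (x2 / 2))⁻¹ ≤ (M ^ (s.re / 2))⁻¹ := inv_anti₀ (by positivity) j3
    rw [j2] at j1
    exact j4.trans j1
  have i2 : (1 : ℝ) ≤ (oddN S x : ℝ) ^ s.re := Real.one_le_rpow ho (by linarith)
  have i3 : C1⁻¹ * M⁻¹ ≤ ‖∏' v : {v : HeightOneSpectrum (𝓞 K) // Away K T v},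
      FF a (nrm v.1) (tt x v.1) s‖ / ‖plx D x s‖ := by
    rw [div_eq_mul_inv]
    exact mul_le_mul h4 (inv_anti₀ hp0 h8) (inv_nonneg.2 hM0.le) (norm_nonneg _)
  have g0 : 0 ≤ ‖gam1 s‖ ^ (2 * Module.finrank ℚ K) := by positivity
  have k0 : (0 : ℝ) ≤ (M ^ (x2 / 2))⁻¹ := by positivity
  calc (M ^ (x2 / 2))⁻¹ * (C1⁻¹ * M⁻¹) * ‖gam1 s‖ ^ (2 * Module.finrank ℚ K)
      = (M ^ (x2 / 2))⁻¹ * 1 * ‖gam1 s‖ ^ (2 * Module.finrank ℚ K) * (C1⁻¹ * M⁻¹) := by ring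
    _ ≤ (D0 S x ^ 2 * cdx D x) ^ (s.re / 2) * (oddN S x : ℝ) ^ s.re *
        ‖gam1 s‖ ^ (2 * Module.finrank ℚ K) *
        (‖∏' v : {v : HeightOneSpectrum (𝓞 K) // Away K T v},
          FF a (nrm v.1) (tt x v.1) s‖ / ‖plx D x s‖) := by
        refine mul_le_mul (mul_le_mul_of_nonneg_right (mul_le_mul i1 i2 zero_le_one
          (by positivity)) g0) i3 (by positivity) (by positivity)

end Pool.Agent.THF
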